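import Pool.Agent.H32.BT.Defs

set_option autoImplicit false

open Filter Topology Polynomial OnePoint Metric Set

namespace Pool.Agent.H32.BT

open Pool.Agent.H44.Fatou

/-
Elementary topology of the notions in Defs.lean.
hyp_iff: Q is not 0 (otherwise P is a unit and max = 0), so a continuous f agreeing with P/Q where
Q is not 0 equals rat P Q (cofinite set of complex numbers is dense; rat_continuous, rat_coe_of_ne).
isSink_map: w near f z, then f^[n-1] w is near f^[n-1] (f z) = z, so f^[n k] (f^[n-1] w) tends to z;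
apply f.
att_open: some iterate f^[n k] x lies in the attracted neighbourhood U (use its interior).
att_map: if f x is attracted to (z, n) then f^[n (k+1)] x = f^[n-1] (f^[n k] (f x)) tends to
f^[n-1] z, which is a sink by isSink_map; conversely apply f.
-/

theorem hyp_iff {P Q : Polynomial ℂ} (h : IsCoprime P Q) (hd : 1 ≤ max P.natDegree Q.natDegree) :
    Hyp P Q ↔ HypMap (rat P Q) := by
  constructor
  · rintro ⟨f, hfc, hfe, hfh⟩
    have hQ : Q ≠ 0 := by
      rintro rfl
      rw [isCoprime_zero_right] at h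
      have h0 : P.natDegree = 0 := natDegree_eq_zero_of_isUnit h
      rw [h0, natDegree_zero] at hd
      simp at hd
    have hfin : {z : ℂ | Q.eval z = 0}.Finite := by
      refine (Q.roots.toFinset.finite_toSet).subset ?_
      intro z hz
      rw [Finset.mem_coe, Multiset.mem_toFinset, mem_roots hQ]
      exact hz
    have hdense : Dense {z : ℂ | Q.eval z = 0}ᶜ := hfin.countable.dense_compl ℂ
    have hdense2 : Dense ((fun z : ℂ => (z : OnePoint ℂ)) '' {z : ℂ | Q.eval z = 0}ᶜ) :=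
      denseRange_coe.dense_image continuous_coe hdense
    have heq : f = rat P Q := by
      refine Continuous.ext_on hdense2 hfc (rat_continuous h) ?_
      rintro _ ⟨z, hz, rfl⟩
      exact (hfe z hz).trans (rat_coe_of_ne hz).symm
    rw [← heq]
    intro c hc
    obtain ⟨z, n, h1, h2, h3, h4⟩ := hfh c hc
    exact ⟨z, n, ⟨h1, h2, h3⟩, h4⟩
  · intro hH
    refine ⟨rat P Q, rat_continuous h, fun z hz => rat_coe_of_ne hz, ?_⟩
    intro c hc
    obtain ⟨z, n, ⟨h1, h2, h3⟩, h4⟩ := hH c hc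
    exact ⟨z, n, h1, h2, h3, h4⟩

theorem isCrit_conj (φ : OnePoint ℂ ≃ₜ OnePoint ℂ) {f g : OnePoint ℂ → OnePoint ℂ}
    (hfg : ∀ x, g (φ x) = φ (f x)) (x : OnePoint ℂ) : IsCrit g (φ x) ↔ IsCrit f x := by
  unfold IsCrit
  rw [not_iff_not]
  constructor
  · rintro ⟨U, hU, hinj⟩
    refine ⟨φ ⁻¹' U, φ.continuous.continuousAt.preimage_mem_nhds hU, ?_⟩
    intro a ha b hb hab
    apply φ.injective
    apply hinj ha hb
    rw [hfg, hfg, hab]
  · rintro ⟨U, hU, hinj⟩
    refine ⟨φ.symm ⁻¹' U, ?_, ?_⟩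
    · apply φ.symm.continuous.continuousAt.preimage_mem_nhds
      rw [φ.symm_apply_apply]
      exact hU
    · intro a ha b hb hab
      have h1 := hfg (φ.symm a)
      have h2 := hfg (φ.symm b)
      rw [φ.apply_symm_apply] at h1 h2
      have h3 : f (φ.symm a) = f (φ.symm b) := by
        apply φ.injective
        rw [← h1, ← h2, hab]
      exact φ.symm.injective (hinj ha hb h3)

theorem iter_conj (φ : OnePoint ℂ ≃ₜ OnePoint ℂ) {f g : OnePoint ℂ → OnePoint ℂ}
    (hfg : ∀ x, g (φ x) = φ (f x)) (n : ℕ) (x : OnePoint ℂ) : g^[n] (φ x) = φ (f^[n] x) := by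
  induction n with
  | zero => rfl
  | succ n ih => rw [Function.iterate_succ_apply', ih, hfg, ← Function.iterate_succ_apply' f]

private theorem tend_conj (φ : OnePoint ℂ ≃ₜ OnePoint ℂ) {f g : OnePoint ℂ → OnePoint ℂ}
    (hfg : ∀ x, g (φ x) = φ (f x)) (n : ℕ) (x z : OnePoint ℂ) :
    Tendsto (fun k : ℕ => g^[n * k] (φ x)) atTop (𝓝 (φ z)) ↔
      Tendsto (fun k : ℕ => f^[n * k] x) atTop (𝓝 z) := by
  have h : (fun k : ℕ => g^[n * k] (φ x)) = φ ∘ (fun k : ℕ => f^[n * k] x) := by
    funext k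
    rw [iter_conj φ hfg]
    rfl
  rw [h]
  exact φ.isInducing.tendsto_nhds_iff.symm

theorem isSink_conj (φ : OnePoint ℂ ≃ₜ OnePoint ℂ) {f g : OnePoint ℂ → OnePoint ℂ}
    (hfg : ∀ x, g (φ x) = φ (f x)) (z : OnePoint ℂ) (n : ℕ) :
    IsSink g (φ z) n ↔ IsSink f z n := by
  unfold IsSink
  rw [iter_conj φ hfg, φ.injective.eq_iff]
  refine and_congr_right (fun _ => and_congr_right (fun _ => ?_))
  constructor
  · rintro ⟨U, hU, h⟩
    refine ⟨φ ⁻¹' U, φ.continuous.continuousAt.preimage_mem_nhds hU, fun w hw => ?_⟩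
    exact (tend_conj φ hfg n w z).1 (h (φ w) hw)
  · rintro ⟨U, hU, h⟩
    refine ⟨φ.symm ⁻¹' U, ?_, fun w hw => ?_⟩
    · apply φ.symm.continuous.continuousAt.preimage_mem_nhds
      rw [φ.symm_apply_apply]
      exact hU
    · have h1 := (tend_conj φ hfg n (φ.symm w) z).2 (h _ hw)
      rw [φ.apply_symm_apply] at h1
      exact h1

theorem att_conj (φ : OnePoint ℂ ≃ₜ OnePoint ℂ) {f g : OnePoint ℂ → OnePoint ℂ}
    (hfg : ∀ x, g (φ x) = φ (f x)) (x : OnePoint ℂ) : Att g (φ x) ↔ Att f x := by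
  constructor
  · rintro ⟨z, n, h1, h2⟩
    obtain ⟨z', rfl⟩ := φ.surjective z
    exact ⟨z', n, (isSink_conj φ hfg z' n).1 h1, (tend_conj φ hfg n x z').1 h2⟩
  · rintro ⟨z, n, h1, h2⟩
    exact ⟨φ z, n, (isSink_conj φ hfg z n).2 h1, (tend_conj φ hfg n x z).2 h2⟩

theorem hypMap_conj (φ : OnePoint ℂ ≃ₜ OnePoint ℂ) {f g : OnePoint ℂ → OnePoint ℂ}
    (hfg : ∀ x, g (φ x) = φ (f x)) : HypMap g ↔ HypMap f := by
  constructor
  · intro h c hc
    exact (att_conj φ hfg c).1 (h (φ c) ((isCrit_conj φ hfg c).2 hc))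
  · intro h c hc
    obtain ⟨c', rfl⟩ := φ.surjective c
    exact (att_conj φ hfg c').2 (h c' ((isCrit_conj φ hfg c').1 hc))

theorem isSink_mul {f : OnePoint ℂ → OnePoint ℂ} {z : OnePoint ℂ} {n : ℕ} (h : IsSink f z n)
    {m : ℕ} (hm : 0 < m) : IsSink f z (n * m) := by
  obtain ⟨h1, h2, U, hU, h3⟩ := h
  refine ⟨Nat.mul_pos h1 hm, ?_, U, hU, fun w hw => ?_⟩
  · rw [Function.iterate_mul]
    exact Function.iterate_fixed h2 m
  · have h4 : Tendsto (fun k : ℕ => m * k) atTop atTop :=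
      tendsto_atTop_mono (fun k => Nat.le_mul_of_pos_left k hm) tendsto_id
    have h5 := (h3 w hw).comp h4
    refine h5.congr (fun k => ?_)
    simp only [Function.comp_apply, mul_assoc]

theorem isSink_map {f : OnePoint ℂ → OnePoint ℂ} (hf : Continuous f) {z : OnePoint ℂ} {n : ℕ}
    (h : IsSink f z n) : IsSink f (f z) n := by
  obtain ⟨h1, h2, U, hU, h3⟩ := h
  have hfz : f^[n] (f z) = f z := by
    rw [← Function.iterate_succ_apply, Function.iterate_succ_apply', h2]
  have hn1 : f^[n - 1] (f z) = z := by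
    rw [← Function.iterate_succ_apply]
    have : (n - 1).succ = n := by omega
    rw [this, h2]
  refine ⟨h1, hfz, (f^[n - 1]) ⁻¹' U, ?_, fun w hw => ?_⟩
  · apply (hf.iterate (n - 1)).continuousAt.preimage_mem_nhds
    rw [hn1]
    exact hU
  · have h4 := (hf.tendsto z).comp (h3 _ hw)
    rw [← tendsto_add_atTop_iff_nat 1]
    refine h4.congr (fun k => ?_)
    simp only [Function.comp_apply]
    rw [← Function.iterate_add_apply, ← Function.iterate_succ_apply' f]
    congr 2
    rw [mul_add, mul_one]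
    omega

theorem att_sink {f : OnePoint ℂ → OnePoint ℂ} {z : OnePoint ℂ} {n : ℕ} (h : IsSink f z n) :
    Att f z := by
  obtain ⟨h1, h2, U, hU, h3⟩ := h
  exact ⟨z, n, ⟨h1, h2, U, hU, h3⟩, h3 z (mem_of_mem_nhds hU)⟩

theorem att_open {f : OnePoint ℂ → OnePoint ℂ} (hf : Continuous f) : IsOpen {x | Att f x} := by
  rw [isOpen_iff_mem_nhds]
  rintro x ⟨z, n, ⟨h1, h2, U, hU, h3⟩, h4⟩
  obtain ⟨k, hk⟩ := (h4.eventually (interior_mem_nhds.2 hU)).exists
  have hV : (f^[n * k]) ⁻¹' (interior U) ∈ 𝓝 x :=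
    (hf.iterate (n * k)).continuousAt.preimage_mem_nhds (isOpen_interior.mem_nhds hk)
  filter_upwards [hV] with y hy
  refine ⟨z, n, ⟨h1, h2, U, hU, h3⟩, ?_⟩
  rw [← tendsto_add_atTop_iff_nat k]
  refine (h3 _ (interior_subset hy)).congr (fun j => ?_)
  rw [← Function.iterate_add_apply, mul_add]

private theorem isSink_iter {f : OnePoint ℂ → OnePoint ℂ} (hf : Continuous f) {z : OnePoint ℂ}
    {n : ℕ} (h : IsSink f z n) (m : ℕ) : IsSink f (f^[m] z) n := by
  induction m with
  | zero => exact h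
  | succ m ih =>
    rw [Function.iterate_succ_apply']
    exact isSink_map hf ih

theorem att_map {f : OnePoint ℂ → OnePoint ℂ} (hf : Continuous f) (x : OnePoint ℂ) :
    Att f (f x) ↔ Att f x := by
  constructor
  · rintro ⟨z, n, h1, h2⟩
    refine ⟨f^[n - 1] z, n, isSink_iter hf h1 (n - 1), ?_⟩
    have h3 := ((hf.iterate (n - 1)).tendsto z).comp h2
    rw [← tendsto_add_atTop_iff_nat 1]
    refine h3.congr (fun k => ?_)
    simp only [Function.comp_apply]
    rw [← Function.iterate_succ_apply f, ← Function.iterate_add_apply]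
    have hn := h1.1
    have e : n - 1 + (n * k).succ = n * (k + 1) := by
      rw [mul_add, mul_one]
      omega
    rw [e]
  · rintro ⟨z, n, h1, h2⟩
    refine ⟨f z, n, isSink_map hf h1, ?_⟩
    refine ((hf.tendsto z).comp h2).congr (fun k => ?_)
    simp only [Function.comp_apply]
    rw [← Function.iterate_succ_apply f, ← Function.iterate_succ_apply' f]

theorem att_iter {f : OnePoint ℂ → OnePoint ℂ} (hf : Continuous f) (x : OnePoint ℂ) (n : ℕ) :
    Att f (f^[n] x) ↔ Att f x := by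
  induction n with
  | zero => rfl
  | succ n ih => rw [Function.iterate_succ_apply', att_map hf, ih]

theorem crit_closed (f : OnePoint ℂ → OnePoint ℂ) : IsClosed {c | IsCrit f c} := by
  rw [← isOpen_compl_iff, isOpen_iff_mem_nhds]
  intro c hc
  have hc' : ∃ U ∈ 𝓝 c, InjOn f U := by
    by_contra hcon
    exact hc hcon
  obtain ⟨U, hU, hinj⟩ := hc'
  filter_upwards [eventually_mem_nhds_iff.2 hU] with y hy
  intro hcon
  exact hcon ⟨U, hy, hinj⟩

end Pool.Agent.H32.BT
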