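import Pool.Agent.H32.BT.Trap
import Pool.Agent.H32.BT.Top

set_option autoImplicit false

open Filter Topology Polynomial OnePoint Metric Set

namespace Pool.Agent.H32.BT

open Pool.Agent.H44.Fatou

/-
From trap_per and the contraction principle (compare trap and trapC in H44/Fatou): for v = (cf d P,
cf d Q) near v0 the map it v n is a q-contraction of closedBall (x 0) r into ball (x 0) r and
(rat P Q)^[j] (w : OnePoint C) = (it v j w) as long as the denominators do not vanish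
(rat_coe_of_ne, ev_cf).
-/

theorem it_rat {d : ℕ} {P Q : Polynomial ℂ} (hP : P.natDegree ≤ d) (hQ : Q.natDegree ≤ d) (z : ℂ) :
    ∀ j : ℕ, (∀ i < j, ev (cf d Q) (it (cf d P, cf d Q) i z) ≠ 0) →
      (rat P Q)^[j] (z : OnePoint ℂ) = ((it (cf d P, cf d Q) j z : ℂ) : OnePoint ℂ)
  | 0, _ => rfl
  | j + 1, h => by
    have ih := it_rat hP hQ z j (fun i hi => h i (by omega))
    have hj := h j (by omega)
    rw [Function.iterate_succ_apply', ih]
    rw [ev_cf hQ] at hj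
    rw [rat_coe_of_ne hj]
    simp only [it]
    rw [ev_cf hQ, ev_cf hP]

theorem sink_of_contr {f : OnePoint ℂ → OnePoint ℂ} {F : ℂ → ℂ} {a : ℂ} {r q : ℝ} {n : ℕ}
    (hn : 0 < n) (hr : 0 < r) (hq0 : 0 ≤ q) (hq : q < 1)
    (hfF : ∀ z ∈ closedBall a r, f^[n] (z : OnePoint ℂ) = (F z : OnePoint ℂ))
    (hmaps : ∀ z ∈ closedBall a r, F z ∈ ball a r)
    (hlip : ∀ z ∈ closedBall a r, ∀ w ∈ closedBall a r, ‖F z - F w‖ ≤ q * ‖z - w‖) :
    ∃ z ∈ ball a r, IsSink f (z : OnePoint ℂ) n ∧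
      ∀ w ∈ closedBall a r,
        Tendsto (fun k : ℕ => f^[n * k] (w : OnePoint ℂ)) atTop (𝓝 (z : OnePoint ℂ)) ∧
        ∀ k : ℕ, ∃ y ∈ closedBall a r, f^[n * k] (w : OnePoint ℂ) = (y : OnePoint ℂ) := by
  have hmaps' : Set.MapsTo F (closedBall a r) (closedBall a r) :=
    fun z hz => ball_subset_closedBall (hmaps z hz)
  have hcontr : ContractingWith ⟨q, hq0⟩ (hmaps'.restrict F _ _) := by
    refine ⟨by exact_mod_cast hq, ?_⟩
    apply LipschitzWith.of_dist_le_mul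
    intro x y
    rw [Subtype.dist_eq, Subtype.dist_eq, dist_eq_norm, dist_eq_norm]
    exact hlip x x.2 y y.2
  have hcomplete : IsComplete (closedBall a r) := isClosed_closedBall.isComplete
  obtain ⟨y, hy, hfix, -, -⟩ := hcontr.exists_fixedPoint' hcomplete hmaps'
    (mem_closedBall_self hr.le) (edist_ne_top _ _)
  have hfixF : F y = y := hfix
  have hiter : ∀ k : ℕ, ∀ w ∈ closedBall a r, F^[k] w ∈ closedBall a r := by
    intro k w hw
    exact hmaps'.iterate k hw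
  have hfiter : ∀ k : ℕ, ∀ w ∈ closedBall a r,
      f^[n * k] (w : OnePoint ℂ) = ((F^[k] w : ℂ) : OnePoint ℂ) := by
    intro k
    induction k with
    | zero => intro w _; rfl
    | succ k ih =>
      intro w hw
      rw [Nat.mul_succ, Nat.add_comm, Function.iterate_add_apply, ih w hw, hfF _ (hiter k w hw),
        Function.iterate_succ_apply']
  have hgeo : ∀ k : ℕ, ∀ w ∈ closedBall a r, ‖F^[k] w - y‖ ≤ q ^ k * ‖w - y‖ := by
    intro k
    induction k with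
    | zero => intro w _; simp
    | succ k ih =>
      intro w hw
      rw [Function.iterate_succ_apply']
      calc ‖F (F^[k] w) - y‖ = ‖F (F^[k] w) - F y‖ := by rw [hfixF]
        _ ≤ q * ‖F^[k] w - y‖ := hlip _ (hiter k w hw) _ hy
        _ ≤ q * (q ^ k * ‖w - y‖) := by gcongr; exact ih w hw
        _ = q ^ (k + 1) * ‖w - y‖ := by ring
  have htend : ∀ w ∈ closedBall a r,
      Tendsto (fun k : ℕ => f^[n * k] (w : OnePoint ℂ)) atTop (𝓝 (y : OnePoint ℂ)) := by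
    intro w hw
    have h1 : Tendsto (fun k : ℕ => F^[k] w) atTop (𝓝 y) := by
      rw [tendsto_iff_norm_sub_tendsto_zero]
      refine squeeze_zero (fun k => norm_nonneg _) (fun k => hgeo k w hw) ?_
      have h2 := (tendsto_pow_atTop_nhds_zero_of_lt_one hq0 hq).mul_const ‖w - y‖
      rwa [zero_mul] at h2
    have h3 : Tendsto (fun k : ℕ => ((F^[k] w : ℂ) : OnePoint ℂ)) atTop (𝓝 (y : OnePoint ℂ)) :=
      (OnePoint.continuous_coe.tendsto y).comp h1
    refine h3.congr fun k => (hfiter k w hw).symm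
  have hyb : y ∈ ball a r := by
    rw [← hfixF]
    exact hmaps y hy
  refine ⟨y, hyb, ⟨hn, ?_, (fun z : ℂ => (z : OnePoint ℂ)) '' ball a r, ?_, ?_⟩, ?_⟩
  · have h1 := hfF y hy
    rw [h1, hfixF]
  · exact (OnePoint.isOpenEmbedding_coe.isOpenMap _ isOpen_ball).mem_nhds ⟨y, hyb, rfl⟩
  · rintro w ⟨w', hw', rfl⟩
    exact htend w' (ball_subset_closedBall hw')
  · intro w hw
    exact ⟨htend w hw, fun k => ⟨F^[k] w, hiter k w hw, hfiter k w hw⟩⟩

theorem sink_of_mult {d : ℕ} (v0 : (Fin (d + 1) → ℂ) × (Fin (d + 1) → ℂ)) (x : ℕ → ℂ) (n : ℕ)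
    (hn : 0 < n) (hx : x n = x 0) (hden : ∀ j < n, ev v0.2 (x j) ≠ 0)
    (hstep : ∀ j < n, ev v0.1 (x j) / ev v0.2 (x j) = x (j + 1))
    (hmul : ‖∏ j ∈ Finset.range n, wv v0 (x j) / ev v0.2 (x j) ^ 2‖ < 1)
    (N : Set ℂ) (hN : N ∈ 𝓝 (x 0)) :
    ∃ r : ℝ, 0 < r ∧ closedBall (x 0) r ⊆ N ∧
      ∀ᶠ v in 𝓝 v0, ∀ P Q : Polynomial ℂ, IsCoprime P Q → P.natDegree ≤ d → Q.natDegree ≤ d →
        v = (cf d P, cf d Q) → ∃ z ∈ ball (x 0) r, IsSink (rat P Q) (z : OnePoint ℂ) n ∧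
          ∀ w ∈ closedBall (x 0) r,
            Tendsto (fun k : ℕ => (rat P Q)^[n * k] (w : OnePoint ℂ)) atTop
              (𝓝 (z : OnePoint ℂ)) ∧
            ∀ k : ℕ, ∃ y ∈ closedBall (x 0) r,
              (rat P Q)^[n * k] (w : OnePoint ℂ) = (y : OnePoint ℂ) := by
  obtain ⟨r, q, L, hr, hq0, hq1, hL, hsub, hev⟩ := trap_per v0 x n hn hx hden hstep hmul N hN
  refine ⟨r, hr, hsub, ?_⟩
  filter_upwards [hev] with v hv P Q _ hP hQ hvPQ
  subst hvPQ
  exact sink_of_contr (F := fun z => it (cf d P, cf d Q) n z) hn hr hq0 hq1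
    (fun z hz => it_rat hP hQ z n (hv z hz).1) (fun z hz => (hv z hz).2.1)
    (fun z hz w hw => ((hv z hz).2.2.2 w hw).1)

end Pool.Agent.H32.BT
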