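import Mathlib
import Pool.Agent.H44.Fatou.Mob3

set_option autoImplicit false

open Filter Topology Polynomial OnePoint Metric Set

namespace Pool.Agent.H32.BT

open Pool.Agent.H44.Fatou

/-- `z` is a periodic point of `f` (`n` a multiple of its period) with a neighbourhood all of
whose points are attracted to `z` by the iterates of `f^[n]`. -/
def IsSink (f : OnePoint ℂ → OnePoint ℂ) (z : OnePoint ℂ) (n : ℕ) : Prop :=
  0 < n ∧ f^[n] z = z ∧ ∃ U ∈ 𝓝 z, ∀ w ∈ U, Tendsto (fun k : ℕ => f^[n * k] w) atTop (𝓝 z)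

/-- `x` is attracted to a sink of `f`. -/
def Att (f : OnePoint ℂ → OnePoint ℂ) (x : OnePoint ℂ) : Prop :=
  ∃ (z : OnePoint ℂ) (n : ℕ), IsSink f z n ∧ Tendsto (fun k : ℕ => f^[n * k] x) atTop (𝓝 z)

/-- critical point: `f` is not locally injective at `c`. -/
def IsCrit (f : OnePoint ℂ → OnePoint ℂ) (c : OnePoint ℂ) : Prop := ¬ ∃ U ∈ 𝓝 c, InjOn f U

/-- every critical point is attracted to a sink. -/
def HypMap (f : OnePoint ℂ → OnePoint ℂ) : Prop := ∀ c, IsCrit f c → Att f c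

/-- iteration of the rational map with coefficient vectors `v` in the finite chart. -/
noncomputable def it {d : ℕ} (v : (Fin (d + 1) → ℂ) × (Fin (d + 1) → ℂ)) : ℕ → ℂ → ℂ
  | 0, z => z
  | j + 1, z => ev v.1 (it v j z) / ev v.2 (it v j z)

/-- coefficientwise distance less than `ρ`. -/
def Near (ρ : ℝ) (P Q P0 Q0 : Polynomial ℂ) : Prop :=
  ∀ i : ℕ, ‖P.coeff i - P0.coeff i‖ < ρ ∧ ‖Q.coeff i - Q0.coeff i‖ < ρ

/-- all rational maps of degree exactly `d` near the pair `(P0, Q0)` are hyperbolic. -/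
def Robust (d : ℕ) (P0 Q0 : Polynomial ℂ) : Prop :=
  ∃ ρ : ℝ, 0 < ρ ∧ ∀ P Q : Polynomial ℂ, IsCoprime P Q → max P.natDegree Q.natDegree = d →
    Near ρ P Q P0 Q0 → HypMap (rat P Q)

/-- conjugation by `z ↦ 1 / (z - s)`, numerator. -/
noncomputable def cj1 (s : ℂ) (d : ℕ) (_P Q : Polynomial ℂ) : Polynomial ℂ :=
  reflect d (Q.comp (X + C s))

/-- conjugation by `z ↦ 1 / (z - s)`, denominator. -/
noncomputable def cj2 (s : ℂ) (d : ℕ) (P Q : Polynomial ℂ) : Polynomial ℂ :=
  reflect d ((P - C s * Q).comp (X + C s))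

/-- the one parameter family with a hole at infinity as `t → 0` and fixed critical value `w0`:
`w0 + (A/B - w0) (1 + t z)`, numerator (denominator `B`). -/
noncomputable def Pt (A B : Polynomial ℂ) (w0 t : ℂ) : Polynomial ℂ :=
  C w0 * B + (A - C w0 * B) * (1 + C t * X)

/-- the orbit of `w0` under the family, as a function of `t`. -/
noncomputable def hh (A B : Polynomial ℂ) (w0 : ℂ) : ℕ → ℂ → ℂ
  | 0, _ => w0
  | n + 1, t => w0 + (A.eval (hh A B w0 n t) / B.eval (hh A B w0 n t) - w0) *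
      (1 + t * hh A B w0 n t)

end Pool.Agent.H32.BT
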