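import Pool.Agent.H32.BT.Crit
import Pool.Agent.H32.BT.Top

set_option autoImplicit false

open Filter Topology Polynomial OnePoint Metric Set

namespace Pool.Agent.H32.BT

open Pool.Agent.H44.Fatou

/-
Near: Pt A B w0 t - A = C t * X * (A - C w0 * B), so the pair is Near rho for small t.
Coprime: a common root z of Pt and B has B z = 0, A z not 0, so 1 + t z = 0, z = -1/t, impossible for
small t (roots of B are bounded). Degree: coefficient of index e+1 of Pt is
t * (A.coeff e - w0 * B.coeff e), not 0. Critical point c: B c not 0, Wr A B c = 0 and A c = w0 B c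
give (A - C w0 B)(c) = 0 and its derivative at c is 0, so Wr (Pt) B vanishes at c; crit_of_wr; so
Robust gives Att at c, rat (Pt) B c = w0, att_map. Infinity is not attracted for small t: f infinity = infinity
(degrees), so it would be a sink; for |z| large |f_t z| <= (3/4) |z| if |t| is small, because
A/B is bounded near infinity (B.natDegree = e >= A.natDegree): a finite point z near infinity that never hits
infinity (all but countably many: fibres finite, rat_fiber_finite) cannot have f^[n k] z -> infinity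
(then also f^[j] z -> infinity along all j by continuity at infinity).
-/

/-- neighbourhoods of infinity -/
theorem nhds_inf_norm (M : ℝ) :
    ∀ᶠ x : OnePoint ℂ in 𝓝 ∞, ∀ z : ℂ, x = (z : OnePoint ℂ) → M < ‖z‖ := by
  rw [nhds_infty_eq, eventually_sup, eventually_map, eventually_pure]
  refine ⟨?_, fun z hz => absurd hz (infty_ne_coe _)⟩
  rw [coclosedCompact_eq_cocompact, ← Metric.cobounded_eq_cocompact]
  have h : ∀ᶠ z : ℂ in Bornology.cobounded ℂ, M < ‖z‖ :=
    tendsto_norm_cobounded_atTop.eventually (eventually_gt_atTop M)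
  filter_upwards [h] with z hz w hw
  rw [coe_eq_coe] at hw
  rwa [← hw]

theorem nhds_inf_exists {s : Set (OnePoint ℂ)} (hs : s ∈ 𝓝 (∞ : OnePoint ℂ)) :
    ∃ M : ℝ, ∀ z : ℂ, M < ‖z‖ → (z : OnePoint ℂ) ∈ s := by
  rw [nhds_infty_eq, mem_sup, mem_map, mem_pure] at hs
  obtain ⟨hs1, hs2⟩ := hs
  rw [coclosedCompact_eq_cocompact, ← Metric.cobounded_eq_cocompact] at hs1
  rw [← comap_norm_atTop, mem_comap] at hs1
  obtain ⟨t, ht, hts⟩ := hs1
  rw [mem_atTop_sets] at ht
  obtain ⟨M, hM⟩ := ht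
  exact ⟨M, fun z hz => hts (hM _ hz.le)⟩

theorem bdd_inf {A B : Polynomial ℂ} {e : ℕ} (hcop : IsCoprime A B) (hB : B.natDegree = e)
    (hA : A.natDegree ≤ e) (he : 1 ≤ e) (w0 : ℂ) :
    ∃ K R : ℝ, 0 < K ∧ 0 < R ∧ ∀ z : ℂ, R < ‖z‖ →
      B.eval z ≠ 0 ∧ ‖A.eval z / B.eval z - w0‖ ≤ K := by
  have hB0 : B ≠ 0 := by
    rintro rfl
    simp at hB; omega
  have hdg : dg A B = e := by unfold dg; rw [hB]; exact max_eq_right hA
  have hlead : B.coeff e ≠ 0 := by rw [← hB]; exact leadingCoeff_ne_zero.2 hB0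
  set y0 : ℂ := A.coeff e / B.coeff e with hy0
  have hinf : rat A B ∞ = (y0 : OnePoint ℂ) := by
    rw [rat_infty, hdg]; unfold pt; rw [if_neg hlead]
  have hcont := (rat_continuous hcop).tendsto (∞ : OnePoint ℂ)
  rw [hinf] at hcont
  have hN : ((↑) : ℂ → OnePoint ℂ) '' (ball y0 1) ∈ 𝓝 (y0 : OnePoint ℂ) := by
    rw [nhds_coe_eq]; exact image_mem_map (ball_mem_nhds _ one_pos)
  obtain ⟨M, hM⟩ := nhds_inf_exists (hcont hN)
  refine ⟨‖y0 - w0‖ + 1, max M 1, by positivity, by positivity, ?_⟩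
  intro z hz
  have h1 := hM z ((le_max_left _ _).trans_lt hz)
  obtain ⟨y, hy, hyz⟩ := h1
  rw [rat_coe] at hyz
  unfold pt at hyz
  split_ifs at hyz with h2
  · exact absurd hyz (coe_ne_infty _)
  · refine ⟨h2, ?_⟩
    rw [coe_eq_coe] at hyz
    rw [← hyz]
    rw [mem_ball, dist_eq_norm] at hy
    calc ‖y - w0‖ = ‖(y - y0) + (y0 - w0)‖ := by ring_nf
      _ ≤ ‖y - y0‖ + ‖y0 - w0‖ := norm_add_le _ _
      _ ≤ ‖y0 - w0‖ + 1 := by linarith

theorem coeff_bdd (D : Polynomial ℂ) : ∃ S : ℝ, 0 ≤ S ∧ ∀ i, ‖D.coeff i‖ ≤ S := by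
  refine ⟨∑ i ∈ D.support, ‖D.coeff i‖, Finset.sum_nonneg (fun _ _ => norm_nonneg _), ?_⟩
  intro i
  by_cases hi : i ∈ D.support
  · exact Finset.single_le_sum (f := fun i => ‖D.coeff i‖) (fun _ _ => norm_nonneg _) hi
  · rw [notMem_support_iff.1 hi, norm_zero]
    exact Finset.sum_nonneg (fun _ _ => norm_nonneg _)

theorem iter_fiber_finite {P Q : Polynomial ℂ} (h : IsCoprime P Q)
    (hd : 1 ≤ max P.natDegree Q.natDegree) (j : ℕ) (y : OnePoint ℂ) :
    ((rat P Q)^[j] ⁻¹' {y}).Finite := by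
  induction j with
  | zero => simp
  | succ j ih =>
    rw [Function.iterate_succ, Set.preimage_comp, ← Set.biUnion_preimage_singleton]
    exact ih.biUnion (fun x _ => rat_fiber_finite h hd x)

/-- infinity is not attracted if the map does not increase large moduli -/
theorem not_att_inf {P Q : Polynomial ℂ} (h : IsCoprime P Q)
    (hd : 1 ≤ max P.natDegree Q.natDegree) (hfix : rat P Q ∞ = ∞) (R : ℝ)
    (hR : ∀ z : ℂ, R < ‖z‖ → ∃ y : ℂ, rat P Q (z : OnePoint ℂ) = (y : OnePoint ℂ) ∧ ‖y‖ ≤ ‖z‖) :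
    ¬ Att (rat P Q) ∞ := by
  set f := rat P Q with hf
  have hfc : Continuous f := rat_continuous h
  have hfixn : ∀ n, f^[n] ∞ = ∞ := fun n => Function.iterate_fixed hfix n
  rintro ⟨z, n, ⟨hn, hz, U, hU, hUt⟩, ht⟩
  have hz' : z = ∞ := by
    have : Tendsto (fun k : ℕ => f^[n * k] (∞ : OnePoint ℂ)) atTop (𝓝 ∞) := by
      simp only [hfixn]; exact tendsto_const_nhds
    exact tendsto_nhds_unique ht this
  subst hz'
  -- a point whose orbit does not hit infinity
  obtain ⟨w, hwU, hw⟩ : ∃ w : ℂ, (w : OnePoint ℂ) ∈ U ∧ ∀ j, f^[j] (w : OnePoint ℂ) ≠ ∞ := by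
    obtain ⟨M, hM⟩ := nhds_inf_exists hU
    have hcount : {w : ℂ | ∃ j, f^[j] (w : OnePoint ℂ) = ∞}.Countable := by
      have : {w : ℂ | ∃ j, f^[j] (w : OnePoint ℂ) = ∞} =
          ⋃ j, {w : ℂ | f^[j] (w : OnePoint ℂ) = ∞} := by ext w; simp
      rw [this]
      refine countable_iUnion (fun j => ?_)
      have hfin : ((↑) ⁻¹' (f^[j] ⁻¹' {∞}) : Set ℂ).Finite :=
        (iter_fiber_finite h hd j ∞).preimage (OnePoint.coe_injective.injOn)
      exact hfin.countable
    have hdense := hcount.dense_compl ℂ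
    have hopen : IsOpen {z : ℂ | M < ‖z‖} := isOpen_lt continuous_const continuous_norm
    have hne : {z : ℂ | M < ‖z‖}.Nonempty := by
      refine ⟨((|M| + 1 : ℝ) : ℂ), ?_⟩
      simp only [mem_setOf_eq, Complex.norm_real, Real.norm_eq_abs]
      rw [abs_of_nonneg (by positivity)]
      linarith [le_abs_self M]
    obtain ⟨w, hw1, hw2⟩ := hdense.inter_open_nonempty _ hopen hne
    refine ⟨w, hM w hw1, ?_⟩
    intro j hj
    exact hw2 ⟨j, hj⟩
  have hex : ∀ j, ∃ a : ℂ, f^[j] (w : OnePoint ℂ) = (a : OnePoint ℂ) := by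
    intro j
    obtain ⟨a, ha⟩ := OnePoint.ne_infty_iff_exists.1 (hw j)
    exact ⟨a, ha.symm⟩
  choose a ha using hex
  have hlim := hUt _ hwU
  -- eventually the orbit stays outside of the disc during a period
  have hev : ∀ᶠ x : OnePoint ℂ in 𝓝 ∞, ∀ i ∈ Finset.range n, ∀ z : ℂ,
      f^[i] x = (z : OnePoint ℂ) → R < ‖z‖ := by
    rw [Filter.eventually_all_finset]
    intro i _
    have hc : Tendsto (f^[i]) (𝓝 ∞) (𝓝 ∞) := by
      have := (hfc.iterate i).tendsto (∞ : OnePoint ℂ)
      rwa [hfixn] at this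
    exact hc.eventually (nhds_inf_norm R)
  have hev2 := hlim.eventually hev
  rw [eventually_atTop] at hev2
  obtain ⟨K0, hK0⟩ := hev2
  have hstep : ∀ k, K0 ≤ k → ∀ i, i ≤ n → ‖a (n * k + i)‖ ≤ ‖a (n * k)‖ := by
    intro k hk i
    induction i with
    | zero => intro _; simp
    | succ i ih =>
      intro hi
      refine le_trans ?_ (ih (by omega))
      have h1 : f^[i] (f^[n * k] (w : OnePoint ℂ)) = (a (n * k + i) : OnePoint ℂ) := by
        rw [← Function.iterate_add_apply, add_comm, ha]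
      have h2 := hK0 k hk i (Finset.mem_range.2 (by omega)) _ h1
      obtain ⟨y, hy1, hy2⟩ := hR _ h2
      have h3 : f^[n * k + (i + 1)] (w : OnePoint ℂ) = f (a (n * k + i) : OnePoint ℂ) := by
        rw [← add_assoc, Function.iterate_succ_apply', ha]
      rw [ha, hy1, coe_eq_coe] at h3
      rw [h3]; exact hy2
  have hmono : ∀ m, ‖a (n * (K0 + m))‖ ≤ ‖a (n * K0)‖ := by
    intro m
    induction m with
    | zero => simp
    | succ m ih =>
      refine le_trans ?_ ih
      have := hstep (K0 + m) (by omega) n le_rfl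
      have e1 : n * (K0 + (m + 1)) = n * (K0 + m) + n := by ring
      rw [e1]; exact this
  have hev3 := hlim.eventually (nhds_inf_norm ‖a (n * K0)‖)
  rw [eventually_atTop] at hev3
  obtain ⟨K1, hK1⟩ := hev3
  have h5 := hK1 (K0 + K1) (by omega) _ (ha _)
  have h6 := hmono K1
  linarith

theorem fam_basic {A B : Polynomial ℂ} {e : ℕ} (hcop : IsCoprime A B) (hB : B.natDegree = e)
    (hA : A.natDegree ≤ e) (he : 1 ≤ e) {c w0 : ℂ} (hc : (Wr A B).eval c = 0)
    (hBc : B.eval c ≠ 0) (hw : A.eval c = w0 * B.eval c) (hlead : A.coeff e ≠ w0 * B.coeff e)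
    (hrob : Robust (e + 1) A B) :
    ∃ δ : ℝ, 0 < δ ∧ ∀ t : ℂ, t ≠ 0 → ‖t‖ < δ →
      IsCoprime (Pt A B w0 t) B ∧ max (Pt A B w0 t).natDegree B.natDegree = e + 1 ∧
      ¬ Att (rat (Pt A B w0 t) B) ∞ ∧ Att (rat (Pt A B w0 t) B) (w0 : OnePoint ℂ) := by
  obtain ⟨ρ, hρ, hhyp⟩ := hrob
  obtain ⟨K, R, hK, hR, hbd⟩ := bdd_inf hcop hB hA he w0
  obtain ⟨S, hS, hSb⟩ := coeff_bdd ((A - C w0 * B) * X)
  have hPt : ∀ t, Pt A B w0 t = A + C t * ((A - C w0 * B) * X) := by
    intro t; unfold Pt; ring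
  refine ⟨min (1 / R) (min (1 / (2 * K)) (ρ / (S + 1))), by positivity, ?_⟩
  intro t ht0 ht
  have ht1 : ‖t‖ < 1 / R := lt_of_lt_of_le ht (min_le_left _ _)
  have ht2 : ‖t‖ < 1 / (2 * K) := lt_of_lt_of_le ht ((min_le_right _ _).trans (min_le_left _ _))
  have ht3 : ‖t‖ < ρ / (S + 1) := lt_of_lt_of_le ht ((min_le_right _ _).trans (min_le_right _ _))
  have hBe : B.coeff (e + 1) = 0 := coeff_eq_zero_of_natDegree_lt (by omega)
  have hAe : A.coeff (e + 1) = 0 := coeff_eq_zero_of_natDegree_lt (by omega)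
  have hcoef : (Pt A B w0 t).coeff (e + 1) = t * (A.coeff e - w0 * B.coeff e) := by
    rw [hPt, coeff_add, coeff_C_mul, coeff_mul_X, coeff_sub, coeff_C_mul, hAe, zero_add]
  have hcoef0 : (Pt A B w0 t).coeff (e + 1) ≠ 0 := by
    rw [hcoef]; exact mul_ne_zero ht0 (sub_ne_zero.2 hlead)
  have hDdeg : (A - C w0 * B).natDegree ≤ e :=
    (natDegree_sub_le _ _).trans (max_le hA ((natDegree_C_mul_le _ _).trans hB.le))
  have hdeg : (Pt A B w0 t).natDegree = e + 1 := by
    apply le_antisymm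
    · rw [hPt]
      refine (natDegree_add_le _ _).trans (max_le (by omega) ?_)
      refine (natDegree_C_mul_le _ _).trans ?_
      refine (natDegree_mul_le).trans ?_
      have := natDegree_X_le (R := ℂ)
      omega
    · exact le_natDegree_of_ne_zero hcoef0
  have hmax : max (Pt A B w0 t).natDegree B.natDegree = e + 1 := by rw [hdeg, hB]; omega
  have hcopr : IsCoprime (Pt A B w0 t) B := by
    rw [Polynomial.isCoprime_iff_aeval_ne_zero_of_isAlgClosed (K := ℂ) (k := ℂ)]
    intro z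
    by_contra hcon
    push Not at hcon
    obtain ⟨h1, h2⟩ := hcon
    simp only [coe_aeval_eq_eval] at h1 h2
    have hzR : ‖z‖ ≤ R := by
      by_contra hcon
      exact (hbd z (not_le.1 hcon)).1 h2
    rw [hPt, eval_add, eval_mul, eval_mul, eval_sub, eval_mul, eval_C, eval_C, eval_X, h2] at h1
    have h3 : A.eval z * (1 + t * z) = 0 := by linear_combination h1
    rcases mul_eq_zero.1 h3 with h4 | h4
    · rcases coprime_eval hcop z with h5 | h5
      · exact h5 h4
      · exact h5 h2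
    · have h5 : t * z = -1 := by linear_combination h4
      have h6 : ‖t‖ * ‖z‖ = 1 := by rw [← norm_mul, h5, norm_neg, norm_one]
      have h7 : ‖t‖ * ‖z‖ < 1 := by
        calc ‖t‖ * ‖z‖ ≤ ‖t‖ * R := by gcongr
          _ < 1 / R * R := by gcongr
          _ = 1 := by field_simp
      linarith
  have hnear : Near ρ (Pt A B w0 t) B A B := by
    intro i
    refine ⟨?_, by simpa using hρ⟩
    rw [hPt, coeff_add, add_sub_cancel_left, coeff_C_mul, norm_mul]
    calc ‖t‖ * ‖((A - C w0 * B) * X).coeff i‖ ≤ ‖t‖ * (S + 1) := by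
          gcongr
          linarith [hSb i]
      _ < ρ / (S + 1) * (S + 1) := by gcongr
      _ = ρ := by field_simp
  have hH := hhyp _ _ hcopr hmax hnear
  have hd1 : 1 ≤ max (Pt A B w0 t).natDegree B.natDegree := by omega
  have hPtc : (Pt A B w0 t).eval c = w0 * B.eval c := by
    rw [hPt, eval_add, eval_mul, eval_mul, eval_sub, eval_mul, eval_C, eval_C, eval_X, hw]
    ring
  refine ⟨hcopr, hmax, ?_, ?_⟩
  · apply not_att_inf hcopr hd1 ?_ (max R (4 * (‖w0‖ + K)))
    · intro z hz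
      have hz1 : R < ‖z‖ := (le_max_left _ _).trans_lt hz
      have hz2 : 4 * (‖w0‖ + K) < ‖z‖ := (le_max_right _ _).trans_lt hz
      obtain ⟨hBz, hbz⟩ := hbd z hz1
      refine ⟨_, rat_coe_of_ne hBz, ?_⟩
      have hval : (Pt A B w0 t).eval z / B.eval z =
          w0 + (A.eval z / B.eval z - w0) * (1 + t * z) := by
        rw [hPt, eval_add, eval_mul, eval_mul, eval_sub, eval_mul, eval_C, eval_C, eval_X]
        field_simp
        ring
      rw [hval]
      have hKt : K * ‖t‖ ≤ 1 / 2 := by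
        calc K * ‖t‖ ≤ K * (1 / (2 * K)) := by gcongr
          _ = 1 / 2 := by field_simp
      calc ‖w0 + (A.eval z / B.eval z - w0) * (1 + t * z)‖
          ≤ ‖w0‖ + ‖A.eval z / B.eval z - w0‖ * ‖1 + t * z‖ := by
            rw [← norm_mul]; exact norm_add_le _ _
        _ ≤ ‖w0‖ + K * (1 + ‖t‖ * ‖z‖) := by
            gcongr
            refine (norm_add_le _ _).trans ?_
            rw [norm_one, norm_mul]
        _ = ‖w0‖ + K + (K * ‖t‖) * ‖z‖ := by ring
        _ ≤ ‖w0‖ + K + 1 / 2 * ‖z‖ := by gcongr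
        _ ≤ ‖z‖ := by linarith [norm_nonneg z]
    · rw [rat_infty]
      have : dg (Pt A B w0 t) B = e + 1 := hmax
      rw [this, hBe]
      unfold pt
      rw [if_pos rfl]
  · have hcrit : IsCrit (rat (Pt A B w0 t) B) c := by
      apply crit_of_wr hcopr hd1
      have hD' : (derivative A).eval c = w0 * (derivative B).eval c := by
        unfold Wr at hc
        rw [eval_sub, eval_mul, eval_mul, hw] at hc
        have : B.eval c * ((derivative A).eval c - w0 * (derivative B).eval c) = 0 := by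
          linear_combination hc
        rcases mul_eq_zero.1 this with h1 | h1
        · exact absurd h1 hBc
        · linear_combination h1
      unfold Wr
      rw [eval_sub, eval_mul, eval_mul, hPtc, hPt]
      simp only [derivative_add, derivative_mul, derivative_C, derivative_sub, derivative_X,
        eval_add, eval_mul, eval_sub, eval_C, eval_X, eval_one, eval_zero, zero_mul, zero_add,
        mul_one]
      rw [hD', hw]
      ring
    have hatt := hH _ hcrit
    have hval : rat (Pt A B w0 t) B (c : OnePoint ℂ) = (w0 : OnePoint ℂ) := by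
      have := rat_coe_of_ne (P := Pt A B w0 t) hBc
      rw [this, hPtc, mul_div_assoc, div_self hBc, mul_one]
    rw [← hval]
    exact (att_map (rat_continuous hcopr) _).2 hatt

end Pool.Agent.H32.BT
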