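import Pool.Agent.H32.BT.Mob
import Pool.Agent.H32.BT.Top

set_option autoImplicit false

open Filter Topology Polynomial OnePoint Metric Set

namespace Pool.Agent.H32.BT

open Pool.Agent.H44.Fatou

/-
cj_mul: reflect_mul. robust_cj: the map (P, Q) -> (cj1 s d P Q, cj2 s d P Q) is linear and
bijective on pairs of natDegree <= d, with inverse P' Q' -> Q = (reflect d P').comp (X - C s),
P = (reflect d Q').comp (X - C s) + C s * Q, and both directions are continuous for the
coefficientwise distance (finitely many coefficients; each new coefficient is a fixed finite linear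
combination of the old ones). Coprime pairs of degree d correspond to coprime pairs of degree d
(exists_mob; for the converse direction apply it or argue directly with the inverse formulas) and
HypMap is invariant (hypMap_conj with the homeomorphism of exists_mob).
-/

theorem cj_mul (s : ℂ) {e k : ℕ} {A B H : Polynomial ℂ} (hA : A.natDegree ≤ e)
    (hB : B.natDegree ≤ e) (hH : H.natDegree ≤ k) :
    cj1 s (e + k) (A * H) (B * H) = cj1 s e A B * reflect k (H.comp (X + C s)) ∧
    cj2 s (e + k) (A * H) (B * H) = cj2 s e A B * reflect k (H.comp (X + C s)) := by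
  constructor
  · unfold cj1
    rw [mul_comp, reflect_mul _ _ (mob_deg1 s hB) (mob_deg1 s hH)]
  · unfold cj2
    have h : A * H - C s * (B * H) = (A - C s * B) * H := by ring
    rw [h, mul_comp, reflect_mul _ _ (mob_deg1 s (mob_deg2 s hA hB)) (mob_deg1 s hH)]

/-- coefficient bound for shifts -/
noncomputable def shM (c : ℂ) (d : ℕ) : ℝ :=
  (∑ i ∈ Finset.range (d + 1), ∑ j ∈ Finset.range (d + 1), ‖((X + C c) ^ i : Polynomial ℂ).coeff j‖)
    + 1

theorem shM_pos (c : ℂ) (d : ℕ) : 0 < shM c d := by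
  unfold shM
  have : 0 ≤ ∑ i ∈ Finset.range (d + 1), ∑ j ∈ Finset.range (d + 1),
      ‖((X + C c) ^ i : Polynomial ℂ).coeff j‖ :=
    Finset.sum_nonneg (fun i _ => Finset.sum_nonneg (fun j _ => norm_nonneg _))
  linarith

theorem sh_bound (c : ℂ) {d : ℕ} {R : Polynomial ℂ} (hR : R.natDegree ≤ d) {ρ : ℝ} (hρ : 0 ≤ ρ)
    (h : ∀ i, ‖R.coeff i‖ ≤ ρ) (j : ℕ) : ‖(R.comp (X + C c)).coeff j‖ ≤ shM c d * ρ := by
  have hM := shM_pos c d
  by_cases hj : j < d + 1
  · have hR' : R.natDegree < d + 1 := Nat.lt_succ_of_le hR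
    have h1 : R.comp (X + C c) = ∑ i ∈ Finset.range (d + 1), C (R.coeff i) * (X + C c) ^ i := by
      rw [comp, eval₂_eq_sum_range' C hR' (X + C c)]
    rw [h1, finsetSum_coeff]
    calc ‖∑ i ∈ Finset.range (d + 1), (C (R.coeff i) * (X + C c) ^ i).coeff j‖
        ≤ ∑ i ∈ Finset.range (d + 1), ‖(C (R.coeff i) * (X + C c) ^ i).coeff j‖ :=
          norm_sum_le _ _
      _ ≤ ∑ i ∈ Finset.range (d + 1), ρ * ‖((X + C c) ^ i : Polynomial ℂ).coeff j‖ := by
          apply Finset.sum_le_sum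
          intro i _
          rw [coeff_C_mul, norm_mul]
          exact mul_le_mul_of_nonneg_right (h i) (norm_nonneg _)
      _ ≤ ∑ i ∈ Finset.range (d + 1), ρ * ∑ j ∈ Finset.range (d + 1),
            ‖((X + C c) ^ i : Polynomial ℂ).coeff j‖ := by
          apply Finset.sum_le_sum
          intro i _
          apply mul_le_mul_of_nonneg_left _ hρ
          exact Finset.single_le_sum
            (f := fun j => ‖((X + C c) ^ i : Polynomial ℂ).coeff j‖)
            (fun j _ => norm_nonneg _) (Finset.mem_range.2 hj)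
      _ = (∑ i ∈ Finset.range (d + 1), ∑ j ∈ Finset.range (d + 1),
            ‖((X + C c) ^ i : Polynomial ℂ).coeff j‖) * ρ := by
          rw [← Finset.mul_sum, mul_comm]
      _ ≤ shM c d * ρ := by
          apply mul_le_mul_of_nonneg_right _ hρ
          unfold shM
          linarith
  · rw [coeff_eq_zero_of_natDegree_lt (lt_of_le_of_lt (mob_deg1 c hR) (by omega)), norm_zero]
    positivity

theorem reflect_bound {d : ℕ} {R : Polynomial ℂ} {ρ : ℝ} (h : ∀ i, ‖R.coeff i‖ ≤ ρ) (j : ℕ) :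
    ‖(reflect d R).coeff j‖ ≤ ρ := by
  rw [coeff_reflect]
  exact h _

/-- converse of the invariance of coprimality -/
theorem cj_back (s : ℂ) {d : ℕ} {P Q : Polynomial ℂ} (hP : P.natDegree ≤ d)
    (hQ : Q.natDegree ≤ d) (h : IsCoprime (cj1 s d P Q) (cj2 s d P Q))
    (hd : max (cj1 s d P Q).natDegree (cj2 s d P Q).natDegree = d) :
    IsCoprime P Q ∧ max P.natDegree Q.natDegree = d := by
  constructor
  · rw [Polynomial.isCoprime_iff_aeval_ne_zero_of_isAlgClosed ℂ ℂ]
    intro z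
    rw [coe_aeval_eq_eval]
    by_contra hcon
    push Not at hcon
    obtain ⟨h1, h2⟩ := hcon
    by_cases hz : z = s
    · subst hz
      have h3 : dg (cj1 z d P Q) (cj2 z d P Q) = d := hd
      have h4 := coeff_dg h
      rw [h3, mob_cj1_coeff, mob_cj2_coeff, h1, h2, mul_zero, sub_zero] at h4
      simp at h4
    · have e1 := mob_eval s hQ hz
      have e2 := mob_eval2 s hP hQ hz
      rw [h1, h2, mul_zero, sub_zero] at e2
      rw [h2] at e1
      have hne : (z - s) ^ d ≠ 0 := pow_ne_zero d (sub_ne_zero.2 hz)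
      have e1' := (mul_eq_zero.1 e1.symm).resolve_right hne
      have e2' := (mul_eq_zero.1 e2.symm).resolve_right hne
      rcases coprime_eval h (z - s)⁻¹ with h4 | h4
      · exact h4 e1'
      · exact h4 e2'
  · apply le_antisymm (max_le hP hQ)
    by_cases h1 : Q.coeff d = 0
    · refine le_max_of_le_left (le_natDegree_of_ne_zero ?_)
      intro h2
      have e1 : (cj1 s d P Q).eval 0 = 0 := by
        unfold cj1
        rw [eval_reflect_zero, mob_coeff_comp s hQ, h1]
      have e2 : (cj2 s d P Q).eval 0 = 0 := by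
        unfold cj2
        rw [eval_reflect_zero, mob_coeff_comp s (mob_deg2 s hP hQ), coeff_sub, coeff_C_mul, h1, h2,
          mul_zero, sub_zero]
      rcases coprime_eval h 0 with h4 | h4
      · exact h4 e1
      · exact h4 e2
    · exact le_max_of_le_right (le_natDegree_of_ne_zero h1)

/-- inverse, denominator -/
noncomputable def sj2 (s : ℂ) (d : ℕ) (P' : Polynomial ℂ) : Polynomial ℂ :=
  (reflect d P').comp (X + C (-s))

/-- inverse, numerator -/
noncomputable def sj1 (s : ℂ) (d : ℕ) (P' Q' : Polynomial ℂ) : Polynomial ℂ :=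
  (reflect d Q').comp (X + C (-s)) + C s * sj2 s d P'

theorem comp_shift_neg (s : ℂ) (R : Polynomial ℂ) :
    (R.comp (X + C (-s))).comp (X + C s) = R := by
  rw [comp_assoc]
  have : (X + C (-s) : Polynomial ℂ).comp (X + C s) = X := by
    rw [add_comp, X_comp, C_comp, C_neg]
    ring
  rw [this, comp_X]

theorem comp_shift_pos (s : ℂ) (R : Polynomial ℂ) :
    (R.comp (X + C s)).comp (X + C (-s)) = R := by
  rw [comp_assoc]
  have : (X + C s : Polynomial ℂ).comp (X + C (-s)) = X := by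
    rw [add_comp, X_comp, C_comp, C_neg]
    ring
  rw [this, comp_X]

theorem cj1_sj (s : ℂ) (d : ℕ) (P' Q' : Polynomial ℂ) :
    cj1 s d (sj1 s d P' Q') (sj2 s d P') = P' := by
  unfold cj1 sj2
  rw [comp_shift_neg, reflect_reflect]

theorem cj2_sj (s : ℂ) (d : ℕ) (P' Q' : Polynomial ℂ) :
    cj2 s d (sj1 s d P' Q') (sj2 s d P') = Q' := by
  unfold cj2 sj1
  rw [add_sub_cancel_right, comp_shift_neg, reflect_reflect]

theorem sj2_cj (s : ℂ) (d : ℕ) (P Q : Polynomial ℂ) : sj2 s d (cj1 s d P Q) = Q := by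
  unfold cj1 sj2
  rw [reflect_reflect, comp_shift_pos]

theorem sj1_cj (s : ℂ) (d : ℕ) (P Q : Polynomial ℂ) :
    sj1 s d (cj1 s d P Q) (cj2 s d P Q) = P := by
  unfold sj1
  rw [sj2_cj]
  unfold cj2
  rw [reflect_reflect, comp_shift_pos]
  ring

theorem sj2_deg (s : ℂ) {d : ℕ} {P' : Polynomial ℂ} (h : P'.natDegree ≤ d) :
    (sj2 s d P').natDegree ≤ d := mob_deg1 (-s) (natDegree_reflect_le' h)

theorem sj1_deg (s : ℂ) {d : ℕ} {P' Q' : Polynomial ℂ} (h : P'.natDegree ≤ d)
    (h' : Q'.natDegree ≤ d) : (sj1 s d P' Q').natDegree ≤ d := by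
  unfold sj1
  refine (natDegree_add_le _ _).trans (max_le (mob_deg1 (-s) (natDegree_reflect_le' h')) ?_)
  exact (natDegree_C_mul_le s _).trans (sj2_deg s h)

theorem near_cj (s : ℂ) {d : ℕ} {P Q P0 Q0 : Polynomial ℂ} (hP : P.natDegree ≤ d)
    (hQ : Q.natDegree ≤ d) (hP0 : P0.natDegree ≤ d) (hQ0 : Q0.natDegree ≤ d) {ρ ρ' : ℝ}
    (hρ' : 0 < ρ') (hlt : shM s d * ((1 + ‖s‖) * ρ') < ρ) (h : Near ρ' P Q P0 Q0) :
    Near ρ (cj1 s d P Q) (cj2 s d P Q) (cj1 s d P0 Q0) (cj2 s d P0 Q0) := by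
  have hM := shM_pos s d
  have hle : ρ' ≤ (1 + ‖s‖) * ρ' := by
    have := norm_nonneg s
    nlinarith
  intro i
  constructor
  · rw [← coeff_sub]
    unfold cj1
    rw [← reflect_sub, ← sub_comp]
    refine lt_of_le_of_lt (reflect_bound (fun j => sh_bound s
      ((natDegree_sub_le _ _).trans (max_le hQ hQ0)) (by positivity : 0 ≤ (1 + ‖s‖) * ρ')
      (fun k => ?_) j) i) hlt
    rw [coeff_sub]
    exact (h k).2.le.trans hle
  · rw [← coeff_sub]
    unfold cj2
    rw [← reflect_sub, ← sub_comp]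
    have e : P - C s * Q - (P0 - C s * Q0) = (P - P0) - C s * (Q - Q0) := by ring
    rw [e]
    refine lt_of_le_of_lt (reflect_bound (fun j => sh_bound s
      (mob_deg2 s ((natDegree_sub_le _ _).trans (max_le hP hP0))
        ((natDegree_sub_le _ _).trans (max_le hQ hQ0))) (by positivity : 0 ≤ (1 + ‖s‖) * ρ')
      (fun k => ?_) j) i) hlt
    rw [coeff_sub, coeff_C_mul, coeff_sub, coeff_sub]
    refine (norm_sub_le _ _).trans ?_
    rw [norm_mul, add_mul, one_mul]
    exact add_le_add (h k).1.le (mul_le_mul_of_nonneg_left (h k).2.le (norm_nonneg s))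

theorem near_sj (s : ℂ) {d : ℕ} {P' Q' P0 Q0 : Polynomial ℂ} (hP : P'.natDegree ≤ d)
    (hQ : Q'.natDegree ≤ d) (hP0 : P0.natDegree ≤ d) (hQ0 : Q0.natDegree ≤ d) {ρ ρ' : ℝ}
    (hρ' : 0 < ρ') (hlt : (1 + ‖s‖) * (shM (-s) d * ρ') < ρ) (h : Near ρ' P' Q' P0 Q0) :
    Near ρ (sj1 s d P' Q') (sj2 s d P') (sj1 s d P0 Q0) (sj2 s d P0) := by
  have hM := shM_pos (-s) d
  have hle : shM (-s) d * ρ' ≤ (1 + ‖s‖) * (shM (-s) d * ρ') := by
    have h1 := norm_nonneg s
    have h2 : 0 < shM (-s) d * ρ' := by positivity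
    nlinarith
  have key : ∀ A A0 : Polynomial ℂ, A.natDegree ≤ d → A0.natDegree ≤ d →
      (∀ k, ‖A.coeff k - A0.coeff k‖ < ρ') → ∀ i,
      ‖((reflect d A).comp (X + C (-s))).coeff i - ((reflect d A0).comp (X + C (-s))).coeff i‖ ≤
        shM (-s) d * ρ' := by
    intro A A0 hA hA0 hk i
    rw [← coeff_sub, ← sub_comp, ← reflect_sub]
    refine sh_bound (-s) (natDegree_reflect_le' ((natDegree_sub_le _ _).trans (max_le hA hA0)))
      hρ'.le (fun j => reflect_bound (fun k => ?_) j) i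
    rw [coeff_sub]
    exact (hk k).le
  intro i
  have h1 := key P' P0 hP hP0 (fun k => (h k).1) i
  have h2 := key Q' Q0 hQ hQ0 (fun k => (h k).2) i
  constructor
  · refine lt_of_le_of_lt ?_ hlt
    unfold sj1
    rw [coeff_add, coeff_add, coeff_C_mul, coeff_C_mul]
    have e : ∀ a b c e : ℂ, a + s * b - (c + s * e) = (a - c) + s * (b - e) := by
      intro a b c e; ring
    rw [e]
    refine (norm_add_le _ _).trans ?_
    rw [norm_mul, add_mul, one_mul]
    exact add_le_add h2 (mul_le_mul_of_nonneg_left h1 (norm_nonneg s))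
  · exact lt_of_le_of_lt (h1.trans hle) hlt

theorem exists_small {K ρ : ℝ} (hK : 0 < K) (hρ : 0 < ρ) : ∃ ρ' : ℝ, 0 < ρ' ∧ K * ρ' < ρ := by
  refine ⟨ρ / (2 * K), by positivity, ?_⟩
  have : K * (ρ / (2 * K)) = ρ / 2 := by field_simp
  rw [this]
  linarith

theorem robust_cj (s : ℂ) {d : ℕ} (hd : 1 ≤ d) {P0 Q0 : Polynomial ℂ} (hP : P0.natDegree ≤ d)
    (hQ : Q0.natDegree ≤ d) :
    Robust d (cj1 s d P0 Q0) (cj2 s d P0 Q0) ↔ Robust d P0 Q0 := by
  obtain ⟨φ, -, -, -, hφ⟩ := exists_mob s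
  constructor
  · rintro ⟨ρ, hρ, h⟩
    have hK : 0 < shM s d * (1 + ‖s‖) := by
      have := shM_pos s d
      positivity
    obtain ⟨ρ', hρ', hlt⟩ := exists_small hK hρ
    rw [mul_assoc] at hlt
    refine ⟨ρ', hρ', fun P Q hcop hdeg hnear => ?_⟩
    obtain ⟨h1, h2, h3⟩ := hφ d P Q hcop hdeg hd
    have hPd : P.natDegree ≤ d := by rw [← hdeg]; exact le_max_left _ _
    have hQd : Q.natDegree ≤ d := by rw [← hdeg]; exact le_max_right _ _
    exact (hypMap_conj φ h3).1 (h _ _ h1 h2 (near_cj s hPd hQd hP hQ hρ' hlt hnear))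
  · rintro ⟨ρ, hρ, h⟩
    have hK : 0 < (1 + ‖s‖) * shM (-s) d := by
      have := shM_pos (-s) d
      positivity
    obtain ⟨ρ', hρ', hlt⟩ := exists_small hK hρ
    rw [mul_assoc] at hlt
    refine ⟨ρ', hρ', fun P' Q' hcop hdeg hnear => ?_⟩
    have hPd : P'.natDegree ≤ d := by rw [← hdeg]; exact le_max_left _ _
    have hQd : Q'.natDegree ≤ d := by rw [← hdeg]; exact le_max_right _ _
    have hc1 : cj1 s d (sj1 s d P' Q') (sj2 s d P') = P' := cj1_sj s d P' Q'
    have hc2 : cj2 s d (sj1 s d P' Q') (sj2 s d P') = Q' := cj2_sj s d P' Q'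
    have hback := cj_back s (sj1_deg s hPd hQd) (sj2_deg s hPd)
      (by rw [hc1, hc2]; exact hcop) (by rw [hc1, hc2]; exact hdeg)
    obtain ⟨-, -, h3⟩ := hφ d (sj1 s d P' Q') (sj2 s d P') hback.1 hback.2 hd
    rw [hc1, hc2] at h3
    have hc1d : (cj1 s d P0 Q0).natDegree ≤ d := natDegree_reflect_le' (mob_deg1 s hQ)
    have hc2d : (cj2 s d P0 Q0).natDegree ≤ d :=
      natDegree_reflect_le' (mob_deg1 s (mob_deg2 s hP hQ))
    have hn := near_sj s hPd hQd hc1d hc2d hρ' hlt hnear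
    rw [sj1_cj, sj2_cj] at hn
    exact (hypMap_conj φ h3).2 (h _ _ hback.1 hback.2 hn)

end Pool.Agent.H32.BT
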