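import Pool.Agent.H32.BT.Defs
import Pool.Agent.H44.Fatou.Pow
import Pool.Agent.H91.Fatou.Dense1

set_option autoImplicit false

open Filter Topology Polynomial OnePoint Metric Set

namespace Pool.Agent.H32.BT

open Pool.Agent.H44.Fatou

/-
Useful in H44: Basic.lean (rat_coe, rat_coe_of_ne, rat_coe_eq, coprime_eval, coeff_dg, wr_inj,
crit_coe, crit_infty, eval_reflect), Coset.lean (wr_ne_zero), Pow.lean (charts ch, ch_open).
rat_open: analytic functions P/Q (where Q is not 0) and Q/P (where P is not 0), in the two charts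
at the source point, are not locally constant, so they map neighbourhoods to neighbourhoods
(AnalyticAt.eventually_constant_or_nhds_le_map_nhds).
crit_of_wr: general lemma: h analytic at c with deriv h c = 0 is not injective near c. (Suppose it
is injective on a neighbourhood; then h is a homeomorphism of a small ball onto an open set; its
inverse is continuous and differentiable off the discrete image of the zeros of h', hence
differentiable (removable singularity), so h' has no zero there. Or: h - h c = (z-c)^m g, m >= 2,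
take an m-th root and use the inverse function theorem.) Apply to P/Q or Q/P.
exists_crit: if Wr P Q has a root use crit_of_wr. Otherwise Wr P Q is a constant; the value at 0 of
Wr of the reflected polynomials is up to sign the coefficient of index 2 d - 2 >= 2 of Wr P Q
(wv_rev, rv_cf, wv_cf in Mob2/Mob3 may help), so it is 0 and infinity is critical.
crit_finite: crit_coe and wr_ne_zero.
-/

theorem ne_const {P Q : Polynomial ℂ} (h : IsCoprime P Q)
    (hd : 1 ≤ max P.natDegree Q.natDegree) (w : ℂ) : P - C w * Q ≠ 0 := by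
  intro h0
  have hP : P = C w * Q := by linear_combination h0
  have hu : IsUnit Q := by
    rw [hP] at h
    obtain ⟨a, b, hab⟩ := h
    exact IsUnit.of_mul_eq_one (a * C w + b) (by linear_combination hab)
  have h1 : Q.natDegree = 0 := natDegree_eq_zero_of_isUnit hu
  have h2 : P.natDegree = 0 := by
    have := natDegree_C_mul_le w Q
    rw [← hP] at this
    omega
  rw [h1, h2] at hd
  simp at hd

theorem den_ne_zero {P Q : Polynomial ℂ} (h : IsCoprime P Q)
    (hd : 1 ≤ max P.natDegree Q.natDegree) : Q ≠ 0 := by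
  intro h0
  have hu : IsUnit P := by
    rw [h0] at h
    exact isCoprime_zero_right.1 h
  have h1 : P.natDegree = 0 := natDegree_eq_zero_of_isUnit hu
  rw [h1, h0] at hd
  simp at hd

theorem rat_fiber_finite {P Q : Polynomial ℂ} (h : IsCoprime P Q)
    (hd : 1 ≤ max P.natDegree Q.natDegree) (y : OnePoint ℂ) : (rat P Q ⁻¹' {y}).Finite := by
  have key : ∃ R : Polynomial ℂ, R ≠ 0 ∧ ∀ z : ℂ, rat P Q z = y → R.IsRoot z := by
    induction y using OnePoint.rec with
    | infty =>
      refine ⟨Q, den_ne_zero h hd, fun z hz => ?_⟩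
      by_contra hq
      have hq' : Q.eval z ≠ 0 := hq
      rw [rat_coe] at hz
      unfold pt at hz
      rw [if_neg hq'] at hz
      exact coe_ne_infty _ hz
    | coe w =>
      refine ⟨P - C w * Q, ne_const h hd w, fun z hz => ?_⟩
      rw [rat_coe] at hz
      unfold pt at hz
      split_ifs at hz with hq
      · exact absurd hz (infty_ne_coe _)
      rw [coe_eq_coe, div_eq_iff hq] at hz
      show eval z (P - C w * Q) = 0
      rw [eval_sub, eval_mul, eval_C, hz, sub_self]
  obtain ⟨R, hR, hRz⟩ := key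
  have h1 : rat P Q ⁻¹' {y} ⊆ {∞} ∪ ((↑) : ℂ → OnePoint ℂ) '' {x | R.IsRoot x} := by
    intro w hw
    induction w using OnePoint.rec with
    | infty => left; rfl
    | coe x => right; exact ⟨x, hRz x hw, rfl⟩
  exact ((Set.finite_singleton _).union ((Polynomial.finite_setOfPred_isRoot hR).image _)).subset h1

theorem rat_open {P Q : Polynomial ℂ} (h : IsCoprime P Q) (hd : 1 ≤ max P.natDegree Q.natDegree) :
    IsOpenMap (rat P Q) := by
  rw [isOpenMap_iff_nhds_le]
  intro z
  obtain ⟨α, β, γ, δ, hD, ho, hz⟩ := H91.Fatou.exists_chart z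
  set R : Polynomial ℂ := H91.Fatou.lin α β γ δ (dg P Q) P with hR
  set S : Polynomial ℂ := H91.Fatou.lin α β γ δ (dg P Q) Q with hS
  have hrat : ∀ t : ℂ, rat P Q (H91.Fatou.ch α β γ δ t) = pt (R.eval t) (S.eval t) := by
    intro t
    unfold H91.Fatou.ch
    rw [H91.Fatou.rat_pt (H91.Fatou.ch_ne hD t), hR, hS, H91.Fatou.lin_eval, H91.Fatou.lin_eval]
  have hne : ∀ t : ℂ, R.eval t ≠ 0 ∨ S.eval t ≠ 0 := by
    intro t
    rw [hR, hS, H91.Fatou.lin_eval, H91.Fatou.lin_eval]
    exact H91.Fatou.hom_ne h (H91.Fatou.ch_ne hD t)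
  have han : ∀ T : Polynomial ℂ, AnalyticAt ℂ (fun z => T.eval z) 0 := by
    intro T
    have := AnalyticOnNhd.eval_polynomial (𝕜 := ℂ) (A := ℂ) T
    exact this 0 (Set.mem_univ _)
  have hnoconst : ¬ ∀ᶠ t in 𝓝 (0 : ℂ), rat P Q (H91.Fatou.ch α β γ δ t) =
      rat P Q (H91.Fatou.ch α β γ δ 0) := by
    intro hev
    have h1 := infinite_of_mem_nhds (0 : ℂ) hev
    have h2 := h1.image (ho.injective.injOn)
    apply h2
    apply (rat_fiber_finite h hd (rat P Q (H91.Fatou.ch α β γ δ 0))).subset
    rintro _ ⟨t, ht, rfl⟩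
    exact ht
  have hmap0 : 𝓝 z = map (H91.Fatou.ch α β γ δ) (𝓝 0) := by
    rw [ho.map_nhds_eq, hz]
  have main : ∀ (i : Bool) (F : ℂ → ℂ), AnalyticAt ℂ F 0 →
      (∀ᶠ t in 𝓝 (0 : ℂ), rat P Q (H91.Fatou.ch α β γ δ t) = ch i (F t)) →
      𝓝 (rat P Q z) ≤ map (rat P Q) (𝓝 z) := by
    intro i F hF hev
    have h0 : rat P Q z = ch i (F 0) := by rw [← hz]; exact hev.self_of_nhds
    rcases hF.eventually_constant_or_nhds_le_map_nhds with hc | hc
    · exfalso
      apply hnoconst
      filter_upwards [hc, hev] with t ht1 ht2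
      rw [ht2, ht1, hz, h0]
    · rw [hmap0, Filter.map_map, h0]
      have h1 : map (rat P Q ∘ H91.Fatou.ch α β γ δ) (𝓝 0) = map (ch i) (map F (𝓝 0)) := by
        rw [Filter.map_map]
        exact Filter.map_congr hev
      rw [h1]
      have h2 : 𝓝 (ch i (F 0)) ≤ map (ch i) (𝓝 (F 0)) := by
        intro U hU
        rw [mem_map] at hU
        have := ch_open i (F 0) _ hU
        exact mem_of_superset this (Set.image_preimage_subset _ _)
      exact h2.trans (Filter.map_mono hc)
  rcases hne 0 with h1 | h1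
  · refine main true (fun t => S.eval t / R.eval t) ((han S).div (han R) h1) ?_
    filter_upwards [(R.continuous.tendsto 0).eventually_ne h1] with t ht
    rw [hrat]
    have := pt_pow_true (x := R.eval t) (y := S.eval t) ht 1
    rw [pow_one, pow_one, pow_one] at this
    exact this
  · refine main false (fun t => R.eval t / S.eval t) ((han R).div (han S) h1) ?_
    filter_upwards [(S.continuous.tendsto 0).eventually_ne h1] with t ht
    rw [hrat]
    have := pt_pow_false (x := R.eval t) (y := S.eval t) ht 1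
    rw [pow_one, pow_one, pow_one] at this
    exact this

theorem crit_of_wr {P Q : Polynomial ℂ} (h : IsCoprime P Q)
    (hd : 1 ≤ max P.natDegree Q.natDegree) {c : ℂ} (hc : (Wr P Q).eval c = 0) :
    IsCrit (rat P Q) c := by
  rintro ⟨U, hU, hinj⟩
  have hV : ((↑) : ℂ → OnePoint ℂ) ⁻¹' U ∈ 𝓝 c := continuous_coe.continuousAt hU
  refine H91.Fatou.not_inj_of_wr hc (coprime_eval h c) hV ?_
  intro x hx y hy hxy
  have h1 : rat P Q x = rat P Q y := by
    rw [rat_coe, rat_coe]
    exact H91.Fatou.pt_eq_pt (coprime_eval h x) (coprime_eval h y) hxy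
  have h2 := hinj hx hy h1
  exact coe_eq_coe.1 h2

theorem rat_chinf {P Q : Polynomial ℂ} (u : ℂ) :
    rat P Q (pt 1 u) = pt ((reflect (dg P Q) P).eval u) ((reflect (dg P Q) Q).eval u) := by
  by_cases hu : u = 0
  · subst hu
    have h0 : pt 1 0 = ∞ := by unfold pt; rw [if_pos rfl]
    rw [h0, rat_infty, eval_reflect_zero, eval_reflect_zero]
  · have h0 : pt 1 u = ((u⁻¹ : ℂ) : OnePoint ℂ) := by unfold pt; rw [if_neg hu, one_div]
    rw [h0, rat_coe_eq (inv_ne_zero hu), inv_inv]

theorem reflect_ne {P Q : Polynomial ℂ} (h : IsCoprime P Q) (u : ℂ) :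
    (reflect (dg P Q) P).eval u ≠ 0 ∨ (reflect (dg P Q) Q).eval u ≠ 0 := by
  by_cases hu : u = 0
  · subst hu
    rw [eval_reflect_zero, eval_reflect_zero]
    exact coeff_dg h
  · have hui := inv_ne_zero hu
    have h1 := eval_reflect (P := P) (N := dg P Q) (le_max_left _ _) hui
    have h2 := eval_reflect (P := Q) (N := dg P Q) (le_max_right _ _) hui
    rw [inv_inv] at h1 h2
    rcases coprime_eval h u⁻¹ with h3 | h3
    · left; intro h4; rw [h4, zero_mul] at h1; exact h3 h1
    · right; intro h4; rw [h4, zero_mul] at h2; exact h3 h2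

theorem crit_infty_of_wr {P Q : Polynomial ℂ} (h : IsCoprime P Q)
    (hd : 1 ≤ max P.natDegree Q.natDegree)
    (hc : (Wr (reflect (dg P Q) P) (reflect (dg P Q) Q)).eval 0 = 0) :
    IsCrit (rat P Q) ∞ := by
  rintro ⟨U, hU, hinj⟩
  have h0 : ch true 0 = ∞ := by rw [ch_true]; unfold pt; rw [if_pos rfl]
  have hV : ch true ⁻¹' U ∈ 𝓝 (0 : ℂ) := by
    apply (ch_cont true).continuousAt
    rw [h0]; exact hU
  refine H91.Fatou.not_inj_of_wr hc (reflect_ne h 0) hV ?_
  intro x hx y hy hxy
  have h1 : rat P Q (ch true x) = rat P Q (ch true y) := by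
    rw [ch_true, ch_true, rat_chinf, rat_chinf]
    exact H91.Fatou.pt_eq_pt (reflect_ne h x) (reflect_ne h y) hxy
  have h2 := hinj hx hy h1
  rw [ch_true, ch_true] at h2
  have h3 := pt_eq h2
  linear_combination -h3

theorem exists_crit {P Q : Polynomial ℂ} (h : IsCoprime P Q)
    (hd : 2 ≤ max P.natDegree Q.natDegree) : ∃ c, IsCrit (rat P Q) c :=
  H91.Fatou.exists_crit h hd

theorem crit_finite {P Q : Polynomial ℂ} (h : IsCoprime P Q)
    (hd : 1 ≤ max P.natDegree Q.natDegree) : {c | IsCrit (rat P Q) c}.Finite :=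
  H91.Fatou.finite_crit h hd

end Pool.Agent.H32.BT
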