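import Pool.Agent.H32.BT.Defs

set_option autoImplicit false

open Filter Topology Polynomial OnePoint Metric Set

namespace Pool.Agent.H32.BT

open Pool.Agent.H44.Fatou

/-
The homeomorphism is rat 1 (X - C s) with inverse rat (C s * X + 1) X (rat_continuous gives
continuity of both). The conjugation identity is checked at x = infinity, x = s and other x; with
zeta = 1/(z-s) one has zeta^d * Q(s + 1/zeta) = (cj1).eval zeta and
zeta^d * (P - s Q)(s + 1/zeta) = (cj2).eval zeta (eval_reflect, reflect), and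
rat P Q z = [P(z) : Q(z)] is mapped to [Q(z) : P(z) - s Q(z)]. Coprimality: no common root at zeta
not 0 by coprimality of P, Q (coprime_eval); at zeta = 0 the values are the coefficients of index d,
not both 0 (coeff_dg; comp with X + C s does not change the coefficient of index d).
Degree: not both values at z = s vanish, these are the coefficients of index d of cj1, cj2.
-/

theorem mob_coeff_comp (s : ℂ) {d : ℕ} {Q : Polynomial ℂ} (h : Q.natDegree ≤ d) :
    (Q.comp (X + C s)).coeff d = Q.coeff d := by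
  rcases h.lt_or_eq with h1 | h1
  · rw [coeff_eq_zero_of_natDegree_lt h1, coeff_eq_zero_of_natDegree_lt]
    rw [natDegree_comp, natDegree_X_add_C, mul_one]
    exact h1
  · have h2 : (Q.comp (X + C s)).natDegree = d := by
      rw [natDegree_comp, natDegree_X_add_C, mul_one, h1]
    have h3 : (Q.comp (X + C s)).coeff (Q.comp (X + C s)).natDegree = Q.coeff Q.natDegree := by
      have h4 : (Q.comp (X + C s)).leadingCoeff = Q.leadingCoeff := by
        rw [leadingCoeff_comp (by rw [natDegree_X_add_C]; exact one_ne_zero),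
          leadingCoeff_X_add_C, one_pow, mul_one]
      exact h4
    rw [h2, h1] at h3
    exact h3

theorem mob_deg1 (s : ℂ) {d : ℕ} {Q : Polynomial ℂ} (h : Q.natDegree ≤ d) :
    (Q.comp (X + C s)).natDegree ≤ d := by
  rw [natDegree_comp, natDegree_X_add_C, mul_one]
  exact h

theorem mob_deg2 (s : ℂ) {d : ℕ} {P Q : Polynomial ℂ} (hP : P.natDegree ≤ d)
    (hQ : Q.natDegree ≤ d) : (P - C s * Q).natDegree ≤ d := by
  refine (natDegree_sub_le _ _).trans ?_
  exact max_le hP ((natDegree_C_mul_le s Q).trans hQ)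

theorem mob_natDegree_reflect_le {d : ℕ} {P : Polynomial ℂ} (h : P.natDegree ≤ d) :
    (reflect d P).natDegree ≤ d := natDegree_reflect_le' h

/-- value of a reflected shift -/
theorem mob_eval (s : ℂ) {d : ℕ} {Q : Polynomial ℂ} (h : Q.natDegree ≤ d) {z : ℂ} (hz : z ≠ s) :
    Q.eval z = (reflect d (Q.comp (X + C s))).eval (z - s)⁻¹ * (z - s) ^ d := by
  rw [← eval_reflect (mob_deg1 s h) (sub_ne_zero.2 hz)]
  simp

theorem mob_coeff_top (s : ℂ) (d : ℕ) (Q : Polynomial ℂ) :
    (reflect d (Q.comp (X + C s))).coeff d = Q.eval s := by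
  rw [coeff_reflect, revAt_le le_rfl, Nat.sub_self, coeff_zero_eq_eval_zero]
  simp

theorem mob_pt (s : ℂ) {a b : ℂ} (h : a ≠ 0 ∨ b ≠ 0) :
    rat 1 (X - C s) (pt a b) = pt b (a - s * b) := by
  by_cases hb : b = 0
  · have ha : a ≠ 0 := by
      rcases h with h | h
      · exact h
      · exact absurd hb h
    have h1 : pt a b = ∞ := by unfold pt; rw [if_pos hb]
    rw [h1, rat_infty]
    have hd : dg (1 : Polynomial ℂ) (X - C s) = 1 := by
      unfold dg
      rw [natDegree_one, natDegree_X_sub_C]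
      rfl
    rw [hd, coeff_one, if_neg (by norm_num), coeff_sub, coeff_X_one, coeff_C,
      if_neg (by norm_num), sub_zero, hb, mul_zero, sub_zero]
    unfold pt
    rw [if_neg one_ne_zero, if_neg ha, zero_div, zero_div]
  · have h1 : pt a b = ((a / b : ℂ) : OnePoint ℂ) := by unfold pt; rw [if_neg hb]
    rw [h1, rat_coe, eval_one, eval_sub, eval_X, eval_C, ← pt_smul hb, one_mul, sub_mul,
      div_mul_cancel₀ _ hb]

theorem mob_phi_infty (s : ℂ) : rat 1 (X - C s) ∞ = ((0 : ℂ) : OnePoint ℂ) := by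
  have h1 : (∞ : OnePoint ℂ) = pt 1 0 := by unfold pt; rw [if_pos rfl]
  rw [h1, mob_pt s (Or.inl one_ne_zero)]
  unfold pt
  rw [mul_zero, sub_zero, if_neg one_ne_zero, zero_div]

theorem mob_phi_coe (s z : ℂ) (hz : z ≠ s) :
    rat 1 (X - C s) (z : OnePoint ℂ) = (((z - s)⁻¹ : ℂ) : OnePoint ℂ) := by
  rw [rat_coe, eval_one, eval_sub, eval_X, eval_C]
  unfold pt
  rw [if_neg (sub_ne_zero.2 hz), one_div]

theorem mob_phi_s (s : ℂ) : rat 1 (X - C s) (s : OnePoint ℂ) = ∞ := by
  rw [rat_coe, eval_one, eval_sub, eval_X, eval_C, sub_self]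
  unfold pt
  rw [if_pos rfl]

theorem mob_psi_infty (s : ℂ) : rat (C s * X + 1) X ∞ = (s : OnePoint ℂ) := by
  have hd : dg (C s * X + 1 : Polynomial ℂ) X = 1 := by
    unfold dg
    rw [natDegree_X]
    apply max_eq_right
    rw [← C_1]
    exact natDegree_linear_le
  rw [rat_infty, hd, coeff_X_one, coeff_add, coeff_C_mul, coeff_X_one, coeff_one,
    if_neg (by norm_num), mul_one, add_zero]
  unfold pt
  rw [if_neg one_ne_zero, div_one]

theorem mob_psi_coe (s w : ℂ) (hw : w ≠ 0) :
    rat (C s * X + 1) X (w : OnePoint ℂ) = ((s + w⁻¹ : ℂ) : OnePoint ℂ) := by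
  rw [rat_coe, eval_add, eval_mul, eval_C, eval_X, eval_one]
  unfold pt
  rw [if_neg hw]
  congr 1
  field_simp

theorem mob_psi_zero (s : ℂ) : rat (C s * X + 1) X ((0 : ℂ) : OnePoint ℂ) = ∞ := by
  rw [rat_coe, eval_X]
  unfold pt
  rw [if_pos rfl]

noncomputable def mobHomeo (s : ℂ) : OnePoint ℂ ≃ₜ OnePoint ℂ where
  toFun := rat 1 (X - C s)
  invFun := rat (C s * X + 1) X
  left_inv := by
    intro x
    induction x using OnePoint.rec with
    | infty => rw [mob_phi_infty, mob_psi_zero]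
    | coe z =>
      by_cases hz : z = s
      · rw [hz, mob_phi_s, mob_psi_infty]
      · rw [mob_phi_coe s z hz, mob_psi_coe s _ (inv_ne_zero (sub_ne_zero.2 hz)), inv_inv,
          add_sub_cancel]
  right_inv := by
    intro x
    induction x using OnePoint.rec with
    | infty => rw [mob_psi_infty, mob_phi_s]
    | coe w =>
      by_cases hw : w = 0
      · rw [hw, mob_psi_zero, mob_phi_infty]
      · rw [mob_psi_coe s w hw, mob_phi_coe s _ (by simpa using hw), add_sub_cancel_left, inv_inv]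
  continuous_toFun := rat_continuous isCoprime_one_left
  continuous_invFun := by
    apply rat_continuous
    exact ⟨1, -C s, by ring⟩

theorem mobHomeo_apply (s : ℂ) (x : OnePoint ℂ) : mobHomeo s x = rat 1 (X - C s) x := rfl

theorem mob_eval2 (s : ℂ) {d : ℕ} {P Q : Polynomial ℂ} (hP : P.natDegree ≤ d)
    (hQ : Q.natDegree ≤ d) {z : ℂ} (hz : z ≠ s) :
    P.eval z - s * Q.eval z = (cj2 s d P Q).eval (z - s)⁻¹ * (z - s) ^ d := by
  have h := mob_eval s (mob_deg2 s hP hQ) hz
  rw [eval_sub, eval_mul, eval_C] at h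
  exact h

theorem mob_coprime (s : ℂ) {d : ℕ} {P Q : Polynomial ℂ} (h : IsCoprime P Q)
    (hd : max P.natDegree Q.natDegree = d) : IsCoprime (cj1 s d P Q) (cj2 s d P Q) := by
  have hP : P.natDegree ≤ d := by rw [← hd]; exact le_max_left _ _
  have hQ : Q.natDegree ≤ d := by rw [← hd]; exact le_max_right _ _
  rw [Polynomial.isCoprime_iff_aeval_ne_zero_of_isAlgClosed ℂ ℂ]
  intro w
  rw [coe_aeval_eq_eval]
  by_contra hcon
  push Not at hcon
  obtain ⟨h1, h2⟩ := hcon
  by_cases hw : w = 0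
  · subst hw
    unfold cj1 at h1
    unfold cj2 at h2
    rw [eval_reflect_zero, mob_coeff_comp s hQ] at h1
    rw [eval_reflect_zero, mob_coeff_comp s (mob_deg2 s hP hQ), coeff_sub, coeff_C_mul, h1,
      mul_zero, sub_zero] at h2
    have h3 : dg P Q = d := hd
    rcases coeff_dg h with h4 | h4
    · rw [h3] at h4; exact h4 h2
    · rw [h3] at h4; exact h4 h1
  · have hne : s + w⁻¹ ≠ s := by
      intro h3
      apply hw
      simpa using h3
    have e1 := mob_eval s hQ hne
    have e2 := mob_eval2 s hP hQ hne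
    rw [add_sub_cancel_left, inv_inv] at e1 e2
    have e1' : (reflect d (Q.comp (X + C s))).eval w = 0 := h1
    rw [e1', zero_mul] at e1
    rw [h2, zero_mul, e1, mul_zero, sub_zero] at e2
    rcases coprime_eval h (s + w⁻¹) with h4 | h4
    · exact h4 e2
    · exact h4 e1

theorem mob_cj1_coeff (s : ℂ) (d : ℕ) (P Q : Polynomial ℂ) : (cj1 s d P Q).coeff d = Q.eval s :=
  mob_coeff_top s d Q

theorem mob_cj2_coeff (s : ℂ) (d : ℕ) (P Q : Polynomial ℂ) :
    (cj2 s d P Q).coeff d = P.eval s - s * Q.eval s := by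
  have h := mob_coeff_top s d (P - C s * Q)
  rw [eval_sub, eval_mul, eval_C] at h
  exact h

theorem mob_degree (s : ℂ) {d : ℕ} {P Q : Polynomial ℂ} (h : IsCoprime P Q)
    (hd : max P.natDegree Q.natDegree = d) :
    max (cj1 s d P Q).natDegree (cj2 s d P Q).natDegree = d := by
  have hP : P.natDegree ≤ d := by rw [← hd]; exact le_max_left _ _
  have hQ : Q.natDegree ≤ d := by rw [← hd]; exact le_max_right _ _
  apply le_antisymm
  · exact max_le (natDegree_reflect_le' (mob_deg1 s hQ))
      (natDegree_reflect_le' (mob_deg1 s (mob_deg2 s hP hQ)))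
  · by_cases h1 : Q.eval s = 0
    · refine le_max_of_le_right (le_natDegree_of_ne_zero ?_)
      rw [mob_cj2_coeff, h1, mul_zero, sub_zero]
      rcases coprime_eval h s with h2 | h2
      · exact h2
      · exact absurd h1 h2
    · refine le_max_of_le_left (le_natDegree_of_ne_zero ?_)
      rw [mob_cj1_coeff]
      exact h1

theorem exists_mob (s : ℂ) : ∃ φ : OnePoint ℂ ≃ₜ OnePoint ℂ,
    (∀ z : ℂ, z ≠ s → φ (z : OnePoint ℂ) = (((z - s)⁻¹ : ℂ) : OnePoint ℂ)) ∧
    φ (s : OnePoint ℂ) = ∞ ∧ φ ∞ = ((0 : ℂ) : OnePoint ℂ) ∧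
    ∀ (d : ℕ) (P Q : Polynomial ℂ), IsCoprime P Q → max P.natDegree Q.natDegree = d → 1 ≤ d →
      IsCoprime (cj1 s d P Q) (cj2 s d P Q) ∧
      max (cj1 s d P Q).natDegree (cj2 s d P Q).natDegree = d ∧
      ∀ x, rat (cj1 s d P Q) (cj2 s d P Q) (φ x) = φ (rat P Q x) := by
  refine ⟨mobHomeo s, ?_, ?_, ?_, ?_⟩
  · intro z hz
    rw [mobHomeo_apply, mob_phi_coe s z hz]
  · rw [mobHomeo_apply, mob_phi_s]
  · rw [mobHomeo_apply, mob_phi_infty]
  · intro d P Q h hd _
    have hP : P.natDegree ≤ d := by rw [← hd]; exact le_max_left _ _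
    have hQ : Q.natDegree ≤ d := by rw [← hd]; exact le_max_right _ _
    refine ⟨mob_coprime s h hd, mob_degree s h hd, ?_⟩
    have hdg : dg P Q = d := hd
    have hdg2 : dg (cj1 s d P Q) (cj2 s d P Q) = d := mob_degree s h hd
    intro x
    rw [mobHomeo_apply, mobHomeo_apply]
    induction x using OnePoint.rec with
    | infty =>
      rw [mob_phi_infty, rat_coe, rat_infty, mob_pt s (coeff_dg h), hdg]
      unfold cj1 cj2
      rw [eval_reflect_zero, eval_reflect_zero, mob_coeff_comp s hQ,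
        mob_coeff_comp s (mob_deg2 s hP hQ), coeff_sub, coeff_C_mul]
    | coe z =>
      rw [rat_coe P Q z, mob_pt s (coprime_eval h z)]
      by_cases hz : z = s
      · rw [hz, mob_phi_s, rat_infty, hdg2, mob_cj1_coeff, mob_cj2_coeff]
      · rw [mob_phi_coe s z hz, rat_coe, mob_eval2 s hP hQ hz, mob_eval s hQ hz,
          pt_smul (pow_ne_zero d (sub_ne_zero.2 hz))]
        rfl

end Pool.Agent.H32.BT
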