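import Pool.Agent.H32.BT.AttFam
import Pool.Agent.H32.BT.Crit
import Pool.Agent.H32.BT.Mob
import Pool.Agent.H32.BT.Cj
import Pool.Agent.H44.Fatou.Gen3

set_option autoImplicit false

open Filter Topology Polynomial OnePoint Metric Set

namespace Pool.Agent.H32.BT

open Pool.Agent.H44.Fatou

theorem Robust.near {d : ℕ} {P0 Q0 : Polynomial ℂ} (h : Robust d P0 Q0) :
    ∃ ρ : ℝ, 0 < ρ ∧ ∀ P Q : Polynomial ℂ, Near ρ P Q P0 Q0 → Robust d P Q := by
  obtain ⟨ρ, hρ, h⟩ := h
  refine ⟨ρ / 2, by positivity, fun P Q hPQ => ⟨ρ / 2, by positivity, fun P' Q' hc hd hn => ?_⟩⟩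
  refine h P' Q' hc hd (fun i => ?_)
  have h1 := hPQ i
  have h2 := hn i
  constructor
  · calc ‖P'.coeff i - P0.coeff i‖ = ‖(P'.coeff i - P.coeff i) + (P.coeff i - P0.coeff i)‖ := by
          ring_nf
      _ ≤ ‖P'.coeff i - P.coeff i‖ + ‖P.coeff i - P0.coeff i‖ := norm_add_le _ _
      _ < ρ := by linarith [h1.1, h2.1]
  · calc ‖Q'.coeff i - Q0.coeff i‖ = ‖(Q'.coeff i - Q.coeff i) + (Q.coeff i - Q0.coeff i)‖ := by
          ring_nf
      _ ≤ ‖Q'.coeff i - Q.coeff i‖ + ‖Q.coeff i - Q0.coeff i‖ := norm_add_le _ _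
      _ < ρ := by linarith [h1.2, h2.2]

/-- multiplication by a fixed polynomial is continuous for the coefficientwise distance -/
theorem mul_near (H : Polynomial ℂ) {ε : ℝ} (hε : 0 < ε) :
    ∃ ρ : ℝ, 0 < ρ ∧ ∀ P P0 : Polynomial ℂ, (∀ i, ‖P.coeff i - P0.coeff i‖ < ρ) →
      ∀ i, ‖(P * H).coeff i - (P0 * H).coeff i‖ < ε := by
  set S : ℝ := ∑ j ∈ H.support, ‖H.coeff j‖ with hS
  have hS0 : 0 ≤ S := Finset.sum_nonneg (fun _ _ => norm_nonneg _)
  refine ⟨ε / (S + 1), by positivity, fun P P0 h i => ?_⟩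
  have e1 : (P * H).coeff i - (P0 * H).coeff i =
      ∑ x ∈ Finset.HasAntidiagonal.antidiagonal i, (P.coeff x.1 - P0.coeff x.1) * H.coeff x.2 := by
    rw [coeff_mul, coeff_mul, ← Finset.sum_sub_distrib]
    exact Finset.sum_congr rfl (fun x _ => by ring)
  rw [e1]
  have e2 : ∑ x ∈ Finset.HasAntidiagonal.antidiagonal i, ‖H.coeff x.2‖ ≤ S := by
    have h1 : ∑ x ∈ Finset.HasAntidiagonal.antidiagonal i, ‖H.coeff x.2‖ = ∑ j ∈ Finset.range (i + 1), ‖H.coeff j‖ := by
      rw [← Finset.Nat.sum_antidiagonal_swap, Finset.Nat.sum_antidiagonal_eq_sum_range_succ_mk]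
      simp
    rw [h1, hS]
    have h2 : ∑ j ∈ Finset.range (i + 1), ‖H.coeff j‖ =
        ∑ j ∈ (Finset.range (i + 1)).filter (fun j => j ∈ H.support), ‖H.coeff j‖ := by
      rw [Finset.sum_filter]
      apply Finset.sum_congr rfl
      intro j _
      by_cases hj : j ∈ H.support
      · rw [if_pos hj]
      · rw [if_neg hj, notMem_support_iff.1 hj, norm_zero]
    rw [h2]
    apply Finset.sum_le_sum_of_subset_of_nonneg
    · intro j hj
      exact (Finset.mem_filter.1 hj).2
    · intro _ _ _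
      exact norm_nonneg _
  calc ‖∑ x ∈ Finset.HasAntidiagonal.antidiagonal i, (P.coeff x.1 - P0.coeff x.1) * H.coeff x.2‖
      ≤ ∑ x ∈ Finset.HasAntidiagonal.antidiagonal i, ‖(P.coeff x.1 - P0.coeff x.1) * H.coeff x.2‖ :=
        norm_sum_le _ _
    _ ≤ ∑ x ∈ Finset.HasAntidiagonal.antidiagonal i, ε / (S + 1) * ‖H.coeff x.2‖ := by
        apply Finset.sum_le_sum
        intro x _
        rw [norm_mul]
        exact mul_le_mul_of_nonneg_right (h x.1).le (norm_nonneg _)
    _ = ε / (S + 1) * ∑ x ∈ Finset.HasAntidiagonal.antidiagonal i, ‖H.coeff x.2‖ := by rw [Finset.mul_sum]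
    _ ≤ ε / (S + 1) * S := mul_le_mul_of_nonneg_left e2 (by positivity)
    _ < ε := by
        rw [div_mul_eq_mul_div, div_lt_iff₀ (by positivity)]
        nlinarith

theorem mul_near2 (H : Polynomial ℂ) {ε : ℝ} (hε : 0 < ε) :
    ∃ ρ : ℝ, 0 < ρ ∧ ∀ P Q P0 Q0 : Polynomial ℂ, Near ρ P Q P0 Q0 →
      Near ε (P * H) (Q * H) (P0 * H) (Q0 * H) := by
  obtain ⟨ρ, hρ, h⟩ := mul_near H hε
  exact ⟨ρ, hρ, fun P Q P0 Q0 hn i =>
    ⟨h P P0 (fun j => (hn j).1) i, h Q Q0 (fun j => (hn j).2) i⟩⟩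

/-- the finite part of an at most countable subset of the sphere -/
theorem countable_coe {S : Set (OnePoint ℂ)} (h : S.Countable) :
    {b : ℂ | (b : OnePoint ℂ) ∈ S}.Countable :=
  h.preimage OnePoint.coe_injective

theorem fixed_finite {A B : Polynomial ℂ} (hcop : IsCoprime A B)
    (hd : 2 ≤ max A.natDegree B.natDegree) :
    {b : ℂ | rat A B (b : OnePoint ℂ) = (b : OnePoint ℂ)}.Finite := by
  have hne : A - X * B ≠ 0 := by
    intro h
    have hAB : A = X * B := sub_eq_zero.1 h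
    have hu : IsUnit B := hcop.symm.isUnit_of_dvd' (dvd_refl _) (hAB ▸ dvd_mul_left B X)
    have hB : B.natDegree = 0 := natDegree_eq_zero_of_isUnit hu
    have hA : A.natDegree ≤ 1 := by
      rw [hAB]
      refine natDegree_mul_le.trans ?_
      rw [hB]
      simp
    rw [hB] at hd
    have := hd.trans (max_le hA (Nat.zero_le _))
    omega
  refine ((A - X * B).roots.toFinset.finite_toSet).subset ?_
  intro b hb
  have hb' : rat A B (b : OnePoint ℂ) = (b : OnePoint ℂ) := hb
  simp only [Finset.mem_coe, Multiset.mem_toFinset]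
  rw [mem_roots hne, IsRoot.def]
  rw [rat_coe] at hb'
  unfold pt at hb'
  split_ifs at hb' with h0
  · exact absurd hb' (infty_ne_coe _)
  · rw [coe_eq_coe, div_eq_iff h0] at hb'
    rw [eval_sub, eval_mul, eval_X, hb', sub_self]

/-- one hole -/
theorem hyp_of_robust_one {A B : Polynomial ℂ} {e : ℕ} (hcop : IsCoprime A B)
    (he : max A.natDegree B.natDegree = e) (he2 : 2 ≤ e) (b : ℂ)
    (hrob : Robust (e + 1) (A * (X - C b)) (B * (X - C b))) : HypMap (rat A B) := by
  have hd1 : 1 ≤ max A.natDegree B.natDegree := by omega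
  have hd2 : 2 ≤ max A.natDegree B.natDegree := by omega
  set f := rat A B with hf
  -- the bad set
  have hcf : {c | IsCrit f c}.Finite := crit_finite hcop hd1
  set S1 : Set (OnePoint ℂ) := ⋃ n : ℕ, (fun c => f^[n] c) '' {c | IsCrit f c} with hS1
  have hS1c : S1.Countable := countable_iUnion (fun n => (hcf.image _).countable)
  set S2 : Set (OnePoint ℂ) := ⋃ c ∈ {c | IsCrit f c}, f ⁻¹' {f c} with hS2
  have hS2c : S2.Countable := hcf.countable.biUnion (fun c _ => (rat_fiber_finite hcop hd1 _).countable)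
  have hbad : ({b : ℂ | (b : OnePoint ℂ) ∈ S1} ∪ {b : ℂ | (b : OnePoint ℂ) ∈ S2} ∪
      {b : ℂ | rat A B (b : OnePoint ℂ) = (b : OnePoint ℂ)}).Countable :=
    ((countable_coe hS1c).union (countable_coe hS2c)).union (fixed_finite hcop hd2).countable
  have hdense : Dense ({b : ℂ | (b : OnePoint ℂ) ∈ S1} ∪ {b : ℂ | (b : OnePoint ℂ) ∈ S2} ∪
      {b : ℂ | rat A B (b : OnePoint ℂ) = (b : OnePoint ℂ)})ᶜ := hbad.dense_compl ℂ
  -- robustness is open
  obtain ⟨ρ, hρ, hnear⟩ := hrob.near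
  have hlin : ContC (fun t : ℂ => X - C t) := (ContC.const X).sub (ContC.C continuous_id)
  have hcA : ContC (fun t : ℂ => A * (X - C t)) := (ContC.const A).mul hlin
  have hcB : ContC (fun t : ℂ => B * (X - C t)) := (ContC.const B).mul hlin
  have hdA : ∀ t : ℂ, (A * (X - C t)).natDegree ≤ e + 1 := by
    intro t
    refine natDegree_mul_le.trans ?_
    rw [natDegree_X_sub_C]
    have := le_max_left A.natDegree B.natDegree
    omega
  have hdB : ∀ t : ℂ, (B * (X - C t)).natDegree ≤ e + 1 := by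
    intro t
    refine natDegree_mul_le.trans ?_
    rw [natDegree_X_sub_C]
    have := le_max_right A.natDegree B.natDegree
    omega
  have hev := (hcA.near hdA b hρ).and (hcB.near hdB b hρ)
  obtain ⟨b', hb'1, hb'2⟩ := hdense.inter_nhds_nonempty hev
  have hrob' : Robust (e + 1) (A * (X - C b')) (B * (X - C b')) :=
    hnear _ _ (fun i => ⟨hb'2.1 i, hb'2.2 i⟩)
  simp only [mem_compl_iff, mem_union, not_or] at hb'1
  obtain ⟨⟨hb1, hb2⟩, hb3⟩ := hb'1
  have hb1' : ∀ c, IsCrit f c → ∀ n : ℕ, f^[n] c ≠ (b' : OnePoint ℂ) := by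
    intro c hc n h
    exact hb1 (mem_iUnion.2 ⟨n, c, hc, h⟩)
  have hb2' : ∀ c, IsCrit f c → f c ≠ f b' := by
    intro c hc h
    exact hb2 (mem_iUnion₂.2 ⟨c, hc, h.symm⟩)
  have hb3' : f b' ≠ (b' : OnePoint ℂ) := hb3
  -- the chart
  obtain ⟨φ, -, hφs, hφi, hφ⟩ := exists_mob b'
  obtain ⟨hcop', hdeg', hconj⟩ := hφ e A B hcop he (by omega)
  have hrob2 : Robust (e + 1) (cj1 b' e A B) (cj2 b' e A B) := by
    have hr := (robust_cj b' (d := e + 1) (by omega) (hdA b') (hdB b')).2 hrob'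
    have hA : A.natDegree ≤ e := by have := le_max_left A.natDegree B.natDegree; omega
    have hB : B.natDegree ≤ e := by have := le_max_right A.natDegree B.natDegree; omega
    obtain ⟨h1, h2⟩ := cj_mul b' (k := 1) hA hB (H := X - C b') (natDegree_X_sub_C b').le
    have h3 : reflect 1 ((X - C b').comp (X + C b')) = 1 := by
      simp
    rw [h1, h2, h3, mul_one, mul_one] at hr
    exact hr
  set g := rat (cj1 b' e A B) (cj2 b' e A B) with hg
  have hginf : g ∞ = φ (f b') := by rw [← hφs, hconj]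
  have hB' : (cj2 b' e A B).natDegree = e := by
    have hne : g ∞ ≠ ∞ := by
      rw [hginf]
      intro h
      rw [← hφs] at h
      exact hb3' (φ.injective h)
    have hcoef : (cj2 b' e A B).coeff e ≠ 0 := by
      intro h
      apply hne
      rw [hg, rat_infty]
      have : dg (cj1 b' e A B) (cj2 b' e A B) = e := hdeg'
      rw [this, pt, if_pos h]
    apply le_antisymm
    · have := le_max_right (cj1 b' e A B).natDegree (cj2 b' e A B).natDegree
      omega
    · exact le_natDegree_of_ne_zero hcoef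
  have hA' : (cj1 b' e A B).natDegree ≤ e := by
    have := le_max_left (cj1 b' e A B).natDegree (cj2 b' e A B).natDegree
    omega
  have hyp : HypMap g := by
    apply hyp_of_robust_inf hcop' hB' hA' (by omega) _ _ hrob2
    · intro c hc n h
      obtain ⟨c0, rfl⟩ := φ.surjective c
      rw [isCrit_conj φ hconj] at hc
      rw [iter_conj φ hconj, ← hφs] at h
      exact hb1' c0 hc n (φ.injective h)
    · intro c hc h
      obtain ⟨c0, rfl⟩ := φ.surjective c
      rw [isCrit_conj φ hconj] at hc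
      have h' : φ (f c0) = φ (f b') := by
        rw [← hginf, ← hconj]; exact h
      exact hb2' c0 hc (φ.injective h')
  exact (hypMap_conj φ hconj).1 hyp

theorem pert_full (H : Polynomial ℂ) {k : ℕ} (hH : H.natDegree ≤ k) {ε : ℝ} (hε : 0 < ε) :
    ∃ H1 : Polynomial ℂ, H1 ≠ 0 ∧ H1.natDegree = k ∧ ∀ i, ‖H1.coeff i - H.coeff i‖ < ε := by
  obtain ⟨H1, h1, h2, h3, -⟩ := pert_deg 1 1 H hH hε (by simp) (by simp)
  exact ⟨H1, h1, h2, by simpa using h3⟩

theorem rat_mul_const {A B : Polynomial ℂ} {t : ℂ} (ht : t ≠ 0) :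
    rat (A * C t) (B * C t) = rat A B := by
  have hdg : dg (A * C t) (B * C t) = dg A B := by
    unfold dg
    rw [natDegree_mul_C ht, natDegree_mul_C ht]
  funext x
  induction x using OnePoint.rec with
  | infty =>
    rw [rat_infty, rat_infty, hdg, coeff_mul_C, coeff_mul_C, pt_smul ht]
  | coe x =>
    rw [rat_coe, rat_coe, eval_mul, eval_mul, eval_C, pt_smul ht]

/-- **the converse direction** -/
theorem hyp_of_robust : ∀ (k : ℕ) {A B H : Polynomial ℂ} {e : ℕ}, IsCoprime A B →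
    max A.natDegree B.natDegree = e → 2 ≤ e → H ≠ 0 → H.natDegree ≤ k →
    Robust (e + k) (A * H) (B * H) → HypMap (rat A B) := by
  intro k
  induction k with
  | zero =>
    intro A B H e hcop he he2 hH0 hH hrob
    obtain ⟨t, rfl⟩ : ∃ t, H = C t := ⟨_, eq_C_of_natDegree_le_zero hH⟩
    have ht : t ≠ 0 := by
      rintro rfl
      exact hH0 (by simp)
    have hu : IsUnit (C t : Polynomial ℂ) := isUnit_C.2 ht.isUnit
    obtain ⟨ρ, hρ, h⟩ := hrob
    have h1 := h (A * C t) (B * C t)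
      ((isCoprime_mul_unit_right_left hu A (B * C t)).2
        ((isCoprime_mul_unit_right_right hu A B).2 hcop))
      (by rw [natDegree_mul_C ht, natDegree_mul_C ht, he, add_zero])
      (fun i => by simp [hρ])
    rwa [rat_mul_const ht] at h1
  | succ k ih =>
    intro A B H e hcop he he2 hH0 hH hrob
    -- full degree
    obtain ⟨ρ, hρ, hnear⟩ := hrob.near
    obtain ⟨H1, hH10, hH1, hrob1⟩ : ∃ H1 : Polynomial ℂ, H1 ≠ 0 ∧ H1.natDegree = k + 1 ∧
        Robust (e + (k + 1)) (A * H1) (B * H1) := by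
      obtain ⟨r1, hr1, h1⟩ := mul_near A hρ
      obtain ⟨r2, hr2, h2⟩ := mul_near B hρ
      obtain ⟨H1, h3, h4, h5⟩ := pert_full H hH (lt_min hr1 hr2)
      refine ⟨H1, h3, h4, hnear _ _ (fun i => ⟨?_, ?_⟩)⟩
      · rw [mul_comm A H1, mul_comm A H]
        exact h1 _ _ (fun j => (h5 j).trans_le (min_le_left _ _)) i
      · rw [mul_comm B H1, mul_comm B H]
        exact h2 _ _ (fun j => (h5 j).trans_le (min_le_right _ _)) i
    obtain ⟨b, hb⟩ := Complex.exists_root (f := H1) (by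
      rw [degree_eq_natDegree hH10, hH1]
      exact_mod_cast Nat.succ_pos k)
    obtain ⟨H2, rfl⟩ := dvd_iff_isRoot.2 hb
    have hH20 : H2 ≠ 0 := right_ne_zero_of_mul hH10
    have hH2 : H2.natDegree = k := by
      rw [natDegree_mul (X_sub_C_ne_zero b) hH20, natDegree_X_sub_C] at hH1
      omega
    apply hyp_of_robust_one hcop he he2 b
    obtain ⟨ρ1, hρ1, hnear1⟩ := hrob1.near
    obtain ⟨r, hr, hmul⟩ := mul_near2 H2 hρ1
    refine ⟨r, hr, fun P Q hPQ hd hn => ?_⟩
    refine ih (A := P) (B := Q) (H := H2) (e := e + 1) hPQ hd (by omega) hH20 hH2.le ?_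
    have := hnear1 _ _ (by
      have := hmul _ _ _ _ hn
      rw [mul_assoc, mul_assoc] at this
      exact this)
    rwa [show e + (k + 1) = e + 1 + k by ring] at this

end Pool.Agent.H32.BT
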