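import Pool.Agent.H32.BT.Defs

set_option autoImplicit false

open Filter Topology Polynomial OnePoint Metric Set

namespace Pool.Agent.H32.BT

open Pool.Agent.H44.Fatou

/-
Take F = it (cf d P, cf d Q) n with d = max of the degrees: by induction on n; at a point of S all
denominators Q.eval (it v i w), i < n, are nonzero because the next iterate is finite
(coprime_eval: if Q vanishes the value of rat is infinity).
-/

theorem iter_diff {P Q : Polynomial ℂ} (h : IsCoprime P Q) {S : Set ℂ} (hS : IsOpen S) (n : ℕ)
    (hfin : ∀ w ∈ S, ∀ i ≤ n, ∃ y : ℂ, (rat P Q)^[i] (w : OnePoint ℂ) = (y : OnePoint ℂ)) :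
    ∃ F : ℂ → ℂ, DifferentiableOn ℂ F S ∧
      ∀ w ∈ S, (rat P Q)^[n] (w : OnePoint ℂ) = (F w : OnePoint ℂ) := by
  induction n with
  | zero => exact ⟨fun w => w, differentiableOn_id, fun w _ => rfl⟩
  | succ n ih =>
    obtain ⟨F, hF, hFe⟩ := ih (fun w hw i hi => hfin w hw i (hi.trans (Nat.le_succ n)))
    have hQ : ∀ w ∈ S, Q.eval (F w) ≠ 0 := by
      intro w hw h0
      obtain ⟨y, hy⟩ := hfin w hw (n + 1) le_rfl
      rw [Function.iterate_succ_apply', hFe w hw, rat_coe] at hy
      unfold pt at hy
      rw [if_pos h0] at hy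
      exact infty_ne_coe y hy
    refine ⟨fun w => P.eval (F w) / Q.eval (F w), ?_, ?_⟩
    · refine DifferentiableOn.div ?_ ?_ hQ
      · exact P.differentiable.comp_differentiableOn hF
      · exact Q.differentiable.comp_differentiableOn hF
    · intro w hw
      rw [Function.iterate_succ_apply', hFe w hw]
      exact rat_coe_of_ne (hQ w hw)

end Pool.Agent.H32.BT
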