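import Pool.Agent.H32.BT.Crit
import Pool.Agent.H32.BT.IterDiff

set_option autoImplicit false

open Filter Topology Polynomial OnePoint Metric Set

namespace Pool.Agent.H32.BT

open Pool.Agent.H44.Fatou

/-
F = (rat P Q)^[n] is continuous, maps neighbourhoods to neighbourhoods (rat_open) and is locally
injective at each u with F u in the image of ball x r0 (each f^[i] u, i < n, is not critical), so
it is a local homeomorphism there (Mathlib: IsLocalHomeomorphOn from an injective continuous map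
that is open on a neighbourhood), hence a covering map on the image of the ball
(IsCoveringMapOn.of_isLocalHomeomorphOn, the sphere is compact Hausdorff). Lift the inclusion of
the ball (simply connected, locally path connected) starting at z
(IsCoveringMapOn.existsUnique_continuousMap_lifts). The lift has finite values (i = 0 in hy), which
defines G, continuous on the ball, F (G w) = w. Near G w the iterate F is a differentiable complex
function (iter_diff on the set of u all of whose iterates up to n are finite, which is a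
neighbourhood of G w) and injective, so its derivative at G w is not 0 (lemma of Crit.lean in
contrapositive: derivative 0 implies not injective; or chain rule and crit_coe), and
HasDerivAt.of_local_left_inverse gives differentiability of G.
-/

/-- a continuous right inverse of a differentiable function is differentiable -/
theorem diff_of_inverse {Φ G : ℂ → ℂ} {w0 : ℂ} {V : Set ℂ} (hV : V ∈ 𝓝 w0)
    (hG : ContinuousOn G V) {S : Set ℂ} (hS : IsOpen S) (hGS : G w0 ∈ S)
    (hΦ : DifferentiableOn ℂ Φ S) (hinv : ∀ w ∈ V, G w ∈ S → Φ (G w) = w) :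
    DifferentiableAt ℂ G w0 := by
  obtain ⟨V', hV'V, hV'o, hw0⟩ := _root_.mem_nhds_iff.1 hV
  have hGc : ∀ w ∈ V', ContinuousAt G w := fun w hw =>
    hG.continuousAt (mem_of_superset (hV'o.mem_nhds hw) hV'V)
  have hΦan : AnalyticAt ℂ Φ (G w0) := hΦ.analyticAt (hS.mem_nhds hGS)
  -- near `w0`, values in `S`
  have hnear : ∀ᶠ w in 𝓝 w0, w ∈ V' ∧ G w ∈ S :=
    (hV'o.eventually_mem hw0).and ((hGc w0 hw0).eventually (hS.mem_nhds hGS))
  have hlinv : ∀ w ∈ V', G w ∈ S → ∀ᶠ y in 𝓝 w, Φ (G y) = y := by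
    intro w hw hwS
    filter_upwards [hV'o.mem_nhds hw, (hGc w hw).eventually (hS.mem_nhds hwS)] with y hy1 hy2
    exact hinv y (hV'V hy1) hy2
  have hreg : ∀ w ∈ V', G w ∈ S → deriv Φ (G w) ≠ 0 → DifferentiableAt ℂ G w := by
    intro w hw hwS hd
    have h1 : HasDerivAt Φ (deriv Φ (G w)) (G w) :=
      (hΦ.differentiableAt (hS.mem_nhds hwS)).hasDerivAt
    exact (h1.of_local_left_inverse (hGc w hw) hd (hlinv w hw hwS)).differentiableAt
  rcases hΦan.deriv.eventually_eq_zero_or_eventually_ne_zero with h0 | h0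
  · -- `Φ` is constant near `G w0`
    exfalso
    obtain ⟨ε, hε, hball⟩ := Metric.eventually_nhds_iff_ball.1 (h0.and (hS.mem_nhds hGS))
    have hconst : ∀ u ∈ Metric.ball (G w0) ε, Φ u = Φ (G w0) := by
      intro u hu
      have hd : DifferentiableOn ℂ Φ (Metric.ball (G w0) ε) :=
        hΦ.mono fun v hv => (hball v hv).2
      exact Metric.isOpen_ball.is_const_of_deriv_eq_zero
        (convex_ball (G w0) ε).isPreconnected hd (fun v hv => (hball v hv).1) hu
        (Metric.mem_ball_self hε)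
    have h1 : ∀ᶠ w in 𝓝 w0, w = w0 := by
      filter_upwards [hnear, (hGc w0 hw0).eventually (Metric.ball_mem_nhds (G w0) hε)] with w hw hw2
      have h2 := hconst (G w) hw2
      rw [hinv w (hV'V hw.1) hw.2, hinv w0 (hV'V hw0) hGS] at h2
      exact h2
    obtain ⟨δ, hδ, hball2⟩ := Metric.eventually_nhds_iff_ball.1 h1
    have h3 := hball2 (w0 + (δ / 2 : ℝ)) (by
      rw [Metric.mem_ball, dist_eq_norm, add_sub_cancel_left, Complex.norm_real, Real.norm_eq_abs,
        abs_of_pos (by positivity)]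
      linarith)
    have h4 : ((δ / 2 : ℝ) : ℂ) = 0 := by
      have := congrArg (fun t => t - w0) h3
      simpa using this
    have h5 : δ / 2 = 0 := by exact_mod_cast h4
    linarith
  · -- isolated zeros of the derivative
    rw [eventually_nhdsWithin_iff] at h0
    have h1 : ∀ᶠ w in 𝓝 w0, w ∈ V' ∧ G w ∈ S ∧ (G w ≠ G w0 → deriv Φ (G w) ≠ 0) := by
      filter_upwards [hnear, (hGc w0 hw0).eventually h0] with w hw hw2
      exact ⟨hw.1, hw.2, fun hne => hw2 hne⟩
    obtain ⟨δ, hδ, hball⟩ := Metric.eventually_nhds_iff_ball.1 h1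
    have hd : DifferentiableOn ℂ G (Metric.ball w0 δ \ {w0}) := by
      intro w hw
      obtain ⟨h2, h3, h4⟩ := hball w hw.1
      have hne : G w ≠ G w0 := by
        intro heq
        have e1 := hinv w (hV'V h2) h3
        have e2 := hinv w0 (hV'V hw0) hGS
        rw [heq, e2] at e1
        exact hw.2 (by rw [← e1]; rfl)
      exact (hreg w h2 h3 (h4 hne)).differentiableWithinAt
    have h5 := (Complex.differentiableOn_compl_singleton_and_continuousAt_iff
      (Metric.ball_mem_nhds w0 hδ)).1 ⟨hd, hGc w0 hw0⟩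
    exact h5.differentiableAt (Metric.ball_mem_nhds w0 hδ)

theorem iter_inj {f : OnePoint ℂ → OnePoint ℂ} (hf : Continuous f) (u : OnePoint ℂ) :
    ∀ n : ℕ, (∀ i < n, ¬ IsCrit f (f^[i] u)) → ∃ U ∈ 𝓝 u, InjOn (f^[n]) U := by
  intro n
  induction n with
  | zero => intro _; exact ⟨univ, univ_mem, fun a _ b _ h => h⟩
  | succ n ih =>
    intro h
    obtain ⟨U, hU, hUi⟩ := ih fun i hi => h i (by omega)
    have h1 := h n (Nat.lt_succ_self n)
    unfold IsCrit at h1
    rw [not_not] at h1
    obtain ⟨V, hV, hVi⟩ := h1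
    have hc : ContinuousAt (f^[n]) u := (hf.iterate n).continuousAt
    refine ⟨U ∩ (f^[n]) ⁻¹' V, inter_mem hU (hc hV), ?_⟩
    intro a ha b hb hab
    rw [Function.iterate_succ_apply', Function.iterate_succ_apply'] at hab
    exact hUi ha.1 hb.1 (hVi ha.2 hb.2 hab)

theorem branch {P Q : Polynomial ℂ} (h : IsCoprime P Q) (hd : 1 ≤ max P.natDegree Q.natDegree)
    {x : ℂ} {r0 : ℝ} (hr : 0 < r0) {n : ℕ}
    (hy : ∀ y ∈ ball x r0, ∀ u : OnePoint ℂ, (rat P Q)^[n] u = (y : OnePoint ℂ) →
      (∀ i < n, ¬ IsCrit (rat P Q) ((rat P Q)^[i] u)) ∧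
      ∀ i ≤ n, ∃ w : ℂ, (rat P Q)^[i] u = (w : OnePoint ℂ))
    {z : ℂ} (hz : (rat P Q)^[n] (z : OnePoint ℂ) = (x : OnePoint ℂ)) :
    ∃ G : ℂ → ℂ, DifferentiableOn ℂ G (ball x r0) ∧ G x = z ∧
      ∀ w ∈ ball x r0, (rat P Q)^[n] (G w : OnePoint ℂ) = (w : OnePoint ℂ) := by
  classical
  have hfc : Continuous (rat P Q) := rat_continuous h
  have hFc : Continuous ((rat P Q)^[n]) := hfc.iterate n
  have hFo : IsOpenMap ((rat P Q)^[n]) := by
    have : ∀ m : ℕ, IsOpenMap ((rat P Q)^[m]) := by
      intro m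
      induction m with
      | zero => exact IsOpenMap.id
      | succ m ih =>
        rw [Function.iterate_succ]
        exact ih.comp (rat_open h hd)
    exact this n
  set s : Set (OnePoint ℂ) := (fun w : ℂ => (w : OnePoint ℂ)) '' ball x r0 with hs
  have hcov : IsCoveringMapOn ((rat P Q)^[n]) s := by
    refine IsCoveringMapOn.of_isLocalHomeomorphOn hFc ?_
    rw [isLocalHomeomorphOn_iff_isOpenEmbedding_restrict]
    intro u hu
    obtain ⟨y, hy1, hy2⟩ := hu
    obtain ⟨U, hU, hUi⟩ := iter_inj hfc u n (hy y hy1 u hy2.symm).1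
    obtain ⟨U', hU'U, hU'o, hu'⟩ := _root_.mem_nhds_iff.1 hU
    refine ⟨U', hU'o.mem_nhds hu', ?_⟩
    refine Topology.IsOpenEmbedding.of_continuous_injective_isOpenMap ?_ ?_ ?_
    · exact hFc.comp continuous_subtype_val
    · intro a b hab
      exact Subtype.ext (hUi (hU'U a.2) (hU'U b.2) hab)
    · exact hFo.comp hU'o.isOpenMap_subtype_val
  have hx : x ∈ ball x r0 := mem_ball_self hr
  have hconv : Convex ℝ (ball x r0) := convex_ball x r0
  have hcontr : ContractibleSpace (ball x r0) := hconv.contractibleSpace ⟨x, hx⟩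
  have hlpc : LocallyPathConnectedSpace (ball x r0) := isOpen_ball.locallyPathConnectedSpace
  let ι : C(ball x r0, OnePoint ℂ) :=
    ⟨fun w => ((w : ℂ) : OnePoint ℂ), continuous_coe.comp continuous_subtype_val⟩
  obtain ⟨L, ⟨hL1, hL2⟩, -⟩ := hcov.existsUnique_continuousMap_lifts ι
    (a₀ := ⟨x, hx⟩) (e₀ := (z : OnePoint ℂ)) hz (fun a => ⟨a, a.2, rfl⟩)
  have hL3 : ∀ a : ball x r0, (rat P Q)^[n] (L a) = ((a : ℂ) : OnePoint ℂ) := fun a =>
    congrFun hL2 a
  have hfin : ∀ a : ball x r0, ∃ g : ℂ, L a = (g : OnePoint ℂ) := by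
    intro a
    obtain ⟨w, hw⟩ := (hy a a.2 (L a) (hL3 a)).2 0 (Nat.zero_le n)
    exact ⟨w, hw⟩
  choose g hg using hfin
  have hgc : Continuous g := by
    rw [OnePoint.isOpenEmbedding_coe.isInducing.continuous_iff]
    have : ((↑) : ℂ → OnePoint ℂ) ∘ g = L := by
      funext a
      exact (hg a).symm
    rw [this]
    exact L.continuous
  set G : ℂ → ℂ := fun w => if hw : w ∈ ball x r0 then g ⟨w, hw⟩ else 0 with hGdef
  have hGg : ∀ (w : ℂ) (hw : w ∈ ball x r0), G w = g ⟨w, hw⟩ := fun w hw => by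
    simp only [hGdef, dif_pos hw]
  have hGL : ∀ (w : ℂ) (hw : w ∈ ball x r0), (G w : OnePoint ℂ) = L ⟨w, hw⟩ := fun w hw => by
    rw [hGg w hw, hg]
  have hGF : ∀ w ∈ ball x r0, (rat P Q)^[n] (G w : OnePoint ℂ) = (w : OnePoint ℂ) := by
    intro w hw
    rw [hGL w hw, hL3]
  have hGc : ContinuousOn G (ball x r0) := by
    rw [continuousOn_iff_continuous_domRestrict]
    have : (ball x r0).domRestrict G = g := by
      funext a
      exact hGg a a.2
    rw [this]
    exact hgc
  refine ⟨G, ?_, ?_, hGF⟩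
  · intro w0 hw0
    refine DifferentiableAt.differentiableWithinAt ?_
    set S : Set ℂ := {u : ℂ | ∀ i ≤ n, (rat P Q)^[i] (u : OnePoint ℂ) ≠ ∞} with hSdef
    have hSo : IsOpen S := by
      have : S = ⋂ i ∈ Finset.range (n + 1), {u : ℂ | (rat P Q)^[i] (u : OnePoint ℂ) ≠ ∞} := by
        ext u
        simp only [hSdef, mem_ofPred_eq, mem_iInter, Finset.mem_range, Nat.lt_succ_iff]
      rw [this]
      refine isOpen_biInter_finset fun i _ => ?_
      exact isOpen_ne_fun ((hfc.iterate i).comp continuous_coe) continuous_const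
    have hS0 : G w0 ∈ S := by
      intro i hi
      obtain ⟨w, hw⟩ := (hy w0 hw0 (G w0 : OnePoint ℂ) (hGF w0 hw0)).2 i hi
      rw [hw]
      exact coe_ne_infty w
    obtain ⟨Φ, hΦ1, hΦ2⟩ := iter_diff h hSo n (fun w hw i hi => by
      have := hw i hi
      obtain ⟨y, hy⟩ := OnePoint.ne_infty_iff_exists.1 this
      exact ⟨y, hy.symm⟩)
    refine diff_of_inverse (isOpen_ball.mem_nhds hw0) hGc hSo hS0 hΦ1 ?_
    intro w hw hwS
    have h1 := hΦ2 (G w) hwS
    rw [hGF w hw] at h1
    exact (OnePoint.coe_injective h1).symm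
  · have h1 := hGL x hx
    rw [hL1] at h1
    exact OnePoint.coe_injective h1

end Pool.Agent.H32.BT
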