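import Pool.Agent.H32.BT.TrapSink
import Pool.Agent.H32.BT.Mult
import Pool.Agent.H32.BT.Mob

set_option autoImplicit false

open Filter Topology Polynomial OnePoint Metric Set

namespace Pool.Agent.H32.BT

open Pool.Agent.H44.Fatou

/-
Sinks are Lyapunov stable. Take x not attracted. If x is finite conjugate with exists_mob x, which
sends x to infinity (att_conj, isSink_conj; neighbourhoods are transported by the homeomorphism);
so we may assume that infinity is not attracted, hence z is finite (att_sink). sink_mult and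
sink_of_mult (with v0 = (cf d P, cf d Q), d = max of the degrees, v = v0 by
Filter.Eventually.self_of_nhds) give arbitrarily small closed balls around z such that all
f^[n k] w, w in the ball, stay in the ball.
-/

private theorem sink_stable_fin {P Q : Polynomial ℂ} (h : IsCoprime P Q)
    (hd : 1 ≤ max P.natDegree Q.natDegree) (hinf : ¬ Att (rat P Q) ∞) {z : OnePoint ℂ} {n : ℕ}
    (hs : IsSink (rat P Q) z n) :
    ∀ N ∈ 𝓝 z, ∃ V ∈ 𝓝 z, ∀ w ∈ V, ∀ k : ℕ, (rat P Q)^[n * k] w ∈ N := by
  intro N hN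
  induction z using OnePoint.rec with
  | infty => exact absurd (att_sink hs) hinf
  | coe z =>
    obtain ⟨x, hx0, -, hQ, hstep, hxn, hmul⟩ := sink_mult h hd hinf hs
    have hP' : P.natDegree ≤ max P.natDegree Q.natDegree := le_max_left _ _
    have hQ' : Q.natDegree ≤ max P.natDegree Q.natDegree := le_max_right _ _
    have hN' : (fun w : ℂ => (w : OnePoint ℂ)) ⁻¹' N ∈ 𝓝 (x 0) := by
      apply continuous_coe.continuousAt.preimage_mem_nhds
      rw [hx0]
      exact hN
    obtain ⟨r, hr, hsub, hev⟩ := sink_of_mult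
      (d := max P.natDegree Q.natDegree)
      (cf (max P.natDegree Q.natDegree) P, cf (max P.natDegree Q.natDegree) Q) x n hs.1 hxn
      (fun j _ => by
        show ev (cf (max P.natDegree Q.natDegree) Q) (x j) ≠ 0
        rw [ev_cf hQ']
        exact hQ j)
      (fun j _ => by
        show ev (cf (max P.natDegree Q.natDegree) P) (x j) /
          ev (cf (max P.natDegree Q.natDegree) Q) (x j) = x (j + 1)
        rw [ev_cf hQ', ev_cf hP']
        exact hstep j)
      (by
        have : ∀ j, wv (cf (max P.natDegree Q.natDegree) P, cf (max P.natDegree Q.natDegree) Q)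
            (x j) / ev (cf (max P.natDegree Q.natDegree) P,
              cf (max P.natDegree Q.natDegree) Q).2 (x j) ^ 2 =
            (Wr P Q).eval (x j) / (Q.eval (x j)) ^ 2 := by
          intro j
          rw [wv_cf hP' hQ']
          show _ / ev (cf (max P.natDegree Q.natDegree) Q) (x j) ^ 2 = _
          rw [ev_cf hQ']
        rw [Finset.prod_congr rfl (fun j _ => this j)]
        exact hmul)
      _ hN'
    obtain ⟨_, -, -, hb⟩ := hev.self_of_nhds P Q h hP' hQ' rfl
    refine ⟨(fun w : ℂ => (w : OnePoint ℂ)) '' ball (x 0) r, ?_, ?_⟩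
    · rw [← hx0]
      exact isOpenEmbedding_coe.isOpenMap.image_mem_nhds (ball_mem_nhds _ hr)
    · rintro _ ⟨w, hw, rfl⟩ k
      obtain ⟨y, hy, hyw⟩ := (hb w (ball_subset_closedBall hw)).2 k
      show (rat P Q)^[n * k] (w : OnePoint ℂ) ∈ N
      rw [hyw]
      exact hsub hy

theorem sink_stable {P Q : Polynomial ℂ} (h : IsCoprime P Q)
    (hd : 1 ≤ max P.natDegree Q.natDegree) (hK : ∃ x, ¬ Att (rat P Q) x) {z : OnePoint ℂ} {n : ℕ}
    (hs : IsSink (rat P Q) z n) :
    ∀ N ∈ 𝓝 z, ∃ V ∈ 𝓝 z, ∀ w ∈ V, ∀ k : ℕ, (rat P Q)^[n * k] w ∈ N := by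
  obtain ⟨x, hx⟩ := hK
  induction x using OnePoint.rec with
  | infty => exact sink_stable_fin h hd hx hs
  | coe s =>
    obtain ⟨φ, -, hφs, -, hφ⟩ := exists_mob s
    obtain ⟨h1, h2, h3⟩ := hφ _ P Q h rfl hd
    intro N hN
    have hinf : ¬ Att (rat (cj1 s (max P.natDegree Q.natDegree) P Q)
        (cj2 s (max P.natDegree Q.natDegree) P Q)) ∞ := by
      rw [← hφs, att_conj φ h3]
      exact hx
    have hN' : φ.symm ⁻¹' N ∈ 𝓝 (φ z) := by
      apply φ.symm.continuous.continuousAt.preimage_mem_nhds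
      rw [φ.symm_apply_apply]
      exact hN
    obtain ⟨V, hV, hVN⟩ := sink_stable_fin h1 (by rw [h2]; exact hd) hinf
      ((isSink_conj φ h3 z n).2 hs) _ hN'
    refine ⟨φ ⁻¹' V, φ.continuous.continuousAt.preimage_mem_nhds hV, fun w hw k => ?_⟩
    have h4 := hVN (φ w) hw k
    rw [iter_conj φ h3, mem_preimage, φ.symm_apply_apply] at h4
    exact h4

end Pool.Agent.H32.BT
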