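import Pool.Agent.H32.BT.Defs

set_option autoImplicit false

open Filter Topology Polynomial OnePoint Metric Set

namespace Pool.Agent.H32.BT

open Pool.Agent.H44.Fatou

/-
Compare trap_near in H44/Fatou/Mob2.lean (case n = 1).
The functions (v, z) -> it v j z, j <= n, are continuous at (v0, x 0) with value x j there, all
denominators nonzero near (v0, x 0), and have z-derivative
D_j(v, z) = prod over i < j of wv v (it v i z) / ev v.2 (it v i z)^2, continuous at (v0, x 0).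
Choose q with |D_n(v0, x 0)| < q < 1, L larger than all |D_j(v0, x0)| and |x j|, then r > 0 and a
neighbourhood of v0 on which |D_n| <= q, |D_j| <= L, |it v j z| <= L for z in closedBall (x 0) r
(closedBall inside N). Lipschitz bounds by the mean value inequality on the convex ball; moreover
it v n (x 0) is within (1 - q) r / 2 of x 0 for v near v0, so it v n z is in ball (x 0) r.
-/

theorem tr_cmp {E : Type*} [TopologicalSpace E] {A : E × ℂ → ℂ} (hA : Continuous A)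
    {f : E × ℂ → ℂ} {y0 : E × ℂ} (hf : ContinuousAt f y0) :
    ContinuousAt (fun y => A (y.1, f y)) y0 :=
  ContinuousAt.comp hA.continuousAt (continuous_fst.continuousAt.prodMk hf)

theorem tr_cmp1 {E : Type*} [TopologicalSpace E] {f : E × ℂ → ℂ} {v0 : E} {a : ℂ}
    (hf : ContinuousAt f (v0, a)) : ContinuousAt (fun v => f (v, a)) v0 :=
  ContinuousAt.comp hf (continuousAt_id.prodMk continuousAt_const)

/-- derivative of the iterate -/
noncomputable def trD {d : ℕ} (v : (Fin (d + 1) → ℂ) × (Fin (d + 1) → ℂ)) (j : ℕ) (z : ℂ) : ℂ :=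
  ∏ i ∈ Finset.range j, wv v (it v i z) / ev v.2 (it v i z) ^ 2

theorem tr_hasDerivAt_ev {d : ℕ} (v : (Fin (d + 1) → ℂ) × (Fin (d + 1) → ℂ)) (z : ℂ)
    (hz : ev v.2 z ≠ 0) :
    HasDerivAt (fun z => ev v.1 z / ev v.2 z) (wv v z / ev v.2 z ^ 2) z := by
  have hev : ∀ p : Fin (d + 1) → ℂ, HasDerivAt (fun z => ev p z) (dev p z) z := by
    intro p
    unfold ev dev
    apply HasDerivAt.fun_sum
    intro i _
    exact (hasDerivAt_pow (i : ℕ) z).const_mul (p i)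
  exact (hev v.1).div (hev v.2) hz

theorem tr_hasDerivAt {d : ℕ} (v : (Fin (d + 1) → ℂ) × (Fin (d + 1) → ℂ)) (z : ℂ) :
    ∀ j : ℕ, (∀ i < j, ev v.2 (it v i z) ≠ 0) → HasDerivAt (fun z => it v j z) (trD v j z) z
  | 0, _ => by
    simp only [it, trD, Finset.range_zero, Finset.prod_empty]
    exact hasDerivAt_id z
  | j + 1, h => by
    have ih := tr_hasDerivAt v z j (fun i hi => h i (by omega))
    have h1 := tr_hasDerivAt_ev v (it v j z) (h j (by omega))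
    have h2 := h1.comp z ih
    simp only [trD, Finset.prod_range_succ]
    rw [mul_comm]
    exact h2

theorem tr_cont {d : ℕ} (v0 : (Fin (d + 1) → ℂ) × (Fin (d + 1) → ℂ)) (x : ℕ → ℂ) (n : ℕ)
    (hden : ∀ j < n, ev v0.2 (x j) ≠ 0)
    (hstep : ∀ j < n, ev v0.1 (x j) / ev v0.2 (x j) = x (j + 1)) :
    ∀ j ≤ n, it v0 j (x 0) = x j ∧
      ContinuousAt (fun y : ((Fin (d + 1) → ℂ) × (Fin (d + 1) → ℂ)) × ℂ => it y.1 j y.2) (v0, x 0)
  | 0, _ => ⟨rfl, continuous_snd.continuousAt⟩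
  | j + 1, hj => by
    obtain ⟨h1, h2⟩ := tr_cont v0 x n hden hstep j (by omega)
    refine ⟨?_, ?_⟩
    · simp only [it]
      rw [h1]
      exact hstep j (by omega)
    · have h4 := tr_cmp ev1_cont h2
      have h5 := tr_cmp ev2_cont h2
      have h6 : ev v0.2 (it v0 j (x 0)) ≠ 0 := by
        rw [h1]
        exact hden j (by omega)
      exact ContinuousAt.div h4 h5 h6

theorem trD_cont {d : ℕ} (v0 : (Fin (d + 1) → ℂ) × (Fin (d + 1) → ℂ)) (x : ℕ → ℂ) (n : ℕ)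
    (hden : ∀ j < n, ev v0.2 (x j) ≠ 0)
    (hstep : ∀ j < n, ev v0.1 (x j) / ev v0.2 (x j) = x (j + 1)) :
    ∀ j ≤ n, ContinuousAt (fun y : ((Fin (d + 1) → ℂ) × (Fin (d + 1) → ℂ)) × ℂ => trD y.1 j y.2)
      (v0, x 0) := by
  intro j hj
  unfold trD
  apply tendsto_finsetProd
  intro i hi
  have hi' : i < n := by
    have := Finset.mem_range.1 hi
    omega
  obtain ⟨h1, h2⟩ := tr_cont v0 x n hden hstep i (by omega)
  have h4 := tr_cmp wv_cont h2
  have h5 := tr_cmp ev2_cont h2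
  have h6 : ev v0.2 (it v0 i (x 0)) ≠ 0 := by
    rw [h1]
    exact hden i hi'
  exact ContinuousAt.div h4 (h5.pow 2) (pow_ne_zero 2 h6)

theorem trap_per {d : ℕ} (v0 : (Fin (d + 1) → ℂ) × (Fin (d + 1) → ℂ)) (x : ℕ → ℂ) (n : ℕ)
    (hn : 0 < n) (hx : x n = x 0) (hden : ∀ j < n, ev v0.2 (x j) ≠ 0)
    (hstep : ∀ j < n, ev v0.1 (x j) / ev v0.2 (x j) = x (j + 1))
    (hmul : ‖∏ j ∈ Finset.range n, wv v0 (x j) / ev v0.2 (x j) ^ 2‖ < 1)
    (N : Set ℂ) (hN : N ∈ 𝓝 (x 0)) :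
    ∃ r q L : ℝ, 0 < r ∧ 0 ≤ q ∧ q < 1 ∧ 0 ≤ L ∧ closedBall (x 0) r ⊆ N ∧
      ∀ᶠ v in 𝓝 v0, ∀ z ∈ closedBall (x 0) r,
        (∀ j < n, ev v.2 (it v j z) ≠ 0) ∧ it v n z ∈ ball (x 0) r ∧ (∀ j ≤ n, ‖it v j z‖ ≤ L) ∧
        ∀ z' ∈ closedBall (x 0) r, ‖it v n z - it v n z'‖ ≤ q * ‖z - z'‖ ∧
          ∀ j ≤ n, ‖it v j z - it v j z'‖ ≤ L * ‖z - z'‖ := by
  have hc := tr_cont v0 x n hden hstep
  have hcD := trD_cont v0 x n hden hstep
  have hDn : trD v0 n (x 0) = ∏ j ∈ Finset.range n, wv v0 (x j) / ev v0.2 (x j) ^ 2 := by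
    unfold trD
    refine Finset.prod_congr rfl fun i hi => ?_
    rw [(hc i (Finset.mem_range.1 hi).le).1]
  obtain ⟨q, hq1, hq2⟩ := exists_between hmul
  have hq0 : 0 ≤ q := (norm_nonneg _).trans hq1.le
  set L : ℝ := 1 + ∑ j ∈ Finset.range (n + 1), (‖trD v0 j (x 0)‖ + ‖it v0 j (x 0)‖) with hL
  have hL0 : 0 ≤ L := by positivity
  have hLj : ∀ j ≤ n, ‖trD v0 j (x 0)‖ < L ∧ ‖it v0 j (x 0)‖ < L := by
    intro j hj
    have h1 : ‖trD v0 j (x 0)‖ + ‖it v0 j (x 0)‖ ≤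
        ∑ j ∈ Finset.range (n + 1), (‖trD v0 j (x 0)‖ + ‖it v0 j (x 0)‖) :=
      Finset.single_le_sum (f := fun j => ‖trD v0 j (x 0)‖ + ‖it v0 j (x 0)‖)
        (fun i _ => by positivity) (Finset.mem_range.2 (by omega))
    have h2 := norm_nonneg (trD v0 j (x 0))
    have h3 := norm_nonneg (it v0 j (x 0))
    constructor <;> linarith
  -- eventual properties
  have e1 : ∀ᶠ y : ((Fin (d + 1) → ℂ) × (Fin (d + 1) → ℂ)) × ℂ in 𝓝 (v0, x 0),
      ∀ j ∈ Finset.range n, ev y.1.2 (it y.1 j y.2) ≠ 0 := by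
    rw [Filter.eventually_all_finset]
    intro j hj
    have hj' := Finset.mem_range.1 hj
    obtain ⟨h1, h2⟩ := hc j hj'.le
    have h5 := tr_cmp ev2_cont h2
    have h6 : ev v0.2 (it v0 j (x 0)) ≠ 0 := by
      rw [h1]
      exact hden j hj'
    exact h5.eventually_ne h6
  have e2 : ∀ᶠ y : ((Fin (d + 1) → ℂ) × (Fin (d + 1) → ℂ)) × ℂ in 𝓝 (v0, x 0),
      ∀ j ∈ Finset.range (n + 1), ‖trD y.1 j y.2‖ < L ∧ ‖it y.1 j y.2‖ < L := by
    rw [Filter.eventually_all_finset]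
    intro j hj
    have hj' : j ≤ n := Nat.lt_succ_iff.1 (Finset.mem_range.1 hj)
    exact ((hcD j hj').norm.eventually (gt_mem_nhds (hLj j hj').1)).and
      ((hc j hj').2.norm.eventually (gt_mem_nhds (hLj j hj').2))
  have e3 : ∀ᶠ y : ((Fin (d + 1) → ℂ) × (Fin (d + 1) → ℂ)) × ℂ in 𝓝 (v0, x 0),
      ‖trD y.1 n y.2‖ < q :=
    (hcD n le_rfl).norm.eventually (gt_mem_nhds (by
      show ‖trD v0 n (x 0)‖ < q
      rw [hDn]
      exact hq1))
  have e4 := e1.and (e2.and e3)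
  rw [nhds_prod_eq, eventually_prod_iff] at e4
  obtain ⟨p, hp, q', hq', hpq⟩ := e4
  obtain ⟨r, hr, hball⟩ := Metric.nhds_basis_closedBall.mem_iff.1 (Filter.inter_mem hN hq')
  refine ⟨r, q, L, hr, hq0, hq2, hL0, fun z hz => (hball hz).1, ?_⟩
  -- the centre moves little
  have e5 : ∀ᶠ v in 𝓝 v0, ‖it v n (x 0) - x 0‖ < (1 - q) * r := by
    have h1 : ContinuousAt (fun v : (Fin (d + 1) → ℂ) × (Fin (d + 1) → ℂ) =>
        it v n (x 0) - x 0) v0 := by
      have h3 := tr_cmp1 (hc n le_rfl).2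
      exact ContinuousAt.sub h3 continuousAt_const
    refine h1.norm.eventually (gt_mem_nhds ?_)
    show ‖it v0 n (x 0) - x 0‖ < (1 - q) * r
    rw [(hc n le_rfl).1, hx, sub_self, norm_zero]
    exact mul_pos (by linarith) hr
  filter_upwards [hp, e5] with v hv hv5 z hz
  have hall : ∀ z ∈ closedBall (x 0) r, (∀ j < n, ev v.2 (it v j z) ≠ 0) ∧
      (∀ j ≤ n, ‖trD v j z‖ < L ∧ ‖it v j z‖ < L) ∧ ‖trD v n z‖ < q := by
    intro z hz
    obtain ⟨h1, h2, h3⟩ := hpq hv (hball hz).2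
    exact ⟨fun j hj => h1 j (Finset.mem_range.2 hj),
      fun j hj => h2 j (Finset.mem_range.2 (by omega)), h3⟩
  have hder : ∀ j ≤ n, ∀ z ∈ closedBall (x 0) r,
      HasDerivWithinAt (fun z => it v j z) (trD v j z) (closedBall (x 0) r) z := by
    intro j hj z hz
    exact (tr_hasDerivAt v z j fun i hi => (hall z hz).1 i (by omega)).hasDerivWithinAt
  have hq : ∀ z ∈ closedBall (x 0) r, ∀ z' ∈ closedBall (x 0) r,
      ‖it v n z - it v n z'‖ ≤ q * ‖z - z'‖ := by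
    intro z hz z' hz'
    exact (convex_closedBall (x 0) r).norm_image_sub_le_of_norm_hasDerivWithin_le
      (f := fun z => it v n z) (hder n le_rfl) (fun z hz => (hall z hz).2.2.le) hz' hz
  refine ⟨(hall z hz).1, ?_, fun j hj => ((hall z hz).2.1 j hj).2.le, ?_⟩
  · rw [mem_ball, dist_eq_norm]
    have h1 := hq z hz (x 0) (mem_closedBall_self hr.le)
    rw [mem_closedBall, dist_eq_norm] at hz
    calc ‖it v n z - x 0‖ = ‖(it v n z - it v n (x 0)) + (it v n (x 0) - x 0)‖ := by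
          rw [sub_add_sub_cancel]
      _ ≤ ‖it v n z - it v n (x 0)‖ + ‖it v n (x 0) - x 0‖ := norm_add_le _ _
      _ ≤ q * ‖z - x 0‖ + ‖it v n (x 0) - x 0‖ := by linarith
      _ < q * r + (1 - q) * r := by nlinarith
      _ = r := by ring
  · intro z' hz'
    refine ⟨hq z hz z' hz', fun j hj => ?_⟩
    exact (convex_closedBall (x 0) r).norm_image_sub_le_of_norm_hasDerivWithin_le
      (f := fun z => it v j z) (hder j hj) (fun z hz => ((hall z hz).2.1 j hj).1.le) hz' hz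

end Pool.Agent.H32.BT
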