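import Pool.Agent.H32.BT.Mob
import Pool.Agent.H32.BT.Top

set_option autoImplicit false

open Filter Topology Polynomial OnePoint Metric Set

namespace Pool.Agent.H32.BT

open Pool.Agent.H44.Fatou

/-
Suppose every point is attracted. For a sink (z, n) put Bas z = {x | f^[n k] x -> z}; this does not
depend on n (if f^[n n' k] x -> z then some f^[n j] x is in the attracted neighbourhood U), is
nonempty, is an open set, and Bas z, Bas z' are disjoint for different sink points z, z' (common
multiple of the periods). The sphere OnePoint C is connected, so there is only one sink point z and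
Bas z is everything; f z is a sink point (isSink_map), so f z = z; and every periodic point of f
equals z. Contradiction to the algebraic fact: for every z there is x different from z with
f (f x) = x. Proof of the fact: conjugating with exists_mob (if z is finite) we may take
z = infinity. If P - X Q has a root w then Q(w) is not 0 (coprime) and f w = w. Otherwise
P = X Q + a with a constant a not 0 (P = X Q is impossible for coprime P, Q with max degree >= 2),
q = natDegree Q >= 1. Put S = sum over i <= q of coeff Q i * (X Q + a)^i * Q^(q-i) and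
T = S + Q^(q+1). The coefficient of index q (q+1) of T is 2 * (leadingCoeff Q)^(q+1), not 0, so T
has a root w (degree >= 1). If Q(w) = 0 then T(w) = leadingCoeff Q * a^q, not 0; so Q(w) is not 0,
T(w) = Q(w)^q * (Q(w + a/Q(w)) + Q(w)), so with w' = f w = w + a/Q(w): Q(w') = -Q(w), f w' = w.
-/

/-- a polynomial in `w` whose roots give the two-periodic points -/
noncomputable def TP (Q : Polynomial ℂ) (a : ℂ) : Polynomial ℂ :=
  ∑ i ∈ Finset.range (Q.natDegree + 1),
    C (Q.coeff i) * (X * Q + C a) ^ i * Q ^ (Q.natDegree - i) + Q ^ (Q.natDegree + 1)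

theorem TP_coeff {Q : Polynomial ℂ} (a : ℂ) (hq : 1 ≤ Q.natDegree) :
    (TP Q a).coeff (Q.natDegree * (Q.natDegree + 1)) = 2 * Q.leadingCoeff ^ (Q.natDegree + 1) := by
  set q := Q.natDegree with hqdef
  have hQ0 : Q ≠ 0 := by
    intro h
    rw [h, natDegree_zero] at hqdef
    omega
  -- the degree of `X Q + a`
  have hXQ : (X * Q).natDegree = q + 1 := by
    rw [natDegree_X_mul hQ0]
  have hd1 : (X * Q + C a).natDegree = q + 1 := by
    rw [natDegree_add_C, hXQ]
  have hl1 : (X * Q + C a).coeff (q + 1) = Q.leadingCoeff := by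
    rw [coeff_add, coeff_C, if_neg (by omega), add_zero, coeff_X_mul]
    rfl
  have hlow : ∀ i, i < q → (C (Q.coeff i) * (X * Q + C a) ^ i * Q ^ (q - i)).coeff
      (q * (q + 1)) = 0 := by
    intro i hi
    apply coeff_eq_zero_of_natDegree_lt
    calc (C (Q.coeff i) * (X * Q + C a) ^ i * Q ^ (q - i)).natDegree
        ≤ (C (Q.coeff i) * (X * Q + C a) ^ i).natDegree + (Q ^ (q - i)).natDegree :=
          natDegree_mul_le
      _ ≤ i * (q + 1) + (q - i) * q := by
          refine add_le_add ?_ ?_
          · refine (natDegree_C_mul_le _ _).trans (natDegree_pow_le.trans ?_)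
            rw [hd1]
          · exact natDegree_pow_le.trans (le_of_eq (by rw [← hqdef]))
      _ < q * (q + 1) := by
          obtain ⟨k, hk'⟩ : ∃ k, q = i + k := ⟨q - i, by omega⟩
          have hk : 0 < k := by omega
          have : q - i = k := by omega
          rw [this]
          clear_value q
          subst hk'
          nlinarith
  have htop : (C (Q.coeff q) * (X * Q + C a) ^ q * Q ^ (q - q)).coeff (q * (q + 1)) =
      Q.leadingCoeff ^ (q + 1) := by
    rw [Nat.sub_self, pow_zero, mul_one, coeff_C_mul]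
    have h1 := coeff_pow_of_natDegree_le (p := X * Q + C a) (n := q + 1) (m := q) (le_of_eq hd1)
    rw [h1, hl1, pow_succ, mul_comm]
    rfl
  have hlast : (Q ^ (q + 1)).coeff (q * (q + 1)) = Q.leadingCoeff ^ (q + 1) := by
    have h1 := coeff_pow_of_natDegree_le (p := Q) (n := q) (m := q + 1) (le_of_eq hqdef.symm)
    rw [mul_comm q (q + 1), h1]
    rfl
  unfold TP
  rw [← hqdef, coeff_add, finsetSum_coeff, Finset.sum_range_succ, Finset.sum_eq_zero
    (fun i hi => hlow i (Finset.mem_range.1 hi)), zero_add, htop, hlast]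
  ring

theorem TP_eval {Q : Polynomial ℂ} (a w : ℂ) (hQ : Q.eval w ≠ 0) :
    (TP Q a).eval w = (Q.eval w) ^ Q.natDegree * (Q.eval (w + a / Q.eval w) + Q.eval w) := by
  unfold TP
  rw [eval_add, eval_finsetSum, eval_pow, mul_add, pow_succ]
  congr 1
  rw [eval_eq_sum_range (p := Q) (w + a / Q.eval w), Finset.mul_sum]
  refine Finset.sum_congr rfl fun i hi => ?_
  have hi' : i ≤ Q.natDegree := Nat.lt_succ_iff.1 (Finset.mem_range.1 hi)
  rw [eval_mul, eval_mul, eval_C, eval_pow, eval_pow, eval_add, eval_mul, eval_X, eval_C]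
  have h1 : w + a / Q.eval w = (w * Q.eval w + a) / Q.eval w := by
    field_simp
  rw [h1, div_pow]
  have h2 : (Q.eval w) ^ Q.natDegree = (Q.eval w) ^ (Q.natDegree - i) * (Q.eval w) ^ i := by
    rw [← pow_add, Nat.sub_add_cancel hi']
  rw [h2]
  field_simp

theorem TP_eval_zero {Q : Polynomial ℂ} (a w : ℂ) (hQ : Q.eval w = 0) (hq : 1 ≤ Q.natDegree) :
    (TP Q a).eval w = Q.leadingCoeff * a ^ Q.natDegree := by
  unfold TP
  rw [eval_add, eval_finsetSum, eval_pow, hQ, zero_pow (by omega), add_zero,
    Finset.sum_range_succ, Finset.sum_eq_zero, zero_add]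
  · rw [eval_mul, eval_mul, eval_C, eval_pow, eval_pow, eval_add, eval_mul, eval_X, eval_C, hQ,
      Nat.sub_self, pow_zero, mul_one, mul_zero, zero_add]
    rfl
  · intro i hi
    have hi' : i < Q.natDegree := Finset.mem_range.1 hi
    rw [eval_mul, eval_pow (n := Q.natDegree - i), hQ, zero_pow (by omega), mul_zero]

/-- a finite point of period one or two -/
theorem alg_infty {P Q : Polynomial ℂ} (h : IsCoprime P Q)
    (hd : 2 ≤ max P.natDegree Q.natDegree) :
    ∃ w : ℂ, rat P Q (rat P Q (w : OnePoint ℂ)) = (w : OnePoint ℂ) := by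
  by_cases hroot : ∃ w, (P - X * Q).eval w = 0
  · obtain ⟨w, hw⟩ := hroot
    rw [eval_sub, eval_mul, eval_X, sub_eq_zero] at hw
    have hQ : Q.eval w ≠ 0 := by
      intro hQ
      rw [hQ, mul_zero] at hw
      rcases coprime_eval h w with h1 | h1
      · exact h1 hw
      · exact h1 hQ
    have h1 : rat P Q (w : OnePoint ℂ) = (w : OnePoint ℂ) := by
      rw [rat_coe_of_ne hQ, hw, mul_div_cancel_right₀ _ hQ]
    exact ⟨w, by rw [h1, h1]⟩
  · push Not at hroot
    have hdeg : (P - X * Q).natDegree = 0 := by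
      by_contra hne
      have hpos : 0 < (P - X * Q).degree := natDegree_pos_iff_degree_pos.1 (Nat.pos_of_ne_zero hne)
      obtain ⟨w, hw⟩ := Complex.exists_root hpos
      exact hroot w hw
    obtain ⟨a, ha⟩ : ∃ a, P - X * Q = C a := ⟨_, eq_C_of_natDegree_eq_zero hdeg⟩
    have ha0 : a ≠ 0 := by
      have := hroot 0
      rwa [ha, eval_C] at this
    have hP : P = X * Q + C a := by rw [← ha]; ring
    have hq : 1 ≤ Q.natDegree := by
      by_contra hq
      have hq0 : Q.natDegree = 0 := by omega
      have : P.natDegree ≤ 1 := by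
        rw [hP, natDegree_add_C]
        exact natDegree_mul_le.trans (by rw [natDegree_X, hq0])
      rw [hq0] at hd
      simp at hd
      omega
    have hQ0 : Q ≠ 0 := by
      intro h0
      rw [h0, natDegree_zero] at hq
      omega
    have hlc : Q.leadingCoeff ≠ 0 := leadingCoeff_ne_zero.2 hQ0
    have hT : 0 < (TP Q a).degree := by
      rw [← natDegree_pos_iff_degree_pos]
      have h1 : (TP Q a).coeff (Q.natDegree * (Q.natDegree + 1)) ≠ 0 := by
        rw [TP_coeff a hq]
        exact mul_ne_zero two_ne_zero (pow_ne_zero _ hlc)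
      have h2 := le_natDegree_of_ne_zero h1
      have h3 : 0 < Q.natDegree * (Q.natDegree + 1) := by positivity
      omega
    obtain ⟨w, hw⟩ := Complex.exists_root hT
    have hw' : (TP Q a).eval w = 0 := hw
    have hQw : Q.eval w ≠ 0 := by
      intro h0
      rw [TP_eval_zero a w h0 hq] at hw'
      exact mul_ne_zero hlc (pow_ne_zero _ ha0) hw'
    rw [TP_eval a w hQw] at hw'
    have h1 : Q.eval (w + a / Q.eval w) = -Q.eval w := by
      have := (mul_eq_zero.1 hw').resolve_left (pow_ne_zero _ hQw)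
      linear_combination this
    have h2 : rat P Q (w : OnePoint ℂ) = ((w + a / Q.eval w : ℂ) : OnePoint ℂ) := by
      rw [rat_coe_of_ne hQw, hP, eval_add, eval_mul, eval_X, eval_C]
      congr 1
      field_simp
    refine ⟨w, ?_⟩
    have h3 : Q.eval (w + a / Q.eval w) ≠ 0 := by
      rw [h1]; exact neg_ne_zero.2 hQw
    rw [h2, rat_coe_of_ne h3, hP, eval_add, eval_mul, eval_X, eval_C, h1]
    congr 1
    field_simp
    ring

/-- a point of period one or two different from a given point -/
theorem alg_fact {P Q : Polynomial ℂ} (h : IsCoprime P Q)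
    (hd : 2 ≤ max P.natDegree Q.natDegree) (z : OnePoint ℂ) :
    ∃ x, x ≠ z ∧ rat P Q (rat P Q x) = x := by
  induction z using OnePoint.rec with
  | infty =>
      obtain ⟨w, hw⟩ := alg_infty h hd
      exact ⟨w, coe_ne_infty _, hw⟩
  | coe s =>
      obtain ⟨φ, -, hφs, -, hφ⟩ := exists_mob s
      obtain ⟨h1, h2, h3⟩ := hφ _ P Q h rfl (by omega)
      obtain ⟨w, hw⟩ := alg_infty h1 (by rw [h2]; exact hd)
      refine ⟨φ.symm w, ?_, ?_⟩
      · intro hx
        have : φ (φ.symm w) = φ s := by rw [hx]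
        rw [φ.apply_symm_apply, hφs] at this
        exact coe_ne_infty _ this
      · apply φ.injective
        rw [← h3, ← h3, φ.apply_symm_apply, hw]

/-- the basin of a point -/
def Bas (f : OnePoint ℂ → OnePoint ℂ) (z : OnePoint ℂ) : Set (OnePoint ℂ) :=
  {x | ∃ n, IsSink f z n ∧ Tendsto (fun k : ℕ => f^[n * k] x) atTop (𝓝 z)}

theorem tendsto_mul_sub {f : OnePoint ℂ → OnePoint ℂ} {x z : OnePoint ℂ} {n m : ℕ} (hm : 0 < m)
    (h : Tendsto (fun k : ℕ => f^[n * k] x) atTop (𝓝 z)) :
    Tendsto (fun k : ℕ => f^[n * (m * k)] x) atTop (𝓝 z) :=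
  h.comp (tendsto_id.const_mul_atTop' hm)

theorem bas_disj {f : OnePoint ℂ → OnePoint ℂ} {z z' x : OnePoint ℂ} (h : x ∈ Bas f z)
    (h' : x ∈ Bas f z') : z = z' := by
  obtain ⟨n, hn, hx⟩ := h
  obtain ⟨n', hn', hx'⟩ := h'
  have h1 := tendsto_mul_sub hn'.1 hx
  have h2 := tendsto_mul_sub hn.1 hx'
  have h3 : (fun k : ℕ => f^[n' * (n * k)] x) = fun k : ℕ => f^[n * (n' * k)] x := by
    funext k
    have : n' * (n * k) = n * (n' * k) := by ring
    rw [this]
  rw [h3] at h2
  exact tendsto_nhds_unique h1 h2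

theorem bas_open {f : OnePoint ℂ → OnePoint ℂ} (hf : Continuous f) (z : OnePoint ℂ) :
    IsOpen (Bas f z) := by
  rw [isOpen_iff_mem_nhds]
  rintro x ⟨n, hn, hx⟩
  obtain ⟨U, hU, hU'⟩ := hn.2.2
  obtain ⟨k, hk⟩ := (hx.eventually (interior_mem_nhds.2 hU)).exists
  have h1 : (f^[n * k]) ⁻¹' (interior U) ∈ 𝓝 x :=
    (isOpen_interior.preimage (hf.iterate _)).mem_nhds hk
  filter_upwards [h1] with y hy
  refine ⟨n, hn, ?_⟩
  have h2 := hU' _ (interior_subset hy)
  rw [← tendsto_add_atTop_iff_nat k]
  refine h2.congr fun j => ?_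
  rw [← Function.iterate_add_apply, mul_add]

theorem exists_not_att {P Q : Polynomial ℂ} (h : IsCoprime P Q)
    (hd : 2 ≤ max P.natDegree Q.natDegree) : ∃ x, ¬ Att (rat P Q) x := by
  by_contra hcon
  push Not at hcon
  have hf := rat_continuous h
  have hall : ∀ x, ∃ z, x ∈ Bas (rat P Q) z := by
    intro x
    obtain ⟨z, n, h1, h2⟩ := hcon x
    exact ⟨z, n, h1, h2⟩
  obtain ⟨z0, hz0⟩ := hall ∞
  have hclopen : IsClopen (Bas (rat P Q) z0) := by
    refine ⟨?_, bas_open hf z0⟩
    rw [← isOpen_compl_iff]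
    have h1 : (Bas (rat P Q) z0)ᶜ = ⋃ z ∈ {z | z ≠ z0}, Bas (rat P Q) z := by
      ext x
      rw [mem_compl_iff, mem_iUnion₂]
      constructor
      · intro hx
        obtain ⟨z, hz⟩ := hall x
        refine ⟨z, ?_, hz⟩
        intro hzz
        rw [hzz] at hz
        exact hx hz
      · rintro ⟨z, hz, hxz⟩ hx
        exact hz (bas_disj hxz hx)
    rw [h1]
    exact isOpen_biUnion fun z _ => bas_open hf z
  have huniv := hclopen.eq_univ ⟨_, hz0⟩
  obtain ⟨x, hx1, hx2⟩ := alg_fact h hd z0
  have hx3 : x ∈ Bas (rat P Q) z0 := by rw [huniv]; trivial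
  obtain ⟨n, hn, hx4⟩ := hx3
  have h5 := tendsto_mul_sub (m := 2) (by norm_num) hx4
  have h6 : (fun k : ℕ => (rat P Q)^[n * (2 * k)] x) = fun _ => x := by
    funext k
    have e : n * (2 * k) = 2 * (n * k) := by ring
    rw [e, Function.iterate_mul]
    exact Function.iterate_fixed (f := (rat P Q)^[2]) hx2 _
  rw [h6] at h5
  exact hx1 (tendsto_nhds_unique tendsto_const_nhds h5)

end Pool.Agent.H32.BT
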