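import Pool.Agent.H32.BT.Absorb

set_option autoImplicit false

open Filter Topology Polynomial OnePoint Metric Set

namespace Pool.Agent.H32.BT

open Pool.Agent.H44.Fatou

/-
Let L = {c | IsCrit} union T where T is a compact neighbourhood of infinity consisting of attracted
points (att_open; e.g. T = complement of the image of a large ball ball 0 R). L is compact
(crit_closed) and consists of attracted points. absorb gives a compact L' of attracted points
containing all f^[n] x, x in L. The set K of non attracted points is closed, does not contain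
infinity, and is disjoint from L'; so there is r0 > 0 such that no y in ball x r0, x in K (finite),
is in L' (preimages in C: K compact, L' closed). If f^[n] u = y and f^[i] u is in L, i <= n, then
y = f^[n-i] (f^[i] u) is in L', contradiction. So f^[i] u is not critical and not in T.
-/

theorem radius {P Q : Polynomial ℂ} (h : IsCoprime P Q) (hyp : HypMap (rat P Q))
    (hinf : Att (rat P Q) ∞) :
    ∃ r0 R : ℝ, 0 < r0 ∧ 0 < R ∧ ∀ x : ℂ, ¬ Att (rat P Q) x → ∀ y ∈ ball x r0, ∀ n : ℕ,
      ∀ u : OnePoint ℂ, (rat P Q)^[n] u = (y : OnePoint ℂ) →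
        (∀ i < n, ¬ IsCrit (rat P Q) ((rat P Q)^[i] u)) ∧
        ∀ i ≤ n, ∃ w : ℂ, ‖w‖ ≤ R ∧ (rat P Q)^[i] u = (w : OnePoint ℂ) := by
  set f := rat P Q with hf
  have hfc : Continuous f := rat_continuous h
  have hAo : IsOpen {x | Att f x} := att_open hfc
  -- a large ball
  obtain ⟨R, hR0, hR⟩ : ∃ R : ℝ, 0 < R ∧ ∀ x : OnePoint ℂ,
      x ∉ ((fun z : ℂ => (z : OnePoint ℂ)) '' ball (0 : ℂ) R) → Att f x := by
    have h1 : ((fun z : ℂ => (z : OnePoint ℂ)) ⁻¹' {x | Att f x}) ∈ coclosedCompact ℂ := by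
      have h2 := hAo.mem_nhds hinf
      rw [OnePoint.nhds_infty_eq, Filter.mem_sup, Filter.mem_map] at h2
      exact h2.1
    rw [Filter.coclosedCompact_eq_cocompact, Filter.mem_cocompact] at h1
    obtain ⟨C, hC, hCs⟩ := h1
    obtain ⟨R0, hR0⟩ := hC.isBounded.subset_ball_lt 0 (0 : ℂ)
    refine ⟨R0, hR0.1, ?_⟩
    intro x hx
    induction x using OnePoint.rec with
    | infty => exact hinf
    | coe z =>
      have hz : z ∉ C := fun hz => hx ⟨z, hR0.2 hz, rfl⟩
      exact hCs hz
  set T : Set (OnePoint ℂ) := ((fun z : ℂ => (z : OnePoint ℂ)) '' ball (0 : ℂ) R)ᶜ with hT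
  have hTc : IsClosed T := by
    rw [hT, isClosed_compl_iff]
    exact OnePoint.isOpenEmbedding_coe.isOpenMap _ isOpen_ball
  have hLc : IsCompact ({c | IsCrit f c} ∪ T) := ((crit_closed f).union hTc).isCompact
  have hLA : ∀ x ∈ {c | IsCrit f c} ∪ T, Att f x := by
    rintro x (hx | hx)
    · exact hyp x hx
    · exact hR x hx
  obtain ⟨L', hL'c, hL'A, hL'⟩ := absorb hfc hLc hLA
  have hKc : IsCompact {x : ℂ | ¬ Att f x} := by
    refine (isCompact_closedBall (0 : ℂ) R).of_isClosed_subset ?_ ?_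
    · have h3 : {x : ℂ | ¬ Att f x} = ((fun z : ℂ => (z : OnePoint ℂ)) ⁻¹' {x | Att f x})ᶜ := rfl
      rw [h3, isClosed_compl_iff]
      exact hAo.preimage OnePoint.continuous_coe
    · intro x hx
      by_contra hcon
      apply hx
      apply hR
      rintro ⟨z, hz, hzx⟩
      have hzx' : z = x := OnePoint.coe_injective hzx
      apply hcon
      rw [← hzx']
      exact ball_subset_closedBall hz
  have hLo : IsOpen {y : ℂ | (y : OnePoint ℂ) ∈ L'}ᶜ := by
    rw [isOpen_compl_iff]
    exact hL'c.isClosed.preimage OnePoint.continuous_coe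
  have hKL : {x : ℂ | ¬ Att f x} ⊆ {y : ℂ | (y : OnePoint ℂ) ∈ L'}ᶜ := by
    intro x hx hx2
    exact hx (hL'A _ hx2)
  obtain ⟨r0, hr0, hr⟩ := hKc.exists_thickening_subset_open hLo hKL
  refine ⟨r0, R, hr0, hR0, ?_⟩
  intro x hx y hy n u hu
  have hyL : (y : OnePoint ℂ) ∉ L' := by
    apply hr
    rw [mem_thickening_iff]
    exact ⟨x, hx, hy⟩
  have key : ∀ i ≤ n, f^[i] u ∉ {c | IsCrit f c} ∪ T := by
    intro i hi hcon
    apply hyL
    have h4 := hL' (n - i) _ hcon
    rw [← Function.iterate_add_apply, Nat.sub_add_cancel hi, hu] at h4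
    exact h4
  refine ⟨fun i hi hc => key i hi.le (Or.inl hc), fun i hi => ?_⟩
  have h5 : f^[i] u ∉ T := fun hc => key i hi (Or.inr hc)
  rw [hT, Set.notMem_compl_iff] at h5
  obtain ⟨w, hw, hw2⟩ := h5
  refine ⟨w, ?_, hw2.symm⟩
  rw [mem_ball_zero_iff] at hw
  exact hw.le

end Pool.Agent.H32.BT
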