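import Pool.Agent.H32.BT.Stable
import Pool.Agent.H32.BT.NotAtt
import Pool.Agent.H32.BT.Radius
import Pool.Agent.H32.BT.Branch

set_option autoImplicit false

open Filter Topology Polynomial OnePoint Metric Set

namespace Pool.Agent.H32.BT

open Pool.Agent.H44.Fatou

/-
Let K = complement of the attracted points (K is closed, finite points only, bounded, f x in K iff
x in K), and suppose that the set is not dense: then O = interior of K (as a subset of C, using that
the embedding of C is an open embedding and infinity is attracted) is nonempty. Let r0, R be from radius.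
Put X = {x : C | exists z in O with MapClusterPt x atTop (n -> f^[n] z)} (orbits of z in O are finite,
in K). (a) X is nonempty: compactness of K. X is contained in K, bounded by R (R from radius with
n = 0: points of K are in closedBall 0 R).
(b) CLAIM: x in X implies ball x (r0/2) is contained in X. This is absurd (apply repeatedly
x -> x + r0/4). Proof of the claim. z in O, closedBall z del inside K; choose an ultrafilter l <= atTop with
x_n := f^[n] z -> x along l. For n with |x_n - x| < r0/4 let G_n be the branch on ball x_n r0 with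
G_n x_n = z (branch, radius); |G_n| <= R there (radius with i = 0). Along l, G_n w converges
pointwise on ball x (r0/2) (values in a compact set); call the limit G w. By Cauchy estimates the
G_n are uniformly Lipschitz on ball x (5 r0/8) so the convergence is locally uniform along l and G is
differentiable on ball x (r0/2) (TendstoLocallyUniformlyOn.differentiableOn works for any filter).
(c) G is not constant: f^[n] is differentiable on ball z del with values in K, bounded by R
(iter_diff, points of K have finite orbits), so |(f^[n])' z| <= 2 R/del, and G_n' x_n is its inverse,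
so |G_n' x_n| >= del/(2R), and G' x = lim G_n'(x_n) is not 0 (locally uniform convergence of
derivatives), G x = z.
(d) G maps ball x (r0/2) into K: for w in K, G_n w in K (complete invariance), K closed. For w not in K and
not periodic suppose u = G w is attracted, to a sink (z1, n1). By stability (sink_stable applied
to all points f^[i] z1, i < n1) there are a neighbourhood Y of u and for every neighbourhood N of
the finite cycle of z1 an index N0 with f^[n] Y inside N for n >= N0. But f^[n] (G_n w) = w and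
G_n w -> u, so w would be in every neighbourhood of the cycle, hence a point of the cycle,
contradiction to w not periodic. Periodic points are countable (roots of polynomials; or: a
periodic attracted point is a sink point, and points near it which are attracted are not periodic by
uniqueness of limits), so the remaining w follow by continuity of G and K closed.
(e) By the open mapping theorem G (ball x (r0/2)) is open, inside K, hence inside O.
(f) w in ball x (r0/2) is in K: otherwise G_n w is attracted for all n but tends along l to G w in O.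
(g) w in X: u = G w in O, y_n = G_n w -> u, f^[n] y_n = w, the f^[n] are uniformly Lipschitz near u
(bounded by R on a ball around u inside K), so f^[n] u -> w along l, l <= atTop.
-/

/-- Cauchy estimate: a holomorphic function bounded on a ball is Lipschitz on a smaller ball -/
theorem lip_of_bound {F : ℂ → ℂ} {x : ℂ} {r R : ℝ} (hr : 0 < r)
    (hF : DifferentiableOn ℂ F (ball x (2 * r))) (hb : ∀ w ∈ ball x (2 * r), ‖F w‖ ≤ R) :
    ∀ w ∈ ball x r, ∀ w' ∈ ball x r, ‖F w' - F w‖ ≤ (R / (r / 2)) * ‖w' - w‖ := by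
  intro w hw w' hw'
  have hsub : ∀ v ∈ ball x r, closedBall v (r / 2) ⊆ ball x (2 * r) := by
    intro v hv y hy
    rw [mem_ball] at hv ⊢
    rw [mem_closedBall] at hy
    calc dist y x ≤ dist y v + dist v x := dist_triangle _ _ _
      _ < 2 * r := by linarith
  refine Convex.norm_image_sub_le_of_norm_deriv_le (s := ball x r) ?_ ?_ (convex_ball x r) hw hw'
  · intro v hv
    refine hF.differentiableAt (isOpen_ball.mem_nhds ?_)
    exact hsub v hv (mem_closedBall_self (by positivity))
  · intro v hv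
    refine Complex.norm_deriv_le_of_forall_mem_sphere_norm_le (by positivity) ?_ ?_
    · refine DifferentiableOn.diffContOnCl ?_
      rw [closure_ball v (by positivity)]
      exact hF.mono (hsub v hv)
    · intro y hy
      exact hb y (hsub v hv (sphere_subset_closedBall hy))

/-- limits of uniformly bounded holomorphic functions along an ultrafilter -/
theorem lim_holo {U : Ultrafilter ℕ} {G : ℕ → ℂ → ℂ} {x : ℂ} {r R : ℝ} (hr : 0 < r)
    (hG : ∀ᶠ n in (U : Filter ℕ), DifferentiableOn ℂ (G n) (ball x (2 * r)) ∧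
      ∀ w ∈ ball x (2 * r), ‖G n w‖ ≤ R) :
    ∃ g : ℂ → ℂ, DifferentiableOn ℂ g (ball x r) ∧
      TendstoLocallyUniformlyOn G g (U : Filter ℕ) (ball x r) := by
  have hlim : ∀ w : ℂ, w ∈ ball x r → ∃ y : ℂ, Tendsto (fun n => G n w) (U : Filter ℕ) (𝓝 y) := by
    intro w hw
    have hw2 : w ∈ ball x (2 * r) := ball_subset_ball (by linarith) hw
    have h1 : (U.map (fun n => G n w) : Filter ℂ) ≤ 𝓟 (closedBall (0 : ℂ) R) := by
      rw [le_principal_iff, Ultrafilter.mem_coe, Ultrafilter.mem_map]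
      filter_upwards [hG] with n hn
      rw [mem_preimage, mem_closedBall_zero_iff]
      exact hn.2 w hw2
    obtain ⟨y, -, hy⟩ := (isCompact_closedBall (0 : ℂ) R).ultrafilter_le_nhds _ h1
    exact ⟨y, hy⟩
  choose! g hg using hlim
  have hlip : ∀ᶠ n in (U : Filter ℕ), ∀ w ∈ ball x r, ∀ w' ∈ ball x r,
      ‖G n w' - G n w‖ ≤ (R / (r / 2)) * ‖w' - w‖ := by
    filter_upwards [hG] with n hn
    exact lip_of_bound hr hn.1 hn.2
  have hlipg : ∀ w ∈ ball x r, ∀ w' ∈ ball x r, ‖g w' - g w‖ ≤ (R / (r / 2)) * ‖w' - w‖ := by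
    intro w hw w' hw'
    have h1 : Tendsto (fun n => ‖G n w' - G n w‖) (U : Filter ℕ) (𝓝 ‖g w' - g w‖) :=
      ((hg w' hw').sub (hg w hw)).norm
    refine le_of_tendsto h1 ?_
    filter_upwards [hlip] with n hn
    exact hn w hw w' hw'
  have hR : 0 ≤ R := by
    obtain ⟨n, hn⟩ := hG.exists
    exact (norm_nonneg _).trans (hn.2 x (mem_ball_self (by positivity)))
  set C : ℝ := R / (r / 2) with hC
  have hC0 : 0 ≤ C := by positivity
  have hloc : TendstoLocallyUniformlyOn G g (U : Filter ℕ) (ball x r) := by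
    rw [Metric.tendstoLocallyUniformlyOn_iff]
    intro ε hε w hw
    set η : ℝ := ε / (3 * (C + 1)) with hη
    have hη0 : 0 < η := by positivity
    have hCη : C * η < ε / 3 := by
      have h1 : (C + 1) * η = ε / 3 := by
        rw [hη]; field_simp
      nlinarith
    refine ⟨ball w η ∩ ball x r, inter_mem (mem_nhdsWithin_of_mem_nhds (ball_mem_nhds w hη0)) self_mem_nhdsWithin, ?_⟩
    have h2 : ∀ᶠ n in (U : Filter ℕ), dist (G n w) (g w) < ε / 3 :=
      Metric.tendsto_nhds.1 (hg w hw) (ε / 3) (by positivity)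
    filter_upwards [h2, hlip] with n hn1 hn2 y hy
    have h3 := hn2 w hw y hy.2
    have h4 := hlipg w hw y hy.2
    have h5 : ‖y - w‖ < η := by
      have := hy.1
      rwa [mem_ball, dist_eq_norm] at this
    have h6 : C * ‖y - w‖ ≤ C * η := mul_le_mul_of_nonneg_left h5.le hC0
    rw [dist_eq_norm] at hn1 ⊢
    have h7 : g y - G n y = (g y - g w) - (G n w - g w) - (G n y - G n w) := by ring
    rw [h7]
    calc ‖(g y - g w) - (G n w - g w) - (G n y - G n w)‖
        ≤ ‖g y - g w‖ + ‖G n w - g w‖ + ‖G n y - G n w‖ := by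
          refine (norm_sub_le _ _).trans ?_
          gcongr
          exact norm_sub_le _ _
      _ < ε := by linarith
  refine ⟨g, hloc.differentiableOn ?_ isOpen_ball, hloc⟩
  filter_upwards [hG] with n hn
  exact hn.1.mono (ball_subset_ball (by linarith))

/-- the basin of a sink is open -/
theorem basin_open {f : OnePoint ℂ → OnePoint ℂ} (hf : Continuous f) {z : OnePoint ℂ} {n : ℕ}
    (hs : IsSink f z n) {x : OnePoint ℂ} (hx : Tendsto (fun k : ℕ => f^[n * k] x) atTop (𝓝 z)) :
    ∀ᶠ y in 𝓝 x, Tendsto (fun k : ℕ => f^[n * k] y) atTop (𝓝 z) := by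
  obtain ⟨h1, h2, U, hU, h3⟩ := hs
  obtain ⟨k, hk⟩ := (hx.eventually (interior_mem_nhds.2 hU)).exists
  have hV : (f^[n * k]) ⁻¹' (interior U) ∈ 𝓝 x :=
    (hf.iterate (n * k)).continuousAt.preimage_mem_nhds (isOpen_interior.mem_nhds hk)
  filter_upwards [hV] with y hy
  rw [← tendsto_add_atTop_iff_nat k]
  refine (h3 _ (interior_subset hy)).congr fun j => ?_
  rw [← Function.iterate_add_apply, Nat.mul_add]

theorem isSink_iterate {f : OnePoint ℂ → OnePoint ℂ} (hf : Continuous f) {z : OnePoint ℂ} {n : ℕ}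
    (h : IsSink f z n) (k : ℕ) : IsSink f (f^[k] z) n := by
  induction k with
  | zero => exact h
  | succ k ih => rw [Function.iterate_succ_apply']; exact isSink_map hf ih

/-- near a point attracted to a sink, late iterates avoid any point not in the cycle -/
theorem avoid {f : OnePoint ℂ → OnePoint ℂ} (hf : Continuous f)
    (hst : ∀ (z : OnePoint ℂ) (n : ℕ), IsSink f z n → ∀ N ∈ 𝓝 z, ∃ V ∈ 𝓝 z, ∀ w ∈ V, ∀ k : ℕ,
      f^[n * k] w ∈ N)
    {z : OnePoint ℂ} {n : ℕ} (hs : IsSink f z n) {u w : OnePoint ℂ}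
    (hu : Tendsto (fun k : ℕ => f^[n * k] u) atTop (𝓝 z)) (hw : ∀ i < n, w ≠ f^[i] z) :
    ∃ Y ∈ 𝓝 u, ∃ m0 : ℕ, ∀ m ≥ m0, ∀ y ∈ Y, f^[m] y ≠ w := by
  have h1 : ∀ i : ℕ, ∃ V ∈ 𝓝 (f^[i] z), i < n → ∀ v ∈ V, ∀ k : ℕ, f^[n * k] v ≠ w := by
    intro i
    by_cases hi : i < n
    · obtain ⟨V, hV, hV2⟩ := hst (f^[i] z) n (isSink_iterate hf hs i) {w}ᶜ
        (isOpen_compl_singleton.mem_nhds (by
          intro h
          exact hw i hi (by rw [mem_singleton_iff] at h; exact h.symm)))
      exact ⟨V, hV, fun _ v hv k => hV2 v hv k⟩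
    · exact ⟨univ, univ_mem, fun h => absurd h hi⟩
  choose V hV hV2 using h1
  have h2 : ∀ᶠ k : ℕ in atTop, ∀ i ∈ Finset.range n, f^[i] (f^[n * k] u) ∈ interior (V i) := by
    rw [Filter.eventually_all_finset]
    intro i _
    exact (((hf.iterate i).tendsto z).comp hu).eventually (interior_mem_nhds.2 (hV i))
  obtain ⟨k0, hk0⟩ := h2.exists
  have h3 : ∀ᶠ y in 𝓝 u, ∀ i ∈ Finset.range n, f^[i] (f^[n * k0] y) ∈ interior (V i) := by
    rw [Filter.eventually_all_finset]
    intro i hi
    have hc : Continuous fun y => f^[i] (f^[n * k0] y) := (hf.iterate i).comp (hf.iterate (n * k0))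
    exact hc.continuousAt.eventually (isOpen_interior.mem_nhds (hk0 i hi))
  refine ⟨_, h3, n * k0, fun m hm y hy => ?_⟩
  obtain ⟨t, rfl⟩ := Nat.exists_eq_add_of_le hm
  have hn : 0 < n := hs.1
  have hi : t % n < n := Nat.mod_lt t hn
  have h4 := hV2 (t % n) hi _ (interior_subset (hy (t % n) (Finset.mem_range.2 hi))) (t / n)
  rw [← Function.iterate_add_apply, ← Function.iterate_add_apply] at h4
  have h5 : n * (t / n) + t % n + n * k0 = n * k0 + t := by
    rw [Nat.div_add_mod, add_comm]
  rwa [h5] at h4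

theorem dense_chart {P Q : Polynomial ℂ} (h : IsCoprime P Q)
    (hd : 2 ≤ max P.natDegree Q.natDegree) (hyp : HypMap (rat P Q)) (hinf : Att (rat P Q) ∞) :
    Dense {x | Att (rat P Q) x} := by
  classical
  have hd1 : 1 ≤ max P.natDegree Q.natDegree := by omega
  have hfc : Continuous (rat P Q) := rat_continuous h
  obtain ⟨r0, R, hr0, hR, hrad⟩ := radius h hyp hinf
  by_contra hdense
  set K : Set ℂ := {x : ℂ | ¬ Att (rat P Q) (x : OnePoint ℂ)} with hKdef
  have hAo : IsOpen {x | Att (rat P Q) x} := att_open hfc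
  have hKc : IsClosed K := by
    have h1 : K = ((↑) : ℂ → OnePoint ℂ) ⁻¹' {x | Att (rat P Q) x}ᶜ := rfl
    rw [h1]
    exact hAo.isClosed_compl.preimage continuous_coe
  set g : ℕ → ℂ → ℂ := fun n x => ((rat P Q)^[n] (x : OnePoint ℂ)).elim 0 id with hg
  have hKR : ∀ x ∈ K, ‖x‖ ≤ R := by
    intro x hx
    obtain ⟨w, hw, hw2⟩ := (hrad x hx x (mem_ball_self hr0) 0 (x : OnePoint ℂ) rfl).2 0 le_rfl
    have h1 : x = w := OnePoint.coe_injective hw2
    rw [h1]
    exact hw
  have hgK : ∀ x ∈ K, ∀ n, (rat P Q)^[n] (x : OnePoint ℂ) = (g n x : OnePoint ℂ) ∧ g n x ∈ K := by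
    intro x hx n
    have h1 : ¬ Att (rat P Q) ((rat P Q)^[n] (x : OnePoint ℂ)) := by
      rw [att_iter hfc]
      exact hx
    have h2 : (rat P Q)^[n] (x : OnePoint ℂ) ≠ ∞ := by
      intro h3
      rw [h3] at h1
      exact h1 hinf
    obtain ⟨y, hy⟩ := OnePoint.ne_infty_iff_exists.1 h2
    have h3 : g n x = y := by
      simp only [hg]
      rw [← hy]
      rfl
    rw [h3]
    refine ⟨hy.symm, ?_⟩
    show ¬ Att (rat P Q) (y : OnePoint ℂ)
    rw [hy]
    exact h1
  set O : Set ℂ := interior K with hO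
  have hOK : ∀ {w : ℂ}, w ∈ O → w ∈ K := fun hw => interior_subset hw
  have hOne : O.Nonempty := by
    unfold Dense at hdense
    push Not at hdense
    obtain ⟨p, hp⟩ := hdense
    have h1 : (closure {x | Att (rat P Q) x})ᶜ ∈ 𝓝 p := isClosed_closure.isOpen_compl.mem_nhds hp
    have hp2 : p ≠ ∞ := by
      rintro rfl
      exact hp (subset_closure hinf)
    obtain ⟨y, rfl⟩ := OnePoint.ne_infty_iff_exists.1 hp2
    refine ⟨y, ?_⟩
    rw [hO, mem_interior_iff_mem_nhds]
    have h2 := (continuous_coe (X := ℂ)).continuousAt.preimage_mem_nhds h1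
    filter_upwards [h2] with v hv
    exact fun hatt => hv (subset_closure hatt)
  have hgd : ∀ n, DifferentiableOn ℂ (g n) O := by
    intro n
    obtain ⟨F, hF1, hF2⟩ := iter_diff h (S := O) isOpen_interior n
      (fun w hw i hi => ⟨g i w, (hgK w (hOK hw) i).1⟩)
    refine hF1.congr ?_
    intro w hw
    have h1 := hF2 w hw
    rw [(hgK w (hOK hw) n).1] at h1
    exact OnePoint.coe_injective h1
  have hgR : ∀ n, ∀ w ∈ K, ‖g n w‖ ≤ R := fun n w hw => hKR _ (hgK w hw n).2
  have hlip : ∀ u ∈ O, ∃ δ : ℝ, 0 < δ ∧ ∀ y ∈ ball u δ, ∀ n, y ∈ K ∧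
      ‖g n y - g n u‖ ≤ (R / (δ / 2)) * ‖y - u‖ := by
    intro u hu
    obtain ⟨ε, hε, hball⟩ := Metric.isOpen_iff.1 isOpen_interior u hu
    have h2 : ball u (2 * (ε / 2)) ⊆ O := by
      rw [mul_div_cancel₀ ε two_ne_zero]
      exact hball
    refine ⟨ε / 2, by positivity, fun y hy n => ⟨?_, ?_⟩⟩
    · exact hOK (hball (ball_subset_ball (by linarith) hy))
    · exact lip_of_bound (by positivity) ((hgd n).mono h2) (fun w hw => hgR n w (hOK (h2 hw)))
        u (mem_ball_self (by positivity)) y hy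
  obtain ⟨p0, hp0⟩ := hOne
  have hst : ∀ (z : OnePoint ℂ) (n : ℕ), IsSink (rat P Q) z n → ∀ N ∈ 𝓝 z, ∃ V ∈ 𝓝 z,
      ∀ w ∈ V, ∀ k : ℕ, (rat P Q)^[n * k] w ∈ N := fun z n hs =>
    sink_stable h hd1 ⟨(p0 : OnePoint ℂ), hOK hp0⟩ hs
  set X : Set ℂ := {x | ∃ z ∈ O, MapClusterPt x atTop (fun n => g n z)} with hX
  have hXK : ∀ x ∈ X, x ∈ K := by
    rintro x ⟨z, hz, hx⟩
    rw [mapClusterPt_iff_ultrafilter] at hx
    obtain ⟨U, hU, hxU⟩ := hx
    exact hKc.mem_of_tendsto hxU (Eventually.of_forall fun n => (hgK z (hOK hz) n).2)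
  have hXne : ∃ x, x ∈ X := by
    have h1 : ∃ᶠ n : ℕ in atTop, g n p0 ∈ closedBall (0 : ℂ) R :=
      (Eventually.of_forall fun n => by
        rw [mem_closedBall_zero_iff]
        exact hgR n p0 (hOK hp0)).frequently
    obtain ⟨x, -, hx⟩ := (isCompact_closedBall (0 : ℂ) R).exists_mapClusterPt_of_frequently h1
    exact ⟨x, p0, hp0, hx⟩
  have key : ∀ x ∈ X, ball x (r0 / 4) ⊆ X := by
    rintro x ⟨z, hz, hx⟩
    rw [mapClusterPt_iff_ultrafilter] at hx
    obtain ⟨U, hU, hxU⟩ := hx
    have hzK : z ∈ K := hOK hz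
    have hbr : ∀ n, ∃ G : ℂ → ℂ, DifferentiableOn ℂ G (ball (g n z) r0) ∧ G (g n z) = z ∧
        ∀ w ∈ ball (g n z) r0, (rat P Q)^[n] (G w : OnePoint ℂ) = (w : OnePoint ℂ) := by
      intro n
      refine branch h hd1 hr0 ?_ (hgK z hzK n).1
      intro y hy u hu
      have h1 := hrad (g n z) (hgK z hzK n).2 y hy n u hu
      exact ⟨h1.1, fun i hi => by obtain ⟨w, -, hw⟩ := h1.2 i hi; exact ⟨w, hw⟩⟩
    choose G hG1 hG2 hG3 using hbr
    have hGR : ∀ n, ∀ w ∈ ball (g n z) r0, ‖G n w‖ ≤ R := by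
      intro n w hw
      obtain ⟨v, hv1, hv2⟩ :=
        (hrad (g n z) (hgK z hzK n).2 w hw n _ (hG3 n w hw)).2 0 (Nat.zero_le n)
      have h1 : G n w = v := OnePoint.coe_injective hv2
      rw [h1]
      exact hv1
    have hnear : ∀ᶠ n in (U : Filter ℕ), dist (g n z) x < r0 / 4 :=
      Metric.tendsto_nhds.1 hxU _ (by positivity)
    have hsub : ∀ᶠ n in (U : Filter ℕ), ball x (2 * (r0 / 4)) ⊆ ball (g n z) r0 := by
      filter_upwards [hnear] with n hn y hy
      rw [mem_ball] at hy ⊢
      calc dist y (g n z) ≤ dist y x + dist x (g n z) := dist_triangle _ _ _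
        _ < r0 := by rw [dist_comm x]; linarith
    obtain ⟨g0, hg0d, hloc⟩ := lim_holo (U := U) (G := G) (x := x) (r := r0 / 4) (R := R)
      (by positivity) (by
        filter_upwards [hsub] with n hn
        exact ⟨(hG1 n).mono hn, fun w hw => hGR n w (hn hw)⟩)
    have hpt : ∀ w ∈ ball x (r0 / 4), Tendsto (fun n => G n w) (U : Filter ℕ) (𝓝 (g0 w)) :=
      fun w hw => hloc.tendsto_at hw
    have hinv : ∀ᶠ n in (U : Filter ℕ), ∀ w ∈ ball x (r0 / 4),
        (rat P Q)^[n] (G n w : OnePoint ℂ) = (w : OnePoint ℂ) := by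
      filter_upwards [hsub] with n hn w hw
      exact hG3 n w (hn (ball_subset_ball (by linarith) hw))
    have hL : ∀ u ∈ O, ∀ y : ℕ → ℂ, Tendsto y (U : Filter ℕ) (𝓝 u) → ∀ w : ℂ,
        (∀ᶠ n in (U : Filter ℕ), (rat P Q)^[n] (y n : OnePoint ℂ) = (w : OnePoint ℂ)) →
        Tendsto (fun n => g n u) (U : Filter ℕ) (𝓝 w) := by
      intro u hu y hy w hw
      obtain ⟨δ, hδ, hδ2⟩ := hlip u hu
      have h1 : ∀ᶠ n in (U : Filter ℕ), ‖g n u - w‖ ≤ (R / (δ / 2)) * ‖y n - u‖ := by
        filter_upwards [hw, hy.eventually (ball_mem_nhds u hδ)] with n hn1 hn2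
        have h2 := hδ2 (y n) hn2 n
        have h3 : g n (y n) = w := by
          have h4 := (hgK _ h2.1 n).1
          rw [hn1] at h4
          exact (OnePoint.coe_injective h4).symm
        rw [h3, norm_sub_rev] at h2
        exact h2.2
      rw [tendsto_iff_norm_sub_tendsto_zero]
      refine squeeze_zero' (Eventually.of_forall fun n => norm_nonneg _) h1 ?_
      have h5 := (tendsto_iff_norm_sub_tendsto_zero.1 hy).const_mul (R / (δ / 2))
      simpa using h5
    have hg0K : ∀ w ∈ ball x (r0 / 4), g0 w ∈ K := by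
      intro w hw
      show ¬ Att (rat P Q) (g0 w : OnePoint ℂ)
      rintro ⟨z1, n1, hs, hz1⟩
      have hb := basin_open hfc hs hz1
      have hcont : ContinuousAt g0 w :=
        (hg0d.differentiableAt (isOpen_ball.mem_nhds hw)).continuousAt
      have hcont2 : ContinuousAt (fun v => (g0 v : OnePoint ℂ)) w :=
        ContinuousAt.comp (g := ((↑) : ℂ → OnePoint ℂ)) continuous_coe.continuousAt hcont
      have h1 : ∀ᶠ v in 𝓝 w, Tendsto (fun k : ℕ => (rat P Q)^[n1 * k] (g0 v : OnePoint ℂ)) atTop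
          (𝓝 z1) := hcont2.eventually hb
      have h2 : ∀ᶠ v in 𝓝 w, v ∈ ball x (r0 / 4) := isOpen_ball.eventually_mem hw
      have h3 : ∀ᶠ (v : ℂ) in 𝓝 w, ∃ i < n1, (v : OnePoint ℂ) = (rat P Q)^[i] z1 := by
        filter_upwards [h1, h2] with v hv1 hv2
        by_contra hcon
        push Not at hcon
        obtain ⟨Y, hY, m0, hm0⟩ := avoid hfc hst hs hv1 hcon
        have h4 : ∀ᶠ n in (U : Filter ℕ), (G n v : OnePoint ℂ) ∈ Y := by
          have h5 : Tendsto (fun n => (G n v : OnePoint ℂ)) (U : Filter ℕ)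
              (𝓝 (g0 v : OnePoint ℂ)) :=
            ((continuous_coe (X := ℂ)).tendsto (g0 v)).comp (hpt v hv2)
          exact h5.eventually hY
        have h5 : ∀ᶠ n in (U : Filter ℕ), m0 ≤ n := hU (eventually_ge_atTop m0)
        obtain ⟨n, hn1, hn2, hn3⟩ := (h4.and (h5.and hinv)).exists
        exact hm0 n hn2 _ hn1 (hn3 v hv2)
      have h4 : {v : ℂ | ∃ i < n1, (v : OnePoint ℂ) = (rat P Q)^[i] z1}.Finite := by
        have h5 : ((fun i => (rat P Q)^[i] z1) '' (Finset.range n1 : Set ℕ)).Finite :=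
          (Finset.finite_toSet _).image _
        refine (h5.preimage (f := ((↑) : ℂ → OnePoint ℂ))
          (OnePoint.coe_injective.injOn)).subset ?_
        rintro v ⟨i, hi, hv⟩
        exact ⟨i, by simpa using hi, hv.symm⟩
      exact (infinite_of_mem_nhds w h3) h4
    have han : AnalyticOnNhd ℂ g0 (ball x (r0 / 4)) := hg0d.analyticOnNhd isOpen_ball
    have hx0 : x ∈ ball x (r0 / 4) := mem_ball_self (by positivity)
    have hg0x : g0 x = z := by
      have h1 : Tendsto (fun n => G n (g n z)) (U : Filter ℕ) (𝓝 (g0 x)) := by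
        refine hloc.tendsto_comp (hg0d.continuousOn x hx0) hx0 ?_
        rw [tendsto_nhdsWithin_iff]
        exact ⟨hxU, hxU.eventually (isOpen_ball.mem_nhds hx0)⟩
      have h2 : (fun n => G n (g n z)) = fun _ => z := funext hG2
      rw [h2] at h1
      exact (tendsto_nhds_unique h1 tendsto_const_nhds)
    have hopen : ∀ s ⊆ ball x (r0 / 4), IsOpen s → IsOpen (g0 '' s) := by
      rcases han.is_constant_or_isOpen (convex_ball x (r0 / 4)).isPreconnected with ⟨c, hc⟩ | ho
      · exfalso
        set w : ℂ := x + ((r0 / 8 : ℝ) : ℂ) with hw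
        have hwb : w ∈ ball x (r0 / 4) := by
          rw [mem_ball, dist_eq_norm, hw, add_sub_cancel_left, Complex.norm_real,
            Real.norm_eq_abs, abs_of_pos (by positivity)]
          linarith
        have h1 : g0 w = z := by rw [hc w hwb, ← hc x hx0, hg0x]
        have h2 := hL z hz (fun n => G n w) (by rw [← h1]; exact hpt w hwb) w
          (hinv.mono fun n hn => hn w hwb)
        have h3 := tendsto_nhds_unique h2 hxU
        have h4 : ((r0 / 8 : ℝ) : ℂ) = 0 := by
          have h5 := congrArg (fun t => t - x) h3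
          simpa [hw] using h5
        have h5 : r0 / 8 = 0 := by exact_mod_cast h4
        linarith
      · exact ho
    have hg0O : ∀ w ∈ ball x (r0 / 4), g0 w ∈ O := by
      intro w hw
      have h1 : g0 '' ball x (r0 / 4) ⊆ K := by
        rintro _ ⟨v, hv, rfl⟩
        exact hg0K v hv
      exact (interior_maximal h1 (hopen _ Subset.rfl isOpen_ball)) ⟨w, hw, rfl⟩
    intro w hw
    refine ⟨g0 w, hg0O w hw, ?_⟩
    rw [mapClusterPt_iff_ultrafilter]
    exact ⟨U, hU, hL _ (hg0O w hw) (fun n => G n w) (hpt w hw) w (hinv.mono fun n hn => hn w hw)⟩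
  obtain ⟨x0, hx0⟩ := hXne
  have hstep : ∀ k : ℕ, x0 + ((k * (r0 / 8) : ℝ) : ℂ) ∈ X := by
    intro k
    induction k with
    | zero => simpa using hx0
    | succ k ih =>
      refine key _ ih ?_
      rw [mem_ball, dist_eq_norm]
      have h1 : x0 + (((k + 1 : ℕ) * (r0 / 8) : ℝ) : ℂ) - (x0 + ((k * (r0 / 8) : ℝ) : ℂ)) =
          ((r0 / 8 : ℝ) : ℂ) := by
        push_cast
        ring
      rw [h1, Complex.norm_real, Real.norm_eq_abs, abs_of_pos (by positivity)]
      linarith
  obtain ⟨k, hk⟩ := exists_nat_gt ((2 * R + 1) / (r0 / 8))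
  have h1 := hKR _ (hXK _ (hstep k))
  have h2 := hKR _ (hXK _ hx0)
  have h3 : 2 * R + 1 < k * (r0 / 8) := by
    rwa [div_lt_iff₀ (by positivity)] at hk
  have h4 : ‖((k * (r0 / 8) : ℝ) : ℂ)‖ ≤ R + R := by
    calc ‖((k * (r0 / 8) : ℝ) : ℂ)‖ = ‖(x0 + ((k * (r0 / 8) : ℝ) : ℂ)) - x0‖ := by
          rw [add_sub_cancel_left]
      _ ≤ ‖x0 + ((k * (r0 / 8) : ℝ) : ℂ)‖ + ‖x0‖ := norm_sub_le _ _
      _ ≤ R + R := add_le_add h1 h2
  rw [Complex.norm_real, Real.norm_eq_abs, abs_of_nonneg (by positivity)] at h4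
  linarith

end Pool.Agent.H32.BT
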