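import Pool.Agent.H32.BT.Top

set_option autoImplicit false

open Filter Topology Polynomial OnePoint Metric Set

namespace Pool.Agent.H32.BT

open Pool.Agent.H44.Fatou

/-
Proof. Fix x in L, attracted to the sink (z, n0) with attracted neighbourhood U, h = f^[n0].
Choose a compact neighbourhood B of z inside U. Each w in B has some k >= 1 with h^[k] w in the
interior of B, hence (compactness, continuity) there is N with: for all w in B some
1 <= k <= N has h^[k] w in B. K1 = union of h^[j] '' B, j < N, is compact and h maps it into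
itself (h^[N] w = h^[N-k] (h^[k] w)). K2 = union of f^[i] '' K1, i < n0, is compact and f maps it
into itself; all its points are attracted (att_iter). Choose k with h^[k] x in interior B and a
compact neighbourhood Cx of x inside the preimage of interior B under h^[k]; the set
Lx = (union of f^[i] '' Cx, i <= n0 * k) union K2 contains all f^[n] y, y in Cx, is compact and
consists of attracted points. Finitely many Cx cover L.
-/

/-- a compact neighbourhood of a sink has orbits in a compact set of attracted points -/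
private theorem absorb_ball {f : OnePoint ℂ → OnePoint ℂ} (hf : Continuous f)
    {z : OnePoint ℂ} {n0 : ℕ} (hn0 : 0 < n0) {B : Set (OnePoint ℂ)} (hB : IsCompact B)
    (hBz : B ∈ 𝓝 z) (hBA : ∀ w ∈ B, Att f w)
    (hBt : ∀ w ∈ B, Tendsto (fun k : ℕ => f^[n0 * k] w) atTop (𝓝 z)) :
    ∃ K : Set (OnePoint ℂ), IsCompact K ∧ (∀ x ∈ K, Att f x) ∧ ∀ n : ℕ, ∀ x ∈ B, f^[n] x ∈ K := by
  have hN : ∃ N : ℕ, ∀ w ∈ B, ∃ k : ℕ, 1 ≤ k ∧ k ≤ N ∧ f^[n0 * k] w ∈ B := by
    refine IsCompact.induction_on (p := fun S => ∃ N : ℕ, ∀ w ∈ S, ∃ k : ℕ, 1 ≤ k ∧ k ≤ N ∧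
      f^[n0 * k] w ∈ B) hB ?_ ?_ ?_ ?_
    · exact ⟨0, fun w hw => absurd hw (notMem_empty w)⟩
    · rintro S T hST ⟨N, hN⟩
      exact ⟨N, fun w hw => hN w (hST hw)⟩
    · rintro S T ⟨N, hN⟩ ⟨M, hM⟩
      refine ⟨max N M, ?_⟩
      rintro w (hw | hw)
      · obtain ⟨k, h1, h2, h3⟩ := hN w hw
        exact ⟨k, h1, h2.trans (le_max_left _ _), h3⟩
      · obtain ⟨k, h1, h2, h3⟩ := hM w hw
        exact ⟨k, h1, h2.trans (le_max_right _ _), h3⟩
    · intro w hw
      have h1 := ((hBt w hw).eventually (interior_mem_nhds.2 hBz)).and (eventually_ge_atTop 1)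
      obtain ⟨k, hk, hk1⟩ := h1.exists
      refine ⟨(f^[n0 * k]) ⁻¹' (interior B), mem_nhdsWithin_of_mem_nhds ?_, k, fun y hy => ?_⟩
      · exact (hf.iterate (n0 * k)).continuousAt.preimage_mem_nhds (isOpen_interior.mem_nhds hk)
      · exact ⟨k, hk1, le_rfl, interior_subset hy⟩
  obtain ⟨N, hN⟩ := hN
  refine ⟨⋃ i ∈ Finset.range (n0 * (N + 1)), f^[i] '' B, ?_, ?_, ?_⟩
  · exact (Finset.range (n0 * (N + 1))).isCompact_biUnion
      (fun i _ => hB.image (hf.iterate i))
  · intro x hx
    simp only [mem_iUnion] at hx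
    obtain ⟨i, _, w, hw, rfl⟩ := hx
    exact (att_iter hf w i).2 (hBA w hw)
  · intro n
    induction n using Nat.strong_induction_on with
    | _ n ih =>
      intro w hw
      by_cases hn : n < n0 * (N + 1)
      · simp only [mem_iUnion]
        exact ⟨n, Finset.mem_range.2 hn, w, hw, rfl⟩
      · obtain ⟨k, hk1, hkN, hkB⟩ := hN w hw
        have h1 : n0 * k ≤ n0 * (N + 1) := Nat.mul_le_mul_left _ (by omega)
        have h2 : 0 < n0 * k := Nat.mul_pos hn0 hk1
        have h3 := ih (n - n0 * k) (by omega) (f^[n0 * k] w) hkB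
        rw [← Function.iterate_add_apply] at h3
        have h4 : n - n0 * k + n0 * k = n := by omega
        rw [h4] at h3
        exact h3

/-- compact sets of attracted points have orbits in a compact set of attracted points -/
theorem absorb {f : OnePoint ℂ → OnePoint ℂ} (hf : Continuous f) {L : Set (OnePoint ℂ)}
    (hL : IsCompact L) (hLA : ∀ x ∈ L, Att f x) :
    ∃ L' : Set (OnePoint ℂ), IsCompact L' ∧ (∀ x ∈ L', Att f x) ∧
      ∀ n : ℕ, ∀ x ∈ L, f^[n] x ∈ L' := by
  refine IsCompact.induction_on (p := fun S => ∃ L' : Set (OnePoint ℂ), IsCompact L' ∧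
    (∀ x ∈ L', Att f x) ∧ ∀ n : ℕ, ∀ x ∈ S, f^[n] x ∈ L') hL ?_ ?_ ?_ ?_
  · exact ⟨∅, isCompact_empty, fun x hx => absurd hx (notMem_empty x),
      fun n x hx => absurd hx (notMem_empty x)⟩
  · rintro S T hST ⟨L', h1, h2, h3⟩
    exact ⟨L', h1, h2, fun n x hx => h3 n x (hST hx)⟩
  · rintro S T ⟨L', h1, h2, h3⟩ ⟨L'', h4, h5, h6⟩
    refine ⟨L' ∪ L'', h1.union h4, ?_, ?_⟩
    · rintro x (hx | hx)
      · exact h2 x hx
      · exact h5 x hx
    · rintro n x (hx | hx)
      · exact Or.inl (h3 n x hx)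
      · exact Or.inr (h6 n x hx)
  · intro x hx
    obtain ⟨z, n0, ⟨hn0, hz, U, hU, hUt⟩, hxz⟩ := hLA x hx
    obtain ⟨B, hBz, hBU, hBc⟩ := local_compact_nhds hU
    have hBA : ∀ w ∈ B, Att f w := fun w hw =>
      ⟨z, n0, ⟨hn0, hz, U, hU, hUt⟩, hUt w (hBU hw)⟩
    obtain ⟨K, hK1, hK2, hK3⟩ := absorb_ball hf hn0 hBc hBz hBA (fun w hw => hUt w (hBU hw))
    obtain ⟨k, hk⟩ := (hxz.eventually (interior_mem_nhds.2 hBz)).exists
    have hV : (f^[n0 * k]) ⁻¹' (interior B) ∈ 𝓝 x :=
      (hf.iterate (n0 * k)).continuousAt.preimage_mem_nhds (isOpen_interior.mem_nhds hk)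
    obtain ⟨C, hCx, hCV, hCc⟩ := local_compact_nhds hV
    refine ⟨C, mem_nhdsWithin_of_mem_nhds hCx,
      (⋃ i ∈ Finset.range (n0 * k), f^[i] '' C) ∪ K, ?_, ?_, ?_⟩
    · exact ((Finset.range (n0 * k)).isCompact_biUnion
        (fun i _ => hCc.image (hf.iterate i))).union hK1
    · rintro y (hy | hy)
      · simp only [mem_iUnion] at hy
        obtain ⟨i, _, w, hw, rfl⟩ := hy
        exact (att_iter hf w i).2
          ((att_iter hf w (n0 * k)).1 (hBA _ (interior_subset (hCV hw))))
      · exact hK2 y hy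
    · intro n y hy
      by_cases hn : n < n0 * k
      · left
        simp only [mem_iUnion]
        exact ⟨n, Finset.mem_range.2 hn, y, hy, rfl⟩
      · right
        have h3 := hK3 (n - n0 * k) (f^[n0 * k] y) (interior_subset (hCV hy))
        rw [← Function.iterate_add_apply] at h3
        have h4 : n - n0 * k + n0 * k = n := by omega
        rw [h4] at h3
        exact h3

end Pool.Agent.H32.BT
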