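import Pool.Agent.H32.BT.Trap
import Pool.Agent.H32.BT.Mult

set_option autoImplicit false

open Filter Topology Polynomial OnePoint Metric Set

namespace Pool.Agent.H32.BT

open Pool.Agent.H44.Fatou

/-
f = rat (Pt A B w0 t0) B. Att at w0: sink (z, n0), z finite since infinity is not attracted. sink_mult gives
x and multiplier < 1; put d = e + 1, v(t) = (cf d (Pt A B w0 t), cf d B), continuous in t.
trap_per at v(t0) gives r, q, L. Some m (multiple of n0) has hh m t0 in ball z r, hence hh m t in the ball for t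
near t0 (continuity of hh m, differentiable on ball 0 del). it (v t) j (hh m t) = hh (m + j) t
(ev_cf; B.eval not 0). With p = n0: hh (m + n0 k + i) t = it (v t) i (hh (m + n0 k) t) for i <= n0, all hh (m + n0 k) t
in the ball, and the differences contract: |hh (m+n0(k+1)) t - hh (m+n0 k) t| <= q^k * 2r; for
general i write i = n0 i1 + i2, i2 < n0 and use the Lipschitz constant L. Bound C: max over n < m by
continuity near t0 (shrink eta), L for n >= m (here |it v j z| <= L).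
-/

theorem contr_coeff (A B : Polynomial ℂ) (w0 : ℂ) (i : ℕ) :
    Continuous (fun t : ℂ => (Pt A B w0 t).coeff i) := by
  have h : (fun t : ℂ => (Pt A B w0 t).coeff i) = fun t : ℂ =>
      (C w0 * B + (A - C w0 * B)).coeff i + t * ((A - C w0 * B) * X).coeff i := by
    funext t
    have h1 : Pt A B w0 t = (C w0 * B + (A - C w0 * B)) + C t * ((A - C w0 * B) * X) := by
      unfold Pt
      ring
    rw [h1, coeff_add, coeff_C_mul]
  rw [h]
  exact continuous_const.add (continuous_id.mul continuous_const)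

theorem contr_cont (A B : Polynomial ℂ) (w0 : ℂ) (d : ℕ) :
    Continuous (fun t : ℂ => (cf d (Pt A B w0 t), cf d B)) := by
  refine Continuous.prodMk ?_ continuous_const
  exact continuous_pi fun i => contr_coeff A B w0 i

theorem contr_it {A B : Polynomial ℂ} {w0 t : ℂ} {d : ℕ} (hP : (Pt A B w0 t).natDegree ≤ d)
    (hB : B.natDegree ≤ d) (hne : ∀ n : ℕ, B.eval (hh A B w0 n t) ≠ 0) (a : ℕ) :
    ∀ j : ℕ, hh A B w0 (a + j) t = it (cf d (Pt A B w0 t), cf d B) j (hh A B w0 a t)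
  | 0 => rfl
  | j + 1 => by
    have ih := contr_it hP hB hne a j
    have h1 := hne (a + j)
    rw [← Nat.add_assoc]
    simp only [hh, it]
    rw [← ih, ev_cf hP, ev_cf hB]
    unfold Pt
    simp only [eval_add, eval_mul, eval_C, eval_sub, eval_one, eval_X]
    field_simp

theorem local_contr {A B : Polynomial ℂ} {w0 : ℂ} {e : ℕ} (hcop : IsCoprime A B) {δ : ℝ}
    (hδ : 0 < δ)
    (hfam : ∀ t : ℂ, t ≠ 0 → ‖t‖ < δ →
      IsCoprime (Pt A B w0 t) B ∧ max (Pt A B w0 t).natDegree B.natDegree = e + 1 ∧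
      ¬ Att (rat (Pt A B w0 t) B) ∞ ∧ Att (rat (Pt A B w0 t) B) (w0 : OnePoint ℂ))
    (hspec : ∀ t : ℂ, ‖t‖ < δ → ∀ n : ℕ, B.eval (hh A B w0 n t) ≠ 0 ∧
      (rat (Pt A B w0 t) B)^[n] (w0 : OnePoint ℂ) = (hh A B w0 n t : OnePoint ℂ))
    (hdiff : ∀ n : ℕ, DifferentiableOn ℂ (hh A B w0 n) (ball 0 δ))
    (t0 : ℂ) (ht0 : t0 ≠ 0) (ht0' : ‖t0‖ < δ) :
    ∃ (p m : ℕ) (q C η : ℝ), 0 < p ∧ 0 ≤ q ∧ q < 1 ∧ 0 < η ∧ ∀ t ∈ ball t0 η,
      (∀ n, ‖hh A B w0 n t‖ ≤ C) ∧
      ∀ i k : ℕ, ‖hh A B w0 (m + i + p * (k + 1)) t - hh A B w0 (m + i + p * k) t‖ ≤ C * q ^ k := by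
  obtain ⟨hc0, hd0, hinf, z, n0, hsink, htend⟩ := hfam t0 ht0 ht0'
  -- the sink is finite
  obtain ⟨z', rfl⟩ : ∃ z' : ℂ, z = (z' : OnePoint ℂ) := by
    induction z using OnePoint.rec with
    | infty => exact absurd (att_sink hsink) hinf
    | coe z' => exact ⟨z', rfl⟩
  obtain ⟨x, hx0, hxj, hQx, hPx, hxn, hmul⟩ := sink_mult hc0 (by omega) hinf hsink
  have hPd : (Pt A B w0 t0).natDegree ≤ e + 1 := by
    rw [← hd0]
    exact le_max_left _ _
  have hBd : B.natDegree ≤ e + 1 := by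
    rw [← hd0]
    exact le_max_right _ _
  have hn0 : 0 < n0 := hsink.1
  obtain ⟨r, q, L, hr, hq0, hq1, hL, -, hev⟩ :=
    trap_per (cf (e + 1) (Pt A B w0 t0), cf (e + 1) B) x n0 hn0 hxn
      (fun j _ => by
        show ev (cf (e + 1) B) (x j) ≠ 0
        rw [ev_cf hBd]
        exact hQx j)
      (fun j _ => by
        show ev (cf (e + 1) (Pt A B w0 t0)) (x j) / ev (cf (e + 1) B) (x j) = x (j + 1)
        rw [ev_cf hBd, ev_cf hPd]
        exact hPx j)
      (by
        have h1 : ∏ j ∈ Finset.range n0, wv (cf (e + 1) (Pt A B w0 t0), cf (e + 1) B) (x j) /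
            ev (cf (e + 1) (Pt A B w0 t0), cf (e + 1) B).2 (x j) ^ 2 =
            ∏ j ∈ Finset.range n0, (Wr (Pt A B w0 t0) B).eval (x j) / (B.eval (x j)) ^ 2 := by
          refine Finset.prod_congr rfl fun j _ => ?_
          rw [wv_cf hPd hBd]
          show _ / ev (cf (e + 1) B) (x j) ^ 2 = _
          rw [ev_cf hBd]
        rw [h1]
        exact hmul)
      Set.univ Filter.univ_mem
  rw [hx0] at hev
  have hev2 := (contr_cont A B w0 (e + 1)).continuousAt (x := t0) |>.eventually hev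
  -- entry into the trap
  have hball : (fun z : ℂ => (z : OnePoint ℂ)) '' ball z' r ∈ 𝓝 (z' : OnePoint ℂ) :=
    (OnePoint.isOpenEmbedding_coe.isOpenMap _ isOpen_ball).mem_nhds ⟨z', mem_ball_self hr, rfl⟩
  obtain ⟨K, hK⟩ := (htend.eventually hball).exists
  set m := n0 * K with hm
  have hmt0 : hh A B w0 m t0 ∈ ball z' r := by
    obtain ⟨y, hy, hy2⟩ := hK
    rw [(hspec t0 ht0' m).2] at hy2
    have h3 : y = hh A B w0 m t0 := OnePoint.coe_injective hy2
    rw [← h3]
    exact hy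
  have ht0b : ball (0 : ℂ) δ ∈ 𝓝 t0 := isOpen_ball.mem_nhds (by rwa [mem_ball_zero_iff])
  have hcont : ∀ n, ContinuousAt (hh A B w0 n) t0 := fun n =>
    ((hdiff n).differentiableAt ht0b).continuousAt
  have hev3 : ∀ᶠ t in 𝓝 t0, hh A B w0 m t ∈ ball z' r :=
    (hcont m).eventually (isOpen_ball.mem_nhds hmt0)
  have hev4 : ∀ᶠ t in 𝓝 t0, ∀ n ∈ Finset.range m, ‖hh A B w0 n t‖ < ‖hh A B w0 n t0‖ + 1 := by
    rw [Filter.eventually_all_finset]
    intro n _
    exact (hcont n).norm.eventually (gt_mem_nhds (lt_add_one _))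
  have hev5 : ∀ᶠ t in 𝓝 t0, t ≠ 0 := eventually_ne_nhds ht0
  have hev6 : ∀ᶠ t in 𝓝 t0, t ∈ ball (0 : ℂ) δ := ht0b
  obtain ⟨η, hη, hηball⟩ := Metric.eventually_nhds_iff_ball.1
    (hev2.and (hev3.and (hev4.and (hev5.and hev6))))
  set S : ℝ := ∑ n ∈ Finset.range m, (‖hh A B w0 n t0‖ + 1) with hS
  have hS0 : 0 ≤ S := by positivity
  have hLr0 : 0 ≤ L * (2 * r) := by positivity
  have hC1 : L * (2 * r) ≤ L + L * (2 * r) + S := by linarith
  have hC2 : L ≤ L + L * (2 * r) + S := by linarith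
  have hC3 : S ≤ L + L * (2 * r) + S := by linarith
  refine ⟨n0, m, q, L + L * (2 * r) + S, η, hn0, hq0, hq1, hη, ?_⟩
  intro t ht
  obtain ⟨g1, g2, g3, g4, g5⟩ := hηball t ht
  rw [mem_ball_zero_iff] at g5
  obtain ⟨-, hd1, -, -⟩ := hfam t g4 g5
  have hPd1 : (Pt A B w0 t).natDegree ≤ e + 1 := by
    rw [← hd1]
    exact le_max_left _ _
  have hit := contr_it hPd1 hBd (fun n => (hspec t g5 n).1)
  have hin : ∀ k : ℕ, hh A B w0 (m + n0 * k) t ∈ closedBall z' r := by
    intro k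
    induction k with
    | zero =>
      rw [Nat.mul_zero, Nat.add_zero]
      exact ball_subset_closedBall g2
    | succ k ih =>
      rw [Nat.mul_succ, ← Nat.add_assoc, hit]
      exact ball_subset_closedBall (g1 _ ih).2.1
  have hD : ∀ k : ℕ, ‖hh A B w0 (m + n0 * (k + 1)) t - hh A B w0 (m + n0 * k) t‖ ≤
      q ^ k * (2 * r) := by
    intro k
    induction k with
    | zero =>
      have h1 := hin 1
      have h2 := hin 0
      rw [mem_closedBall, dist_eq_norm] at h1 h2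
      rw [pow_zero, one_mul]
      calc ‖hh A B w0 (m + n0 * (0 + 1)) t - hh A B w0 (m + n0 * 0) t‖
          = ‖(hh A B w0 (m + n0 * 1) t - z') - (hh A B w0 (m + n0 * 0) t - z')‖ := by
            rw [sub_sub_sub_cancel_right]
        _ ≤ ‖hh A B w0 (m + n0 * 1) t - z'‖ + ‖hh A B w0 (m + n0 * 0) t - z'‖ := norm_sub_le _ _
        _ ≤ 2 * r := by linarith
    | succ k ih =>
      have e1 : hh A B w0 (m + n0 * (k + 1 + 1)) t =
          it (cf (e + 1) (Pt A B w0 t), cf (e + 1) B) n0 (hh A B w0 (m + n0 * (k + 1)) t) := by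
        rw [Nat.mul_succ n0 (k + 1), ← Nat.add_assoc, hit]
      have e2 : hh A B w0 (m + n0 * (k + 1)) t =
          it (cf (e + 1) (Pt A B w0 t), cf (e + 1) B) n0 (hh A B w0 (m + n0 * k) t) := by
        rw [Nat.mul_succ n0 k, ← Nat.add_assoc, hit]
      calc ‖hh A B w0 (m + n0 * (k + 1 + 1)) t - hh A B w0 (m + n0 * (k + 1)) t‖
          = ‖it (cf (e + 1) (Pt A B w0 t), cf (e + 1) B) n0 (hh A B w0 (m + n0 * (k + 1)) t) -
              it (cf (e + 1) (Pt A B w0 t), cf (e + 1) B) n0 (hh A B w0 (m + n0 * k) t)‖ := by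
            rw [e1, ← e2]
        _ ≤ q * ‖hh A B w0 (m + n0 * (k + 1)) t - hh A B w0 (m + n0 * k) t‖ :=
            ((g1 _ (hin (k + 1))).2.2.2 _ (hin k)).1
        _ ≤ q * (q ^ k * (2 * r)) := mul_le_mul_of_nonneg_left ih hq0
        _ = q ^ (k + 1) * (2 * r) := by ring
  refine ⟨?_, ?_⟩
  · intro n
    rcases lt_or_ge n m with hnm | hnm
    · have h1 := g3 n (Finset.mem_range.2 hnm)
      have h2 : ‖hh A B w0 n t0‖ + 1 ≤ S :=
        Finset.single_le_sum (f := fun n => ‖hh A B w0 n t0‖ + 1) (fun i _ => by positivity)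
          (Finset.mem_range.2 hnm)
      exact ((h1.le.trans h2).trans hC3)
    · have h1 : n = m + n0 * ((n - m) / n0) + (n - m) % n0 := by
        have := Nat.div_add_mod (n - m) n0
        omega
      have h2 : (n - m) % n0 ≤ n0 := (Nat.mod_lt _ hn0).le
      rw [h1, hit]
      have h3 := (g1 _ (hin ((n - m) / n0))).2.2.1 _ h2
      exact h3.trans hC2
  · intro i k
    have h2 : i % n0 ≤ n0 := (Nat.mod_lt _ hn0).le
    have hi := Nat.div_add_mod i n0
    have e1 : m + i + n0 * (k + 1) = m + n0 * (i / n0 + k + 1) + i % n0 := by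
      have : n0 * (i / n0 + k + 1) = n0 * (i / n0) + n0 * (k + 1) := by ring
      omega
    have e2 : m + i + n0 * k = m + n0 * (i / n0 + k) + i % n0 := by
      have : n0 * (i / n0 + k) = n0 * (i / n0) + n0 * k := by ring
      omega
    rw [e1, e2, hit (m + n0 * (i / n0 + k + 1)) (i % n0), hit (m + n0 * (i / n0 + k)) (i % n0)]
    have h3 := ((g1 _ (hin (i / n0 + k + 1))).2.2.2 _ (hin (i / n0 + k))).2 _ h2
    have h4 : q ^ (i / n0 + k) ≤ q ^ k := pow_le_pow_of_le_one hq0 hq1.le (Nat.le_add_left _ _)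
    calc _ ≤ L * ‖hh A B w0 (m + n0 * (i / n0 + k + 1)) t - hh A B w0 (m + n0 * (i / n0 + k)) t‖ := h3
      _ ≤ L * (q ^ (i / n0 + k) * (2 * r)) := mul_le_mul_of_nonneg_left (hD _) hL
      _ ≤ L * (q ^ k * (2 * r)) := by
          refine mul_le_mul_of_nonneg_left ?_ hL
          exact mul_le_mul_of_nonneg_right h4 (by positivity)
      _ = L * (2 * r) * q ^ k := by ring
      _ ≤ (L + L * (2 * r) + S) * q ^ k := mul_le_mul_of_nonneg_right hC1 (pow_nonneg hq0 k)

end Pool.Agent.H32.BT
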