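import Pool.Agent.H32.BT.Defs

set_option autoImplicit false

open Filter Topology Polynomial OnePoint Metric Set

namespace Pool.Agent.H32.BT

open Pool.Agent.H44.Fatou

/-
disc_of_circle: the circle |t| = del/2 is compact: finitely many balls ball (t_i) (eta_i) cover
it; p = product of the p_i, m = sum (or max) of the m_i, q = max, C = large (C_i * p is enough):
for t in ball i, with p = p_i * l, the difference u (m+i'+p(k+1)) - u (m+i'+p k) is a sum of l
differences with step p_i, each <= C_i q_i^(l k + s) <= C_i q^k. Then the maximum principle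
(Complex.norm_le_of_forall_mem_frontier_norm_le) on closedBall 0 (del/2).
limit_cycle: a i t = lim; the sequence k -> u (m+i+p k) is uniformly Cauchy by the geometric bound;
TendstoLocallyUniformlyOn.differentiableOn.
-/

theorem refine_const {x : ℕ → ℂ} {p0 m0 l m : ℕ} {q0 C0 q C : ℝ} (hq0 : 0 ≤ q0)
    (hq00 : q0 < 1) (hl : 1 ≤ l) (hm : m0 ≤ m) (hq : q0 ≤ q) (hC : (l : ℝ) * C0 ≤ C)
    (h0 : ∀ n, ‖x n‖ ≤ C0)
    (h : ∀ i k : ℕ, ‖x (m0 + i + p0 * (k + 1)) - x (m0 + i + p0 * k)‖ ≤ C0 * q0 ^ k) :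
    (∀ n, ‖x n‖ ≤ C) ∧
      ∀ i k : ℕ, ‖x (m + i + (p0 * l) * (k + 1)) - x (m + i + (p0 * l) * k)‖ ≤ C * q ^ k := by
  have hC0 : 0 ≤ C0 := (norm_nonneg _).trans (h0 0)
  have hl' : (1 : ℝ) ≤ l := by exact_mod_cast hl
  refine ⟨fun n => (h0 n).trans (le_trans ?_ hC), fun i k => ?_⟩
  · nlinarith
  · have h1 : x (m + i + (p0 * l) * (k + 1)) - x (m + i + (p0 * l) * k) =
        ∑ s ∈ Finset.range l, (x (m0 + ((m - m0) + i) + p0 * ((l * k + s) + 1)) -
          x (m0 + ((m - m0) + i) + p0 * (l * k + s))) := by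
      have h2 := Finset.sum_range_sub (fun s => x (m0 + ((m - m0) + i) + p0 * (l * k + s))) l
      have h3 : m0 + ((m - m0) + i) + p0 * (l * k + l) = m + i + (p0 * l) * (k + 1) := by
        have : m0 + ((m - m0) + i) = m + i := by omega
        rw [this]
        ring
      have h4 : m0 + ((m - m0) + i) + p0 * (l * k + 0) = m + i + (p0 * l) * k := by
        have : m0 + ((m - m0) + i) = m + i := by omega
        rw [this]
        ring
      rw [h3, h4] at h2
      rw [← h2]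
      rfl
    rw [h1]
    refine (norm_sum_le _ _).trans ?_
    have h5 : ∀ s ∈ Finset.range l, ‖x (m0 + ((m - m0) + i) + p0 * ((l * k + s) + 1)) -
        x (m0 + ((m - m0) + i) + p0 * (l * k + s))‖ ≤ C0 * q ^ k := by
      intro s _
      refine (h _ _).trans (mul_le_mul_of_nonneg_left ?_ hC0)
      have h6 : k ≤ l * k + s := by nlinarith
      exact (pow_le_pow_of_le_one hq0 hq00.le h6).trans (pow_le_pow_left₀ hq0 hq k)
    refine (Finset.sum_le_sum h5).trans ?_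
    rw [Finset.sum_const, Finset.card_range, nsmul_eq_mul, ← mul_assoc]
    exact mul_le_mul_of_nonneg_right hC (pow_nonneg (hq0.trans hq) k)

theorem disc_of_circle {δ : ℝ} (hδ : 0 < δ) (u : ℕ → ℂ → ℂ)
    (hu : ∀ n, DifferentiableOn ℂ (u n) (ball 0 δ))
    (hloc : ∀ t0 : ℂ, t0 ≠ 0 → ‖t0‖ < δ → ∃ (p m : ℕ) (q C η : ℝ), 0 < p ∧ 0 ≤ q ∧ q < 1 ∧
      0 < η ∧ ∀ t ∈ ball t0 η, (∀ n, ‖u n t‖ ≤ C) ∧
        ∀ i k : ℕ, ‖u (m + i + p * (k + 1)) t - u (m + i + p * k) t‖ ≤ C * q ^ k) :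
    ∃ (p m : ℕ) (q C : ℝ), 0 < p ∧ 0 ≤ q ∧ q < 1 ∧ ∀ t ∈ closedBall (0 : ℂ) (δ / 2),
      (∀ n, ‖u n t‖ ≤ C) ∧
        ∀ i k : ℕ, ‖u (m + i + p * (k + 1)) t - u (m + i + p * k) t‖ ≤ C * q ^ k := by
  have key : ∃ (p m : ℕ) (q C : ℝ), 0 < p ∧ 0 ≤ q ∧ q < 1 ∧ ∀ t ∈ sphere (0 : ℂ) (δ / 2),
      (∀ n, ‖u n t‖ ≤ C) ∧
        ∀ i k : ℕ, ‖u (m + i + p * (k + 1)) t - u (m + i + p * k) t‖ ≤ C * q ^ k := by
    refine IsCompact.induction_on (p := fun S : Set ℂ => ∃ (p m : ℕ) (q C : ℝ), 0 < p ∧ 0 ≤ q ∧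
      q < 1 ∧ ∀ t ∈ S, (∀ n, ‖u n t‖ ≤ C) ∧
        ∀ i k : ℕ, ‖u (m + i + p * (k + 1)) t - u (m + i + p * k) t‖ ≤ C * q ^ k)
      (isCompact_sphere (0 : ℂ) (δ / 2)) ?_ ?_ ?_ ?_
    · exact ⟨1, 0, 0, 0, one_pos, le_rfl, zero_lt_one, fun t ht => absurd ht (notMem_empty t)⟩
    · rintro S T hST ⟨p, m, q, C, h1, h2, h3, h4⟩
      exact ⟨p, m, q, C, h1, h2, h3, fun t ht => h4 t (hST ht)⟩
    · rintro S T ⟨p1, m1, q1, C1, a1, b1, c1, d1⟩ ⟨p2, m2, q2, C2, a2, b2, c2, d2⟩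
      refine ⟨p1 * p2, max m1 m2, max q1 q2, p2 * |C1| + p1 * |C2|, Nat.mul_pos a1 a2,
        b1.trans (le_max_left _ _), max_lt c1 c2, ?_⟩
      have hp1 : (0 : ℝ) ≤ p1 := Nat.cast_nonneg _
      have hp2 : (0 : ℝ) ≤ p2 := Nat.cast_nonneg _
      rintro t (ht | ht)
      · refine refine_const b1 c1 (l := p2) a2 (le_max_left _ _) (le_max_left _ _) ?_
          (d1 t ht).1 (d1 t ht).2
        have h1 : (p2 : ℝ) * C1 ≤ p2 * |C1| := mul_le_mul_of_nonneg_left (le_abs_self _) hp2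
        have h2 : (0 : ℝ) ≤ p1 * |C2| := mul_nonneg hp1 (abs_nonneg _)
        linarith
      · rw [mul_comm p1 p2]
        refine refine_const b2 c2 (l := p1) a1 (le_max_right _ _) (le_max_right _ _) ?_
          (d2 t ht).1 (d2 t ht).2
        have h1 : (p1 : ℝ) * C2 ≤ p1 * |C2| := mul_le_mul_of_nonneg_left (le_abs_self _) hp1
        have h2 : (0 : ℝ) ≤ p2 * |C1| := mul_nonneg hp2 (abs_nonneg _)
        linarith
    · intro t0 ht0
      have h1 : ‖t0‖ = δ / 2 := by simpa using ht0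
      have h2 : t0 ≠ 0 := by
        rintro rfl
        rw [norm_zero] at h1
        linarith
      obtain ⟨p, m, q, C, η, e1, e2, e3, e4, e5⟩ := hloc t0 h2 (by rw [h1]; linarith)
      exact ⟨ball t0 η, mem_nhdsWithin_of_mem_nhds (ball_mem_nhds t0 e4),
        p, m, q, C, e1, e2, e3, e5⟩
  obtain ⟨p, m, q, C, h1, h2, h3, h4⟩ := key
  refine ⟨p, m, q, C, h1, h2, h3, ?_⟩
  have hsub : closedBall (0 : ℂ) (δ / 2) ⊆ ball 0 δ := closedBall_subset_ball (by linarith)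
  have hδ2 : δ / 2 ≠ 0 := by positivity
  have hdc : ∀ n, DiffContOnCl ℂ (u n) (ball 0 (δ / 2)) := fun n => by
    refine DifferentiableOn.diffContOnCl ((hu n).mono ?_)
    rw [closure_ball _ hδ2]
    exact hsub
  intro t ht
  have ht' : t ∈ closure (ball (0 : ℂ) (δ / 2)) := by rwa [closure_ball _ hδ2]
  constructor
  · intro n
    refine Complex.norm_le_of_forall_mem_frontier_norm_le isBounded_ball (hdc n) ?_ ht'
    intro z hz
    rw [frontier_ball _ hδ2] at hz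
    exact (h4 z hz).1 n
  · intro i k
    refine Complex.norm_le_of_forall_mem_frontier_norm_le
      (f := fun t => u (m + i + p * (k + 1)) t - u (m + i + p * k) t) isBounded_ball
      ((hdc _).sub (hdc _)) ?_ ht'
    intro z hz
    rw [frontier_ball _ hδ2] at hz
    exact (h4 z hz).2 i k

theorem limit_cycle {ρ : ℝ} (hρ : 0 < ρ) (u : ℕ → ℂ → ℂ) {p m : ℕ} {q C : ℝ} (hp : 0 < p)
    (hq0 : 0 ≤ q) (hq1 : q < 1) (hu : ∀ n, DifferentiableOn ℂ (u n) (ball 0 ρ))
    (hb : ∀ t ∈ ball (0 : ℂ) ρ, (∀ n, ‖u n t‖ ≤ C) ∧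
        ∀ i k : ℕ, ‖u (m + i + p * (k + 1)) t - u (m + i + p * k) t‖ ≤ C * q ^ k) :
    ∃ a : ℕ → ℂ → ℂ, (∀ i, DifferentiableOn ℂ (a i) (ball 0 ρ)) ∧
      (∀ i, ∀ t ∈ ball (0 : ℂ) ρ, a (i + p) t = a i t) ∧
      ∀ i, ∀ t ∈ ball (0 : ℂ) ρ, Tendsto (fun k => u (m + i + p * k) t) atTop (𝓝 (a i t)) := by
  have hdist : ∀ i, ∀ t ∈ ball (0 : ℂ) ρ, ∀ k : ℕ,
      dist (u (m + i + p * k) t) (u (m + i + p * (k + 1)) t) ≤ C * q ^ k := by
    intro i t ht k
    rw [dist_comm, dist_eq_norm]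
    exact (hb t ht).2 i k
  have hlim : ∀ i, ∀ t ∈ ball (0 : ℂ) ρ, Tendsto (fun k => u (m + i + p * k) t) atTop
      (𝓝 (limUnder atTop (fun k => u (m + i + p * k) t))) := by
    intro i t ht
    exact tendsto_nhds_limUnder
      (cauchySeq_tendsto_of_complete (cauchySeq_of_le_geometric q C hq1 (hdist i t ht)))
  refine ⟨fun i t => limUnder atTop (fun k => u (m + i + p * k) t), ?_, ?_, hlim⟩
  · intro i
    have hC0 : 0 ≤ C := (norm_nonneg _).trans ((hb 0 (mem_ball_self hρ)).1 0)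
    have hunif : TendstoUniformlyOn (fun k t => u (m + i + p * k) t)
        (fun t => limUnder atTop (fun k => u (m + i + p * k) t)) atTop (ball 0 ρ) := by
      rw [Metric.tendstoUniformlyOn_iff]
      intro ε hε
      have h1 : Tendsto (fun k : ℕ => C * q ^ k / (1 - q)) atTop (𝓝 0) := by
        have h2 := (tendsto_pow_atTop_nhds_zero_of_lt_one hq0 hq1).const_mul C
        have h3 := h2.div_const (1 - q)
        simpa using h3
      filter_upwards [h1.eventually (gt_mem_nhds hε)] with k hk t ht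
      rw [dist_comm]
      exact (dist_le_of_le_geometric_of_tendsto q C hq1 (hdist i t ht) (hlim i t ht) k).trans_lt hk
    exact hunif.tendstoLocallyUniformlyOn.differentiableOn
      (Eventually.of_forall fun k => hu _) isOpen_ball
  · intro i t ht
    have h1 := hlim (i + p) t ht
    have h2 := (hlim i t ht).comp (tendsto_add_atTop_nat 1)
    have h3 : (fun k => u (m + (i + p) + p * k) t) =
        (fun k => u (m + i + p * k) t) ∘ fun k => k + 1 := by
      funext k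
      simp only [Function.comp_apply]
      congr 1
      ring
    have h4 : Tendsto (fun k => u (m + (i + p) + p * k) t) atTop
        (𝓝 (limUnder atTop (fun k => u (m + i + p * k) t))) := by
      rw [h3]
      exact h2
    exact tendsto_nhds_unique h1 h4

end Pool.Agent.H32.BT
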