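import Pool.Agent.H32.BT.Top

set_option autoImplicit false

open Filter Topology Polynomial OnePoint Metric Set

namespace Pool.Agent.H32.BT

open Pool.Agent.H44.Fatou

/-
Pt A B w0 0 = A. For every t in the ball the orbit of w0 is finite: t = 0 by h0; t not 0: Att is
preserved (att_iter) and infinity is not attracted. Induction on n: rat (Pt) B at the finite point
y = hh n t is finite, so B y is not 0 (coprime_eval), and Pt y / B y = w0 + (A y / B y - w0)(1 + t y).
Differentiability by induction.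
-/

private theorem Pt_zero (A B : Polynomial ℂ) (w0 : ℂ) : Pt A B w0 0 = A := by
  simp [Pt]

private theorem ne_zero_of_fin {P Q : Polynomial ℂ} {z y : ℂ}
    (h : rat P Q (z : OnePoint ℂ) = (y : OnePoint ℂ)) : Q.eval z ≠ 0 := by
  intro h0
  rw [rat_coe, h0, pt, if_pos rfl] at h
  exact OnePoint.infty_ne_coe y h

theorem hh_spec {A B : Polynomial ℂ} {w0 : ℂ} (hcop : IsCoprime A B) {δ : ℝ} (hδ : 0 < δ)
    (hfam : ∀ t : ℂ, t ≠ 0 → ‖t‖ < δ →
      IsCoprime (Pt A B w0 t) B ∧ ¬ Att (rat (Pt A B w0 t) B) ∞ ∧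
        Att (rat (Pt A B w0 t) B) (w0 : OnePoint ℂ))
    (h0 : ∀ n : ℕ, ∃ y : ℂ, (rat A B)^[n] (w0 : OnePoint ℂ) = (y : OnePoint ℂ)) :
    (∀ t : ℂ, ‖t‖ < δ → ∀ n : ℕ, B.eval (hh A B w0 n t) ≠ 0 ∧
      (rat (Pt A B w0 t) B)^[n] (w0 : OnePoint ℂ) = (hh A B w0 n t : OnePoint ℂ)) ∧
    ∀ n : ℕ, DifferentiableOn ℂ (hh A B w0 n) (ball 0 δ) := by
  have hfin : ∀ t : ℂ, ‖t‖ < δ → ∀ n : ℕ,
      ∃ y : ℂ, (rat (Pt A B w0 t) B)^[n] (w0 : OnePoint ℂ) = (y : OnePoint ℂ) := by
    intro t ht n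
    by_cases h : t = 0
    · subst h
      rw [Pt_zero]
      exact h0 n
    · obtain ⟨h1, h2, h3⟩ := hfam t h ht
      have h4 : (rat (Pt A B w0 t) B)^[n] (w0 : OnePoint ℂ) ≠ ∞ := by
        intro h5
        apply h2
        rw [← h5]
        exact (att_iter (rat_continuous h1) _ n).2 h3
      obtain ⟨y, hy⟩ := OnePoint.ne_infty_iff_exists.1 h4
      exact ⟨y, hy.symm⟩
  have hB : ∀ t : ℂ, ‖t‖ < δ → ∀ n : ℕ,
      (rat (Pt A B w0 t) B)^[n] (w0 : OnePoint ℂ) = (hh A B w0 n t : OnePoint ℂ) →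
        B.eval (hh A B w0 n t) ≠ 0 := by
    intro t ht n hn
    obtain ⟨y, hy⟩ := hfin t ht (n + 1)
    rw [Function.iterate_succ_apply', hn] at hy
    exact ne_zero_of_fin hy
  have key : ∀ t : ℂ, ‖t‖ < δ → ∀ n : ℕ,
      (rat (Pt A B w0 t) B)^[n] (w0 : OnePoint ℂ) = (hh A B w0 n t : OnePoint ℂ) := by
    intro t ht n
    induction n with
    | zero => rfl
    | succ n ih =>
      have hb := hB t ht n ih
      rw [Function.iterate_succ_apply', ih, rat_coe_of_ne hb]
      congr 1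
      simp only [Pt, hh, eval_add, eval_sub, eval_mul, eval_C, eval_X, eval_one]
      field_simp
  refine ⟨fun t ht n => ⟨hB t ht n (key t ht n), key t ht n⟩, ?_⟩
  intro n
  induction n with
  | zero => exact differentiableOn_const _
  | succ n ih =>
    have hA' : DifferentiableOn ℂ (fun t => A.eval (hh A B w0 n t)) (ball 0 δ) :=
      A.differentiable.comp_differentiableOn ih
    have hB' : DifferentiableOn ℂ (fun t => B.eval (hh A B w0 n t)) (ball 0 δ) :=
      B.differentiable.comp_differentiableOn ih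
    have hq : DifferentiableOn ℂ
        (fun t => A.eval (hh A B w0 n t) / B.eval (hh A B w0 n t)) (ball 0 δ) := by
      refine hA'.div hB' (fun t ht => ?_)
      rw [mem_ball_zero_iff] at ht
      exact hB t ht n (key t ht n)
    exact (differentiableOn_const w0).add
      ((hq.sub (differentiableOn_const w0)).mul
        ((differentiableOn_const 1).add (differentiableOn_id.mul ih)))

end Pool.Agent.H32.BT
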