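import Pool.Agent.H32.BT.Mult

set_option autoImplicit false

open Filter Topology Polynomial OnePoint Metric Set

namespace Pool.Agent.H32.BT

open Pool.Agent.H44.Fatou

/-
f_t = rat (Pt A B w0 t) B (t = 0: rat A B). By continuity of f_t, f_t (a i t) = a (i+1) t as points
of the sphere: f_t (hh (m+i+p k) t) = hh (m+(i+1)+p k) t. So B(a i t) is not 0 and
Pt(a i t)/B(a i t) = a (i+1) t. M(t) = prod over i < p of Wr (Pt A B w0 t) B at a i t divided by
B(a i t)^2 is differentiable on ball 0 del (Wr (Pt) B at z is a polynomial in t and z). For t not 0: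
let (z, n0) be the sink of w0, f^[n0 k] w0 -> z. For k >= m one has
n0 p k = m + (p m - m) + p (n0 k - m), so z = a i0 t with i0 = p m - m, and z is a sink with n0 * p
(isSink_mul). sink_mult gives x j = a (i0 + j) t and modulus < 1 for the product over n0 * p terms,
which is M(t)^n0 (periodicity of a). So |M(t)| < 1 for t not 0, and |M(0)| < 1 by the maximum
principle on closedBall 0 (del/2) (maximum over the compact circle).
-/

theorem Pt_zero (A B : Polynomial ℂ) (w0 : ℂ) : Pt A B w0 0 = A := by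
  unfold Pt
  simp

theorem Pt_eval (A B : Polynomial ℂ) (w0 t z : ℂ) : (Pt A B w0 t).eval z =
    w0 * B.eval z + (A.eval z - w0 * B.eval z) * (1 + t * z) := by
  unfold Pt
  simp

theorem Wr_Pt_eval (A B : Polynomial ℂ) (w0 t z : ℂ) : (Wr (Pt A B w0 t) B).eval z =
    (w0 * (derivative B).eval z +
      (((derivative A).eval z - w0 * (derivative B).eval z) * (1 + t * z) +
        (A.eval z - w0 * B.eval z) * t)) * B.eval z -
    (w0 * B.eval z + (A.eval z - w0 * B.eval z) * (1 + t * z)) * (derivative B).eval z := by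
  unfold Wr
  rw [eval_sub, eval_mul, eval_mul, Pt_eval]
  congr 2
  unfold Pt
  simp only [derivative_add, derivative_mul, derivative_sub, derivative_C, derivative_X,
    derivative_one, zero_mul, zero_add, eval_add, eval_mul, eval_sub, eval_C, eval_X, eval_one,
    mul_one]

theorem prod_shift_one {p : ℕ} (hp : 0 < p) (c : ℕ → ℂ) (hc : ∀ j, c (j + p) = c j) :
    ∏ j ∈ Finset.range p, c (j + 1) = ∏ j ∈ Finset.range p, c j := by
  obtain ⟨p', rfl⟩ : ∃ p', p = p' + 1 := ⟨p - 1, by omega⟩
  rw [Finset.prod_range_succ, Finset.prod_range_succ']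
  congr 1
  have := hc 0
  rwa [zero_add] at this

theorem prod_shift {p : ℕ} (hp : 0 < p) (c : ℕ → ℂ) (hc : ∀ j, c (j + p) = c j) (i : ℕ) :
    ∏ j ∈ Finset.range p, c (i + j) = ∏ j ∈ Finset.range p, c j := by
  induction i with
  | zero => simp
  | succ i ih =>
    rw [← ih]
    have h1 := prod_shift_one hp (fun j => c (i + j)) (fun j => by
      rw [← add_assoc]
      exact hc _)
    rw [← h1]
    refine Finset.prod_congr rfl fun j _ => ?_
    congr 1
    ring

theorem prod_mul_period {p : ℕ} (hp : 0 < p) (c : ℕ → ℂ) (hc : ∀ j, c (j + p) = c j) (n : ℕ) :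
    ∀ i, ∏ j ∈ Finset.range (n * p), c (i + j) = (∏ j ∈ Finset.range p, c j) ^ n := by
  induction n with
  | zero => simp
  | succ n ih =>
    intro i
    rw [Nat.succ_mul, Finset.prod_range_add, ih i, pow_succ]
    congr 1
    have := prod_shift hp c hc (i + n * p)
    rw [← this]
    refine Finset.prod_congr rfl fun j _ => ?_
    congr 1
    ring

theorem mult_lt {A B : Polynomial ℂ} {w0 : ℂ} {e : ℕ} (hcop : IsCoprime A B)
    (hdeg : 1 ≤ max A.natDegree B.natDegree) {δ : ℝ} (hδ : 0 < δ)
    (hfam : ∀ t : ℂ, t ≠ 0 → ‖t‖ < δ →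
      IsCoprime (Pt A B w0 t) B ∧ max (Pt A B w0 t).natDegree B.natDegree = e + 1 ∧
      ¬ Att (rat (Pt A B w0 t) B) ∞ ∧ Att (rat (Pt A B w0 t) B) (w0 : OnePoint ℂ))
    (hspec : ∀ t : ℂ, ‖t‖ < δ → ∀ n : ℕ, B.eval (hh A B w0 n t) ≠ 0 ∧
      (rat (Pt A B w0 t) B)^[n] (w0 : OnePoint ℂ) = (hh A B w0 n t : OnePoint ℂ))
    {p m : ℕ} (hp : 0 < p) (a : ℕ → ℂ → ℂ)
    (ha : ∀ i, DifferentiableOn ℂ (a i) (ball 0 δ))
    (hper : ∀ i, ∀ t ∈ ball (0 : ℂ) δ, a (i + p) t = a i t)
    (hlim : ∀ i, ∀ t ∈ ball (0 : ℂ) δ,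
      Tendsto (fun k => hh A B w0 (m + i + p * k) t) atTop (𝓝 (a i t))) :
    (∀ i, B.eval (a i 0) ≠ 0 ∧ A.eval (a i 0) / B.eval (a i 0) = a (i + 1) 0) ∧
    ‖∏ i ∈ Finset.range p, (Wr A B).eval (a i 0) / (B.eval (a i 0)) ^ 2‖ < 1 := by
  have hcopt : ∀ t ∈ ball (0 : ℂ) δ, IsCoprime (Pt A B w0 t) B := by
    intro t ht
    by_cases h0 : t = 0
    · rw [h0, Pt_zero]
      exact hcop
    · exact (hfam t h0 (by simpa using ht)).1
  -- the limit cycle is invariant
  have hinv : ∀ t ∈ ball (0 : ℂ) δ, ∀ i,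
      rat (Pt A B w0 t) B (a i t : OnePoint ℂ) = (a (i + 1) t : OnePoint ℂ) := by
    intro t ht i
    have ht' : ‖t‖ < δ := by simpa using ht
    have hcont := rat_continuous (hcopt t ht)
    have h1 : Tendsto (fun k => rat (Pt A B w0 t) B (hh A B w0 (m + i + p * k) t : OnePoint ℂ))
        atTop (𝓝 (rat (Pt A B w0 t) B (a i t : OnePoint ℂ))) :=
      (hcont.tendsto _).comp ((continuous_coe.tendsto _).comp (hlim i t ht))
    have h2 : Tendsto (fun k => (hh A B w0 (m + (i + 1) + p * k) t : OnePoint ℂ))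
        atTop (𝓝 (a (i + 1) t : OnePoint ℂ)) :=
      (continuous_coe.tendsto _).comp (hlim (i + 1) t ht)
    have h3 : (fun k => rat (Pt A B w0 t) B (hh A B w0 (m + i + p * k) t : OnePoint ℂ)) =
        fun k => (hh A B w0 (m + (i + 1) + p * k) t : OnePoint ℂ) := by
      funext k
      have e1 := (hspec t ht' (m + i + p * k)).2
      have e2 := (hspec t ht' (m + i + p * k + 1)).2
      rw [Function.iterate_succ_apply', e1] at e2
      rw [e2]
      congr 2
      ring
    rw [h3] at h1
    exact tendsto_nhds_unique h1 h2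
  have hB : ∀ t ∈ ball (0 : ℂ) δ, ∀ i, B.eval (a i t) ≠ 0 := by
    intro t ht i h0
    have h1 := hinv t ht i
    rw [rat_coe] at h1
    unfold pt at h1
    rw [if_pos h0] at h1
    exact infty_ne_coe _ h1
  have hstep : ∀ t ∈ ball (0 : ℂ) δ, ∀ i,
      (Pt A B w0 t).eval (a i t) / B.eval (a i t) = a (i + 1) t := by
    intro t ht i
    have h1 := hinv t ht i
    rw [rat_coe_of_ne (hB t ht i)] at h1
    exact coe_eq_coe.1 h1
  have h00 : (0 : ℂ) ∈ ball (0 : ℂ) δ := mem_ball_self hδ
  refine ⟨fun i => ⟨hB 0 h00 i, ?_⟩, ?_⟩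
  · have := hstep 0 h00 i
    rwa [Pt_zero] at this
  -- the multiplier as a function of the parameter
  set M : ℂ → ℂ := fun t => ∏ i ∈ Finset.range p,
    (Wr (Pt A B w0 t) B).eval (a i t) / (B.eval (a i t)) ^ 2 with hM
  have hMd : DifferentiableOn ℂ M (ball 0 δ) := by
    rw [hM]
    refine DifferentiableOn.fun_finsetProd fun i _ => ?_
    have ea : ∀ R : Polynomial ℂ, DifferentiableOn ℂ (fun t => R.eval (a i t)) (ball 0 δ) :=
      fun R => R.differentiable.comp_differentiableOn (ha i)
    have eid : DifferentiableOn ℂ (fun t : ℂ => t) (ball 0 δ) := differentiableOn_id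
    simp only [Wr_Pt_eval]
    refine DifferentiableOn.div ?_ ((ea B).pow 2) (fun t ht => pow_ne_zero 2 (hB t ht i))
    have u1 : DifferentiableOn ℂ (fun t => 1 + t * a i t) (ball 0 δ) :=
      (differentiableOn_const (1 : ℂ)).add (eid.mul (ha i))
    have u2 : DifferentiableOn ℂ (fun t => A.eval (a i t) - w0 * B.eval (a i t)) (ball 0 δ) :=
      (ea A).sub ((differentiableOn_const w0).mul (ea B))
    have u3 : DifferentiableOn ℂ (fun t => (derivative A).eval (a i t) -
        w0 * (derivative B).eval (a i t)) (ball 0 δ) :=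
      (ea (derivative A)).sub ((differentiableOn_const w0).mul (ea (derivative B)))
    exact ((((differentiableOn_const w0).mul (ea (derivative B))).add
      ((u3.mul u1).add (u2.mul eid))).mul (ea B)).sub
      ((((differentiableOn_const w0).mul (ea B)).add (u2.mul u1)).mul (ea (derivative B)))
  have hlt : ∀ t : ℂ, t ≠ 0 → ‖t‖ < δ → ‖M t‖ < 1 := by
    intro t ht0 ht
    have htb : t ∈ ball (0 : ℂ) δ := by simpa using ht
    obtain ⟨hc, hd, hinf, z, n0, hsink, hz⟩ := hfam t ht0 ht
    have hn0 : 0 < n0 := hsink.1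
    have hz2 : Tendsto (fun k => (rat (Pt A B w0 t) B)^[n0 * (p * k)] (w0 : OnePoint ℂ))
        atTop (𝓝 z) := by
      refine hz.comp ?_
      exact tendsto_id.const_mul_atTop' hp
    have hz3 : Tendsto (fun k => (rat (Pt A B w0 t) B)^[n0 * (p * k)] (w0 : OnePoint ℂ))
        atTop (𝓝 (a (p * m - m) t : OnePoint ℂ)) := by
      have h1 : Tendsto (fun k : ℕ => n0 * k - m) atTop atTop := by
        refine tendsto_atTop.2 fun b => ?_
        filter_upwards [eventually_ge_atTop (b + m)] with k hk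
        have : k ≤ n0 * k := Nat.le_mul_of_pos_left k hn0
        omega
      have h2 := (continuous_coe.tendsto _).comp ((hlim (p * m - m) t htb).comp h1)
      refine h2.congr' ?_
      filter_upwards [eventually_ge_atTop m] with k hk
      simp only [Function.comp_apply]
      rw [← (hspec t ht _).2]
      congr 1
      have e1 : m ≤ p * m := Nat.le_mul_of_pos_left m hp
      have e2 : k ≤ n0 * k := Nat.le_mul_of_pos_left k hn0
      have e3 : m + (p * m - m) = p * m := by omega
      rw [e3, ← Nat.mul_add]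
      have e4 : m + (n0 * k - m) = n0 * k := by omega
      rw [e4]
      ring
    have hz4 : z = (a (p * m - m) t : OnePoint ℂ) := tendsto_nhds_unique hz2 hz3
    rw [hz4] at hsink
    have hs2 := isSink_mul hsink hp
    obtain ⟨x, hx0, hxit, -, -, -, hprod⟩ := sink_mult hc (by rw [hd]; omega) hinf hs2
    have hxa : ∀ j, x j = a (p * m - m + j) t := by
      intro j
      have h1 : ∀ j, (rat (Pt A B w0 t) B)^[j] (a (p * m - m) t : OnePoint ℂ) =
          (a (p * m - m + j) t : OnePoint ℂ) := by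
        intro j
        induction j with
        | zero => rfl
        | succ j ih =>
          rw [Function.iterate_succ_apply', ih, hinv t htb]
          rfl
      have h2 := hxit j
      rw [h1 j] at h2
      exact (coe_eq_coe.1 h2).symm
    have h5 : ∏ j ∈ Finset.range (n0 * p),
        (Wr (Pt A B w0 t) B).eval (x j) / (B.eval (x j)) ^ 2 = M t ^ n0 := by
      have := prod_mul_period hp
        (fun i => (Wr (Pt A B w0 t) B).eval (a i t) / (B.eval (a i t)) ^ 2)
        (fun i => by
          change (Wr (Pt A B w0 t) B).eval (a (i + p) t) / (B.eval (a (i + p) t)) ^ 2 = _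
          rw [hper i t htb]) n0 (p * m - m)
      rw [← this]
      refine Finset.prod_congr rfl fun j _ => ?_
      rw [hxa j]
    rw [h5, norm_pow] at hprod
    by_contra hge
    push Not at hge
    exact absurd hprod (not_lt.2 (one_le_pow₀ hge))
  -- maximum principle
  have hδ2 : δ / 2 ≠ 0 := by positivity
  have hsub : closedBall (0 : ℂ) (δ / 2) ⊆ ball 0 δ := closedBall_subset_ball (by linarith)
  have hdc : DiffContOnCl ℂ M (ball 0 (δ / 2)) := by
    refine DifferentiableOn.diffContOnCl (hMd.mono ?_)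
    rw [closure_ball _ hδ2]
    exact hsub
  have hne : (sphere (0 : ℂ) (δ / 2)).Nonempty := NormedSpace.sphere_nonempty.2 (by positivity)
  have hcont : ContinuousOn (fun t => ‖M t‖) (sphere (0 : ℂ) (δ / 2)) :=
    (hMd.continuousOn.mono (sphere_subset_closedBall.trans hsub)).norm
  obtain ⟨t1, ht1, hmax⟩ := (isCompact_sphere (0 : ℂ) (δ / 2)).exists_isMaxOn hne hcont
  have ht1' : ‖t1‖ = δ / 2 := by simpa using ht1
  have ht10 : t1 ≠ 0 := by
    rintro rfl
    rw [norm_zero] at ht1'
    linarith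
  have h1 := hlt t1 ht10 (by rw [ht1']; linarith)
  have h2 : ‖M 0‖ ≤ ‖M t1‖ := by
    refine Complex.norm_le_of_forall_mem_frontier_norm_le isBounded_ball hdc ?_
      (subset_closure (mem_ball_self (by positivity)))
    intro z hz
    rw [frontier_ball _ hδ2] at hz
    exact hmax hz
  have h3 : M 0 = ∏ i ∈ Finset.range p, (Wr A B).eval (a i 0) / (B.eval (a i 0)) ^ 2 := by
    rw [hM]
    simp only [Pt_zero]
  rw [← h3]
  exact h2.trans_lt h1

end Pool.Agent.H32.BT
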