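import Pool.Agent.H32.BT.Defs
import Pool.Agent.H32.BT.Top
import Pool.Agent.H32.BT.Fam
import Pool.Agent.H32.BT.HH
import Pool.Agent.H32.BT.Contr
import Pool.Agent.H32.BT.Disc
import Pool.Agent.H32.BT.MultLt
import Pool.Agent.H32.BT.TrapSink

set_option autoImplicit false

open Filter Topology Polynomial OnePoint Metric Set

namespace Pool.Agent.H32.BT

open Pool.Agent.H44.Fatou

theorem Pt_zero' (A B : Polynomial ℂ) (w0 : ℂ) : Pt A B w0 0 = A := by
  unfold Pt
  simp

theorem att_of_fam {A B : Polynomial ℂ} {e : ℕ} (hcop : IsCoprime A B) (hB : B.natDegree = e)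
    (hA : A.natDegree ≤ e) (he : 1 ≤ e) {c w0 : ℂ} (hc : (Wr A B).eval c = 0)
    (hBc : B.eval c ≠ 0) (hw : A.eval c = w0 * B.eval c) (hlead : A.coeff e ≠ w0 * B.coeff e)
    (h0 : ∀ n : ℕ, ∃ y : ℂ, (rat A B)^[n] (w0 : OnePoint ℂ) = (y : OnePoint ℂ))
    (hrob : Robust (e + 1) A B) : Att (rat A B) (w0 : OnePoint ℂ) := by
  obtain ⟨δ, hδ, hfam⟩ := fam_basic hcop hB hA he hc hBc hw hlead hrob
  obtain ⟨hspec, hdiff⟩ := hh_spec hcop hδ
    (fun t ht0 ht => ⟨(hfam t ht0 ht).1, (hfam t ht0 ht).2.2.1, (hfam t ht0 ht).2.2.2⟩) h0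
  have hloc := local_contr hcop hδ hfam hspec hdiff
  obtain ⟨p, m, q, C, hp, hq0, hq1, hdisc⟩ := disc_of_circle hδ (hh A B w0) hdiff hloc
  have hδ2 : 0 < δ / 2 := by positivity
  have hsub : ball (0 : ℂ) (δ / 2) ⊆ ball 0 δ := ball_subset_ball (by linarith)
  obtain ⟨a, ha, hper, hlim⟩ := limit_cycle hδ2 (hh A B w0) hp hq0 hq1
    (fun n => (hdiff n).mono hsub) (fun t ht => hdisc t (ball_subset_closedBall ht))
  have hdeg : 1 ≤ max A.natDegree B.natDegree := by
    rw [hB]; exact he.trans (le_max_right _ _)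
  obtain ⟨hst, hml⟩ := mult_lt (w0 := w0) (e := e) hcop hdeg hδ2
    (fun t ht0 ht => hfam t ht0 (by linarith))
    (fun t ht => hspec t (by linarith)) hp a ha hper hlim
  -- the trap
  have hx : a p 0 = a 0 0 := by
    have := hper 0 0 (mem_ball_self hδ2)
    rwa [zero_add] at this
  have hBd : B.natDegree ≤ e := hB.le
  have h1 : ∀ j < p, ev (cf e A, cf e B).2 (a j 0) ≠ 0 := by
    intro j _
    show ev (cf e B) (a j 0) ≠ 0
    rw [ev_cf hBd]
    exact (hst j).1
  have h2 : ∀ j < p, ev (cf e A, cf e B).1 (a j 0) / ev (cf e A, cf e B).2 (a j 0) = a (j + 1) 0 := by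
    intro j _
    show ev (cf e A) (a j 0) / ev (cf e B) (a j 0) = a (j + 1) 0
    rw [ev_cf hBd, ev_cf hA]
    exact (hst j).2
  have h3 : ‖∏ j ∈ Finset.range p, wv (cf e A, cf e B) (a j 0) /
      ev (cf e A, cf e B).2 (a j 0) ^ 2‖ < 1 := by
    have : ∀ j, wv (cf e A, cf e B) (a j 0) / ev (cf e A, cf e B).2 (a j 0) ^ 2 =
        (Wr A B).eval (a j 0) / (B.eval (a j 0)) ^ 2 := by
      intro j
      rw [wv_cf hA hBd]
      show _ / ev (cf e B) (a j 0) ^ 2 = _
      rw [ev_cf hBd]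
    simp only [this]
    exact hml
  obtain ⟨r, hr, -, hev⟩ := sink_of_mult (cf e A, cf e B) (fun j => a j 0) p hp hx h1 h2 h3
    Set.univ univ_mem
  obtain ⟨z, hz, hsink, hatt⟩ := hev.self_of_nhds A B hcop hA hBd rfl
  -- the orbit enters the trap
  have hl0 := hlim 0 0 (mem_ball_self hδ2)
  have hin := hl0.eventually (closedBall_mem_nhds (a 0 0) hr)
  obtain ⟨k, hk⟩ := hin.exists
  have hsp := (hspec 0 (by simpa using hδ) (m + 0 + p * k)).2
  rw [Pt_zero'] at hsp
  have hcont : Continuous (rat A B) := rat_continuous hcop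
  rw [← att_iter hcont _ (m + 0 + p * k), hsp]
  exact ⟨z, p, hsink, (hatt _ hk).1⟩

theorem hyp_of_robust_inf {A B : Polynomial ℂ} {e : ℕ} (hcop : IsCoprime A B)
    (hB : B.natDegree = e) (hA : A.natDegree ≤ e) (he : 1 ≤ e)
    (horb : ∀ c, IsCrit (rat A B) c → ∀ n : ℕ, (rat A B)^[n] c ≠ ∞)
    (hval : ∀ c, IsCrit (rat A B) c → rat A B c ≠ rat A B ∞)
    (hrob : Robust (e + 1) A B) : HypMap (rat A B) := by
  intro c hc
  have hdg : dg A B = e := by unfold dg; rw [hB]; exact max_eq_right hA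
  have hBe : B.coeff e ≠ 0 := by
    have hB0 : B ≠ 0 := by
      rintro rfl
      simp at hB
      omega
    rw [← hB]
    exact leadingCoeff_ne_zero.2 hB0
  obtain ⟨c', rfl⟩ : ∃ c' : ℂ, c = (c' : OnePoint ℂ) := by
    have := horb c hc 0
    simp only [Function.iterate_zero, id] at this
    obtain ⟨y, hy⟩ := OnePoint.ne_infty_iff_exists.1 this
    exact ⟨y, hy.symm⟩
  have hW : (Wr A B).eval c' = 0 := crit_coe hc
  have hBc : B.eval c' ≠ 0 := by
    intro h
    have := horb _ hc 1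
    simp only [Function.iterate_one, rat_coe, pt, h, if_true] at this
    exact this rfl
  have hfc : rat A B (c' : OnePoint ℂ) = ((A.eval c' / B.eval c' : ℂ) : OnePoint ℂ) :=
    rat_coe_of_ne hBc
  have hcont : Continuous (rat A B) := rat_continuous hcop
  rw [← att_map hcont, hfc]
  refine att_of_fam hcop hB hA he hW hBc (by field_simp) ?_ ?_ hrob
  · intro h
    apply hval _ hc
    rw [hfc, rat_infty, hdg, pt, if_neg hBe, h, mul_div_cancel_right₀ _ hBe]
  · intro n
    have := horb _ hc (n + 1)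
    rw [Function.iterate_succ_apply, hfc] at this
    obtain ⟨y, hy⟩ := OnePoint.ne_infty_iff_exists.1 this
    exact ⟨y, hy.symm⟩

end Pool.Agent.H32.BT
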