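import Pool.Agent.H32.BT.Fwd

set_option autoImplicit false

open Filter Topology Polynomial OnePoint Metric Set

namespace Pool.Agent.H32.BT

open Pool.Agent.H44.Fatou

theorem isCoprime_of_roots {P Q : Polynomial ℂ} (h : ∀ z : ℂ, P.eval z ≠ 0 ∨ Q.eval z ≠ 0) :
    IsCoprime P Q := by
  rw [isCoprime_iff_aeval_ne_zero_of_isAlgClosed ℂ ℂ]
  intro z
  simpa using h z

theorem Near.symm {ρ : ℝ} {P Q P0 Q0 : Polynomial ℂ} (h : Near ρ P Q P0 Q0) :
    Near ρ P0 Q0 P Q := fun i => by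
  have := h i
  rw [norm_sub_rev (P0.coeff i), norm_sub_rev (Q0.coeff i)]
  exact this

theorem Near.trans {ρ σ : ℝ} {P Q P1 Q1 P2 Q2 : Polynomial ℂ} (h : Near ρ P Q P1 Q1)
    (h' : Near σ P1 Q1 P2 Q2) : Near (ρ + σ) P Q P2 Q2 := fun i => by
  have h1 := h i
  have h2 := h' i
  constructor
  · calc ‖P.coeff i - P2.coeff i‖ = ‖(P.coeff i - P1.coeff i) + (P1.coeff i - P2.coeff i)‖ := by
          ring_nf
      _ ≤ ‖P.coeff i - P1.coeff i‖ + ‖P1.coeff i - P2.coeff i‖ := norm_add_le _ _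
      _ < ρ + σ := by linarith [h1.1, h2.1]
  · calc ‖Q.coeff i - Q2.coeff i‖ = ‖(Q.coeff i - Q1.coeff i) + (Q1.coeff i - Q2.coeff i)‖ := by
          ring_nf
      _ ≤ ‖Q.coeff i - Q1.coeff i‖ + ‖Q1.coeff i - Q2.coeff i‖ := norm_add_le _ _
      _ < ρ + σ := by linarith [h1.2, h2.2]

theorem Near.mono {ρ σ : ℝ} {P Q P1 Q1 : Polynomial ℂ} (h : Near ρ P Q P1 Q1) (hs : ρ ≤ σ) :
    Near σ P Q P1 Q1 := fun i => ⟨(h i).1.trans_le hs, (h i).2.trans_le hs⟩

/-- coprime pairs of exact degree are dense -/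
theorem coprime_dense {A0 B0 : Polynomial ℂ} {e : ℕ} (hA : A0.natDegree ≤ e)
    (hB : B0.natDegree ≤ e) {ε : ℝ} (hε : 0 < ε) :
    ∃ A B : Polynomial ℂ, IsCoprime A B ∧ max A.natDegree B.natDegree = e ∧ Near ε A B A0 B0 := by
  obtain ⟨B, hB0, hBe, hBn⟩ := pert_full B0 hB hε
  have hfin : ((fun β => -A0.eval β) '' {β : ℂ | B.eval β = 0}).Finite := by
    apply Set.Finite.image
    refine (B.roots.toFinset.finite_toSet).subset ?_
    intro β hβ
    simp only [Finset.mem_coe, Multiset.mem_toFinset]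
    rw [mem_roots hB0, IsRoot.def]
    exact hβ
  have hdense := hfin.countable.dense_compl ℂ
  obtain ⟨s, hs1, hs2⟩ := hdense.inter_nhds_nonempty (ball_mem_nhds (0 : ℂ) hε)
  refine ⟨A0 + C s, B, isCoprime_of_roots ?_, ?_, fun i => ⟨?_, hBn i⟩⟩
  · intro z
    by_cases hz : B.eval z = 0
    · left
      intro h
      apply hs1
      refine ⟨z, hz, ?_⟩
      rw [eval_add, eval_C] at h
      exact (eq_neg_of_add_eq_zero_right h).symm
    · exact Or.inr hz
  · rw [natDegree_add_C, hBe]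
    exact max_eq_right hA
  · rw [coeff_add, add_sub_cancel_left, coeff_C]
    split_ifs with hi
    · simpa using hs2
    · simpa using hε

theorem stratum {P Q : Polynomial ℂ} {e : ℕ} (hP : P.natDegree ≤ e + 1) (hQ : Q.natDegree ≤ e + 1)
    (hn : ¬ (IsCoprime P Q ∧ max P.natDegree Q.natDegree = e + 1)) :
    ∃ A B H : Polynomial ℂ, A.natDegree ≤ e ∧ B.natDegree ≤ e ∧ H.natDegree ≤ 1 ∧ P = A * H ∧
      Q = B * H := by
  by_cases hm : max P.natDegree Q.natDegree = e + 1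
  · have hnc : ¬ IsCoprime P Q := fun h => hn ⟨h, hm⟩
    obtain ⟨b, hb1, hb2⟩ : ∃ b : ℂ, P.eval b = 0 ∧ Q.eval b = 0 := by
      by_contra hcon
      push Not at hcon
      apply hnc
      apply isCoprime_of_roots
      intro z
      by_cases hz : P.eval z = 0
      · exact Or.inr (hcon z hz)
      · exact Or.inl hz
    have key : ∀ R : Polynomial ℂ, R.natDegree ≤ e + 1 → R.eval b = 0 →
        ∃ R' : Polynomial ℂ, R'.natDegree ≤ e ∧ R = R' * (X - C b) := by
      intro R hR hr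
      obtain ⟨R', rfl⟩ := dvd_iff_isRoot.2 hr
      refine ⟨R', ?_, mul_comm _ _⟩
      by_cases h0 : R' = 0
      · simp [h0]
      · rw [natDegree_mul (X_sub_C_ne_zero b) h0, natDegree_X_sub_C] at hR
        omega
    obtain ⟨A, hA, hPA⟩ := key P hP hb1
    obtain ⟨B, hB, hQB⟩ := key Q hQ hb2
    exact ⟨A, B, X - C b, hA, hB, (natDegree_X_sub_C b).le, hPA, hQB⟩
  · refine ⟨P, Q, 1, ?_, ?_, by simp, by simp, by simp⟩
    · by_contra h
      exact hm (le_antisymm (max_le hP hQ) (le_trans (by omega) (le_max_left _ _)))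
    · by_contra h
      exact hm (le_antisymm (max_le hP hQ) (le_trans (by omega) (le_max_right _ _)))

/-- density of hyperbolicity in degree `d`, in terms of `rat` -/
def FatouD (d : ℕ) : Prop :=
  ∀ P Q : Polynomial ℂ, IsCoprime P Q → max P.natDegree Q.natDegree = d → ∀ ε : ℝ, 0 < ε →
    ∃ P' Q' : Polynomial ℂ, IsCoprime P' Q' ∧ max P'.natDegree Q'.natDegree = d ∧
      Near ε P' Q' P Q ∧ HypMap (rat P' Q')

/-- the nonzero pairs of degree at most `d` which are not coprime of degree `d` -/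
def IsBdry (d : ℕ) (P Q : Polynomial ℂ) : Prop :=
  P.natDegree ≤ d ∧ Q.natDegree ≤ d ∧ (P ≠ 0 ∨ Q ≠ 0) ∧
    ¬ (IsCoprime P Q ∧ max P.natDegree Q.natDegree = d)

def BdryD (d : ℕ) : Prop :=
  ∀ P Q : Polynomial ℂ, IsBdry d P Q → ∀ ε : ℝ, 0 < ε →
    ∃ P' Q' : Polynomial ℂ, IsBdry d P' Q' ∧ Near ε P' Q' P Q ∧ Robust d P' Q'

theorem not_coprime_mul {A B H : Polynomial ℂ} (hH : 1 ≤ H.natDegree) :
    ¬ IsCoprime (A * H) (B * H) := by
  intro h
  have hu : IsUnit H := h.isUnit_of_dvd' (dvd_mul_left H A) (dvd_mul_left H B)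
  have := natDegree_eq_zero_of_isUnit hu
  omega

/-- general form of the forward direction: limits of hyperbolic maps -/
theorem robust_of_limit {A0 B0 H0 : Polynomial ℂ} {e k : ℕ} (he : 2 ≤ e)
    (hH : H0.natDegree ≤ k)
    (hlim : ∀ η : ℝ, 0 < η → ∃ A B : Polynomial ℂ, IsCoprime A B ∧
      max A.natDegree B.natDegree = e ∧ HypMap (rat A B) ∧ Near η A B A0 B0)
    {ε : ℝ} (hε : 0 < ε) :
    ∃ A B H : Polynomial ℂ, IsCoprime A B ∧ max A.natDegree B.natDegree = e ∧
      H.natDegree = k ∧ H ≠ 0 ∧ HypMap (rat A B) ∧ Near ε A B A0 B0 ∧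
      (∀ i, ‖H.coeff i - H0.coeff i‖ < ε) ∧ Near ε (A * H) (B * H) (A0 * H0) (B0 * H0) ∧
      Robust (e + k) (A * H) (B * H) := by
  obtain ⟨r, hr, hmul⟩ := mul_near2 H0 (half_pos hε)
  obtain ⟨A, B, hc, hm, hyp, hn⟩ := hlim (min r ε) (lt_min hr hε)
  obtain ⟨r1, hr1, h1⟩ := mul_near A (half_pos hε)
  obtain ⟨r2, hr2, h2⟩ := mul_near B (half_pos hε)
  obtain ⟨H, hH0, hHk, hHn, hrob⟩ := robust_of_hyp hc hm he hyp hH
    (lt_min (lt_min hr1 hr2) hε)
  refine ⟨A, B, H, hc, hm, hHk, hH0, hyp, hn.mono (min_le_right _ _),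
    fun i => (hHn i).trans_le (min_le_right _ _), ?_, hrob⟩
  have n1 : Near (ε / 2) (A * H) (B * H) (A * H0) (B * H0) := by
    intro i
    constructor
    · rw [mul_comm A H, mul_comm A H0]
      exact h1 _ _ (fun j => (hHn j).trans_le ((min_le_left _ _).trans (min_le_left _ _))) i
    · rw [mul_comm B H, mul_comm B H0]
      exact h2 _ _ (fun j => (hHn j).trans_le ((min_le_left _ _).trans (min_le_right _ _))) i
  have n2 : Near (ε / 2) (A * H0) (B * H0) (A0 * H0) (B0 * H0) :=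
    hmul _ _ _ _ (hn.mono (min_le_left _ _))
  exact (n1.trans n2).mono (by linarith)

theorem FatouD.limit {e : ℕ} (h : FatouD e) {A0 B0 : Polynomial ℂ} (hA : A0.natDegree ≤ e)
    (hB : B0.natDegree ≤ e) {η : ℝ} (hη : 0 < η) :
    ∃ A B : Polynomial ℂ, IsCoprime A B ∧ max A.natDegree B.natDegree = e ∧ HypMap (rat A B) ∧
      Near η A B A0 B0 := by
  obtain ⟨A1, B1, hc1, hm1, hn1⟩ := coprime_dense hA hB (half_pos hη)
  obtain ⟨A, B, hc, hm, hn, hyp⟩ := h A1 B1 hc1 hm1 (η / 2) (half_pos hη)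
  exact ⟨A, B, hc, hm, hyp, (hn.trans hn1).mono (by linarith)⟩

theorem bdry_of_fatou {e : ℕ} (he : 2 ≤ e) (h : FatouD e) : BdryD (e + 1) := by
  intro P Q hPQ ε hε
  obtain ⟨hP, hQ, -, hn⟩ := hPQ
  obtain ⟨A0, B0, H0, hA, hB, hH, rfl, rfl⟩ := stratum hP hQ hn
  obtain ⟨A, B, H, hc, hm, hHk, hH0, -, -, -, hnear, hrob⟩ :=
    robust_of_limit he hH (fun η hη => h.limit hA hB hη) hε
  have hAe : A.natDegree ≤ e := by have := le_max_left A.natDegree B.natDegree; omega
  have hBe : B.natDegree ≤ e := by have := le_max_right A.natDegree B.natDegree; omega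
  refine ⟨A * H, B * H, ⟨natDegree_mul_le.trans (by omega), natDegree_mul_le.trans (by omega),
    ?_, ?_⟩, hnear, hrob⟩
  · by_contra hcon
    push Not at hcon
    have hA0 : A = 0 := (mul_eq_zero.1 hcon.1).resolve_right hH0
    have hB0 : B = 0 := (mul_eq_zero.1 hcon.2).resolve_right hH0
    rw [hA0, hB0] at hm
    simp at hm
    omega
  · intro hcon
    exact not_coprime_mul (by omega) hcon.1

/-- from eventually in coefficient space to `Near` -/
theorem near_of_ev {d : ℕ} {P0 Q0 : Polynomial ℂ}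
    {p : (Fin (d + 1) → ℂ) × (Fin (d + 1) → ℂ) → Prop}
    (h : ∀ᶠ v in 𝓝 (cf d P0, cf d Q0), p v) :
    ∃ η : ℝ, 0 < η ∧ ∀ P Q : Polynomial ℂ, Near η P Q P0 Q0 → p (cf d P, cf d Q) := by
  obtain ⟨η, hη, hball⟩ := Metric.eventually_nhds_iff_ball.1 h
  refine ⟨η, hη, fun P Q hn => hball _ ?_⟩
  rw [mem_ball, Prod.dist_eq, max_lt_iff]
  constructor
  · rw [dist_pi_lt_iff hη]
    intro i
    rw [dist_eq_norm]
    exact (hn i).1
  · rw [dist_pi_lt_iff hη]
    intro i
    rw [dist_eq_norm]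
    exact (hn i).2

theorem no_common_zero {d : ℕ} (v0 : (Fin (d + 1) → ℂ) × (Fin (d + 1) → ℂ)) {K : Set ℂ}
    (hK : IsCompact K) (h : ∀ z ∈ K, ev v0.1 z ≠ 0 ∨ ev v0.2 z ≠ 0) :
    ∀ᶠ v in 𝓝 v0, ∀ z ∈ K, ev v.1 z ≠ 0 ∨ ev v.2 z ≠ 0 := by
  apply hK.eventually_forall_of_forall_eventually
  intro z hz
  rcases h z hz with h1 | h1
  · have := (ev1_cont (d := d)).continuousAt.eventually_ne (x := (v0, z)) h1
    filter_upwards [this] with y hy
    exact Or.inl hy
  · have := (ev2_cont (d := d)).continuousAt.eventually_ne (x := (v0, z)) h1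
    filter_upwards [this] with y hy
    exact Or.inr hy

theorem reflect_no_zero {A B : Polynomial ℂ} {e : ℕ} (hc : IsCoprime A B)
    (hm : max A.natDegree B.natDegree = e) (z : ℂ) :
    (reflect e A).eval z ≠ 0 ∨ (reflect e B).eval z ≠ 0 := by
  have hA : A.natDegree ≤ e := by have := le_max_left A.natDegree B.natDegree; omega
  have hB : B.natDegree ≤ e := by have := le_max_right A.natDegree B.natDegree; omega
  by_cases hz : z = 0
  · rw [hz, eval_reflect_zero, eval_reflect_zero]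
    have := coeff_dg hc
    have h2 : dg A B = e := hm
    rwa [h2] at this
  · have h1 := eval_reflect hA (inv_ne_zero hz)
    have h2 := eval_reflect hB (inv_ne_zero hz)
    rw [inv_inv] at h1 h2
    rcases coprime_eval hc z⁻¹ with h | h
    · left
      intro h0
      rw [h0, zero_mul] at h1
      exact h h1
    · right
      intro h0
      rw [h0, zero_mul] at h2
      exact h h2

theorem open_inR {A0 B0 : Polynomial ℂ} {e : ℕ} (hc : IsCoprime A0 B0)
    (hm : max A0.natDegree B0.natDegree = e) :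
    ∃ η : ℝ, 0 < η ∧ ∀ A B : Polynomial ℂ, A.natDegree ≤ e → B.natDegree ≤ e →
      Near η A B A0 B0 → IsCoprime A B ∧ max A.natDegree B.natDegree = e := by
  have hA : A0.natDegree ≤ e := by have := le_max_left A0.natDegree B0.natDegree; omega
  have hB : B0.natDegree ≤ e := by have := le_max_right A0.natDegree B0.natDegree; omega
  have h1 := no_common_zero (cf e A0, cf e B0) (isCompact_closedBall (0 : ℂ) 1)
    (fun z _ => by
      show ev (cf e A0) z ≠ 0 ∨ ev (cf e B0) z ≠ 0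
      rw [ev_cf hA, ev_cf hB]
      exact coprime_eval hc z)
  have h2' := no_common_zero (rv (cf e A0, cf e B0)) (isCompact_closedBall (0 : ℂ) 1)
    (fun z _ => by
      rw [rv_cf]
      show ev (cf e (reflect e A0)) z ≠ 0 ∨ ev (cf e (reflect e B0)) z ≠ 0
      rw [ev_cf (natDegree_reflect_le' hA), ev_cf (natDegree_reflect_le' hB)]
      exact reflect_no_zero hc hm z)
  have h2 := ((rv_cont (d := e)).tendsto (cf e A0, cf e B0)).eventually h2'
  obtain ⟨η, hη, hn⟩ := near_of_ev (h1.and h2)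
  refine ⟨η, hη, fun A B hA' hB' hAB => ?_⟩
  obtain ⟨p1, p2⟩ := hn A B hAB
  have p1' : ∀ z ∈ closedBall (0 : ℂ) 1, A.eval z ≠ 0 ∨ B.eval z ≠ 0 := by
    intro z hz
    have := p1 z hz
    change ev (cf e A) z ≠ 0 ∨ ev (cf e B) z ≠ 0 at this
    rwa [ev_cf hA', ev_cf hB'] at this
  have p2' : ∀ z ∈ closedBall (0 : ℂ) 1, (reflect e A).eval z ≠ 0 ∨ (reflect e B).eval z ≠ 0 := by
    intro z hz
    have := p2 z hz
    rw [rv_cf] at this
    change ev (cf e (reflect e A)) z ≠ 0 ∨ ev (cf e (reflect e B)) z ≠ 0 at this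
    rwa [ev_cf (natDegree_reflect_le' hA'), ev_cf (natDegree_reflect_le' hB')] at this
  constructor
  · apply isCoprime_of_roots
    intro z
    by_cases hz : ‖z‖ ≤ 1
    · exact p1' z (by simpa using hz)
    · have hz0 : z ≠ 0 := by
        rintro rfl
        simp at hz
      have hz1 : z⁻¹ ∈ closedBall (0 : ℂ) 1 := by
        rw [mem_closedBall, dist_zero_right, norm_inv]
        exact inv_le_one_of_one_le₀ (not_le.1 hz).le
      rw [eval_reflect hA' hz0, eval_reflect hB' hz0]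
      rcases p2' _ hz1 with h | h
      · exact Or.inl (mul_ne_zero h (pow_ne_zero _ hz0))
      · exact Or.inr (mul_ne_zero h (pow_ne_zero _ hz0))
  · have := p2' 0 (mem_closedBall_self zero_le_one)
    rw [eval_reflect_zero, eval_reflect_zero] at this
    apply le_antisymm (max_le hA' hB')
    rcases this with h | h
    · exact (le_natDegree_of_ne_zero h).trans (le_max_left _ _)
    · exact (le_natDegree_of_ne_zero h).trans (le_max_right _ _)

theorem large_root {A0 B0 : Polynomial ℂ} {d : ℕ} (hc : IsCoprime A0 B0)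
    (hA : A0.natDegree ≤ d) (hB : B0.natDegree ≤ d) (R : ℝ) :
    ∃ η : ℝ, 0 < η ∧ ∀ P Q : Polynomial ℂ, P.natDegree ≤ d → Q.natDegree ≤ d →
      Near η P Q A0 B0 → ∀ b : ℂ, P.eval b = 0 → Q.eval b = 0 → R < ‖b‖ := by
  have h1 := no_common_zero (cf d A0, cf d B0) (isCompact_closedBall (0 : ℂ) R)
    (fun z _ => by
      show ev (cf d A0) z ≠ 0 ∨ ev (cf d B0) z ≠ 0
      rw [ev_cf hA, ev_cf hB]
      exact coprime_eval hc z)
  obtain ⟨η, hη, hn⟩ := near_of_ev h1
  refine ⟨η, hη, fun P Q hP hQ hPQ b hb1 hb2 => ?_⟩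
  by_contra hcon
  have := hn P Q hPQ b (by simpa using hcon)
  change ev (cf d P) b ≠ 0 ∨ ev (cf d Q) b ≠ 0 at this
  rw [ev_cf hP, ev_cf hQ, hb1, hb2] at this
  simp at this

/-- division by `1 - X / b` for large `b` changes the coefficients little -/
theorem factor_near {P : Polynomial ℂ} {e : ℕ} (hP : P.natDegree ≤ e + 1) {b : ℂ}
    (hb : 1 ≤ ‖b‖) (hPb : P.eval b = 0) :
    ∃ A : Polynomial ℂ, A.natDegree ≤ e ∧ P = A * (1 - C b⁻¹ * X) ∧
      ∀ i, ‖A.coeff i - P.coeff i‖ ≤ ‖b‖⁻¹ * ∑ j ∈ Finset.range (e + 2), ‖P.coeff j‖ := by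
  have hb0 : b ≠ 0 := by
    rintro rfl
    simp at hb
    linarith
  obtain ⟨P', rfl⟩ := dvd_iff_isRoot.2 hPb
  set P := (X - C b) * P' with hPdef
  have hlin : (X - C b) = C (-b) * (1 - C b⁻¹ * X) := by
    rw [mul_sub, mul_one, ← mul_assoc, ← C_mul, neg_mul, mul_inv_cancel₀ hb0]
    simp
    ring
  refine ⟨C (-b) * P', ?_, ?_, ?_⟩
  · rw [natDegree_C_mul (neg_ne_zero.2 hb0)]
    by_cases h0 : P' = 0
    · simp [h0]
    · rw [hPdef, natDegree_mul (X_sub_C_ne_zero b) h0, natDegree_X_sub_C] at hP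
      omega
  · rw [hPdef]
    nth_rewrite 1 [hlin]
    ring
  · set A := C (-b) * P' with hA
    have hPA : P = A * (1 - C b⁻¹ * X) := by
      rw [hPdef]
      nth_rewrite 1 [hlin]
      ring
    have hc0 : A.coeff 0 = P.coeff 0 := by
      rw [hPA, mul_sub, mul_one, coeff_sub, ← mul_assoc, coeff_mul_X_zero, sub_zero]
    have hcs : ∀ i, A.coeff (i + 1) = P.coeff (i + 1) + b⁻¹ * A.coeff i := by
      intro i
      rw [hPA, mul_sub, mul_one, coeff_sub, ← mul_assoc, coeff_mul_X, coeff_mul_C]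
      ring
    have hbi : ‖b‖⁻¹ ≤ 1 := inv_le_one_of_one_le₀ hb
    have hbd : ∀ i, ‖A.coeff i‖ ≤ ∑ j ∈ Finset.range (i + 1), ‖P.coeff j‖ := by
      intro i
      induction i with
      | zero => simp [hc0]
      | succ i ih =>
        rw [hcs, Finset.sum_range_succ]
        calc ‖P.coeff (i + 1) + b⁻¹ * A.coeff i‖ ≤ ‖P.coeff (i + 1)‖ + ‖b⁻¹ * A.coeff i‖ :=
              norm_add_le _ _
          _ ≤ ‖P.coeff (i + 1)‖ + 1 * ‖A.coeff i‖ := by
              rw [norm_mul, norm_inv]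
              gcongr
          _ ≤ _ := by linarith
    have hbd2 : ∀ i, ‖A.coeff i‖ ≤ ∑ j ∈ Finset.range (e + 2), ‖P.coeff j‖ := by
      intro i
      refine (hbd i).trans ?_
      by_cases hi : i + 1 ≤ e + 2
      · exact Finset.sum_le_sum_of_subset_of_nonneg (Finset.range_mono hi)
          (fun _ _ _ => norm_nonneg _)
      · rw [← Finset.sum_subset (Finset.range_mono (not_le.1 hi).le)]
        intro j _ hj
        rw [Finset.mem_range, not_lt] at hj
        rw [coeff_eq_zero_of_natDegree_lt (by omega), norm_zero]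
    intro i
    rcases i with _ | i
    · rw [hc0, sub_self, norm_zero]
      positivity
    · rw [hcs, add_sub_cancel_left, norm_mul, norm_inv]
      exact mul_le_mul_of_nonneg_left (hbd2 i) (by positivity)

theorem fatou_of_bdry {e : ℕ} (he : 2 ≤ e) (h : BdryD (e + 1)) : FatouD e := by
  intro A0 B0 hc hm ε hε
  have hA : A0.natDegree ≤ e := by have := le_max_left A0.natDegree B0.natDegree; omega
  have hB : B0.natDegree ≤ e := by have := le_max_right A0.natDegree B0.natDegree; omega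
  have hbd0 : IsBdry (e + 1) A0 B0 := by
    refine ⟨by omega, by omega, ?_, fun h => by omega⟩
    by_contra hcon
    push Not at hcon
    rw [hcon.1, hcon.2] at hm
    simp at hm
    omega
  obtain ⟨η0, hη0, hopen⟩ := open_inR hc hm
  set ε1 := min ε η0 with hε1
  have hε1p : 0 < ε1 := lt_min hε hη0
  set M : ℝ := ∑ j ∈ Finset.range (e + 2), (‖A0.coeff j‖ + 1) +
    ∑ j ∈ Finset.range (e + 2), (‖B0.coeff j‖ + 1) with hM
  have hM0 : 0 ≤ M := by positivity
  set R : ℝ := max 1 (M / (ε1 / 4)) with hR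
  obtain ⟨η, hη, hlarge⟩ := large_root (d := e + 1) hc (by omega) (by omega) R
  obtain ⟨P, Q, hbd, hn, hrob⟩ := h A0 B0 hbd0 (min (min η 1) (ε1 / 2))
    (lt_min (lt_min hη one_pos) (by positivity))
  obtain ⟨hP, hQ, -, hnot⟩ := hbd
  by_cases hdeg : max P.natDegree Q.natDegree = e + 1
  · have hnc : ¬ IsCoprime P Q := fun h => hnot ⟨h, hdeg⟩
    obtain ⟨b, hb1, hb2⟩ : ∃ b : ℂ, P.eval b = 0 ∧ Q.eval b = 0 := by
      by_contra hcon
      push Not at hcon
      apply hnc
      apply isCoprime_of_roots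
      intro z
      by_cases hz : P.eval z = 0
      · exact Or.inr (hcon z hz)
      · exact Or.inl hz
    have hbR : R < ‖b‖ := hlarge P Q hP hQ
      (hn.mono ((min_le_left _ _).trans (min_le_left _ _))) b hb1 hb2
    have hb : 1 ≤ ‖b‖ := (le_max_left _ _).trans hbR.le
    obtain ⟨A, hAe, hPA, hAn⟩ := factor_near hP hb hb1
    obtain ⟨B, hBe, hQB, hBn⟩ := factor_near hQ hb hb2
    have hsumP : ∑ j ∈ Finset.range (e + 2), ‖P.coeff j‖ ≤ M := by
      have : ∑ j ∈ Finset.range (e + 2), ‖P.coeff j‖ ≤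
          ∑ j ∈ Finset.range (e + 2), (‖A0.coeff j‖ + 1) := by
        apply Finset.sum_le_sum
        intro j _
        have h1 := (hn j).1.trans_le ((min_le_left _ _).trans (min_le_right _ _))
        have h2 := norm_sub_norm_le (P.coeff j) (A0.coeff j)
        linarith
      have h3 : 0 ≤ ∑ j ∈ Finset.range (e + 2), (‖B0.coeff j‖ + 1) := by positivity
      linarith
    have hsumQ : ∑ j ∈ Finset.range (e + 2), ‖Q.coeff j‖ ≤ M := by
      have : ∑ j ∈ Finset.range (e + 2), ‖Q.coeff j‖ ≤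
          ∑ j ∈ Finset.range (e + 2), (‖B0.coeff j‖ + 1) := by
        apply Finset.sum_le_sum
        intro j _
        have h1 := (hn j).2.trans_le ((min_le_left _ _).trans (min_le_right _ _))
        have h2 := norm_sub_norm_le (Q.coeff j) (B0.coeff j)
        linarith
      have h3 : 0 ≤ ∑ j ∈ Finset.range (e + 2), (‖A0.coeff j‖ + 1) := by positivity
      linarith
    have hbM : ‖b‖⁻¹ * M ≤ ε1 / 4 := by
      have h1 : M / (ε1 / 4) ≤ ‖b‖ := (le_max_right _ _).trans hbR.le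
      rw [div_le_iff₀ (by positivity)] at h1
      rw [inv_mul_le_iff₀ (by linarith)]
      exact h1
    have hnAB : Near (ε1 / 2) A B P Q := by
      intro i
      have p1 : ‖b‖⁻¹ * ∑ j ∈ Finset.range (e + 2), ‖P.coeff j‖ ≤ ‖b‖⁻¹ * M :=
        mul_le_mul_of_nonneg_left hsumP (by positivity)
      have p2 : ‖b‖⁻¹ * ∑ j ∈ Finset.range (e + 2), ‖Q.coeff j‖ ≤ ‖b‖⁻¹ * M :=
        mul_le_mul_of_nonneg_left hsumQ (by positivity)
      exact ⟨by linarith [hAn i], by linarith [hBn i]⟩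
    have hnear : Near ε1 A B A0 B0 :=
      (hnAB.trans (hn.mono (min_le_right _ _))).mono (by linarith)
    obtain ⟨hcAB, hmAB⟩ := hopen A B hAe hBe (hnear.mono (min_le_right _ _))
    refine ⟨A, B, hcAB, hmAB, hnear.mono (min_le_left _ _), ?_⟩
    have hH0 : (1 - C b⁻¹ * X : Polynomial ℂ) ≠ 0 := by
      intro h0
      have := congrArg (Polynomial.eval 0) h0
      simp at this
    have hH1 : (1 - C b⁻¹ * X : Polynomial ℂ).natDegree ≤ 1 := by
      refine (natDegree_sub_le _ _).trans ?_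
      rw [natDegree_one]
      refine max_le (by omega) ((natDegree_C_mul_le _ _).trans natDegree_X.le)
    rw [hPA, hQB] at hrob
    exact hyp_of_robust 1 hcAB hmAB he hH0 hH1 hrob
  · have hPe : P.natDegree ≤ e := by
      by_contra h
      exact hdeg (le_antisymm (max_le hP hQ) (le_trans (by omega) (le_max_left _ _)))
    have hQe : Q.natDegree ≤ e := by
      by_contra h
      exact hdeg (le_antisymm (max_le hP hQ) (le_trans (by omega) (le_max_right _ _)))
    have hn1 : Near ε1 P Q A0 B0 := hn.mono ((min_le_right _ _).trans (by linarith))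
    obtain ⟨hcPQ, hmPQ⟩ := hopen P Q hPe hQe (hn1.mono (min_le_right _ _))
    refine ⟨P, Q, hcPQ, hmPQ, hn1.mono (min_le_left _ _), ?_⟩
    refine hyp_of_robust 1 (H := 1) hcPQ hmPQ he one_ne_zero (by simp) ?_
    rw [mul_one, mul_one]
    exact hrob

theorem fatou_iff_bdry {e : ℕ} (he : 2 ≤ e) : FatouD e ↔ BdryD (e + 1) :=
  ⟨bdry_of_fatou he, fatou_of_bdry he⟩

end Pool.Agent.H32.BT
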