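import Pool.Agent.H32.BT.Top
import Pool.Agent.H91.Fatou.Dense3

set_option autoImplicit false

open Filter Topology Polynomial OnePoint Metric Set

namespace Pool.Agent.H32.BT

open Pool.Agent.H44.Fatou
open Pool.Agent.H91.Fatou (ch gn gn_spec Attracting Captured exists_chart_infty ch_range ch_open
  lip_of_bound trap_chart)

/-
Bridge between the topological sinks of this folder (IsSink, Att) and the metric ones of
Pool/Agent/H91/Fatou (Attracting, Captured).
-/

theorem exists_chart_at {z y : OnePoint ℂ} (hzy : z ≠ y) : ∃ α β γ δ : ℂ, α * δ - β * γ ≠ 0 ∧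
    Set.range (ch α β γ δ) = {y}ᶜ ∧ ch α β γ δ 0 = z := by
  obtain ⟨α, β, γ, δ, hd, hr⟩ := exists_chart_infty y
  have hz : z ∈ Set.range (ch α β γ δ) := by rw [hr]; exact hzy
  obtain ⟨t0, ht0⟩ := hz
  have hd' : α * (γ * t0 + δ) - (α * t0 + β) * γ ≠ 0 := by
    intro h; apply hd; linear_combination h
  refine ⟨α, α * t0 + β, γ, γ * t0 + δ, hd', ?_, ?_⟩
  · rw [ch_range hd', ← ch_range hd, hr]
  · rw [← ht0]
    unfold ch
    congr 1 <;> ring

theorem sink_attracting {P Q : Polynomial ℂ} (hc : IsCoprime P Q) {y : OnePoint ℂ}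
    (hy : ¬ Att (rat P Q) y) {z : OnePoint ℂ} {n : ℕ} (hs : IsSink (rat P Q) z n) :
    ∃ k : ℕ, 0 < k ∧ Attracting (rat P Q) (n * k) z := by
  set f := rat P Q with hf
  have hfc : Continuous f := rat_continuous hc
  have hza : Att f z := att_sink hs
  have hzy : z ≠ y := by rintro rfl; exact hy hza
  obtain ⟨α, β, γ, δ, hd, hr, h0⟩ := exists_chart_at hzy
  have ho := ch_open hd
  obtain ⟨hn, hfix, U, hU, hUt⟩ := hs
  -- a closed ball in the chart
  have hU' : ch α β γ δ ⁻¹' U ∈ 𝓝 (0 : ℂ) := by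
    apply ho.continuous.continuousAt
    rw [h0]; exact hU
  obtain ⟨r, hr0, hrU⟩ := Metric.nhds_basis_closedBall.mem_iff.1 hU'
  have hB : IsCompact (closedBall (0 : ℂ) r) := isCompact_closedBall _ _
  -- uniform return time
  have hret : ∃ N : ℕ, ∀ t ∈ closedBall (0 : ℂ) r, ∃ k, 1 ≤ k ∧ k ≤ N ∧
      f^[n * k] (ch α β γ δ t) ∈ ch α β γ δ '' ball (0 : ℂ) r := by
    apply hB.induction_on (p := fun S => ∃ N : ℕ, ∀ t ∈ S, ∃ k, 1 ≤ k ∧ k ≤ N ∧
      f^[n * k] (ch α β γ δ t) ∈ ch α β γ δ '' ball (0 : ℂ) r)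
    · exact ⟨0, fun t ht => absurd ht (Set.notMem_empty t)⟩
    · rintro s t hst ⟨N, hN⟩
      exact ⟨N, fun x hx => hN x (hst hx)⟩
    · rintro s t ⟨N, hN⟩ ⟨M, hM⟩
      refine ⟨max N M, fun x hx => ?_⟩
      rcases hx with hx | hx
      · obtain ⟨k, h1, h2, h3⟩ := hN x hx
        exact ⟨k, h1, h2.trans (le_max_left _ _), h3⟩
      · obtain ⟨k, h1, h2, h3⟩ := hM x hx
        exact ⟨k, h1, h2.trans (le_max_right _ _), h3⟩
    · intro t ht
      have hopen : IsOpen (ch α β γ δ '' ball (0 : ℂ) r) := ho.isOpenMap _ isOpen_ball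
      have h1 := hUt _ (hrU ht)
      have h2 : ch α β γ δ '' ball (0 : ℂ) r ∈ 𝓝 z :=
        hopen.mem_nhds ⟨0, mem_ball_self hr0, h0⟩
      obtain ⟨k, hk1, hk2⟩ := ((h1.eventually h2).and (eventually_ge_atTop 1)).exists
      have h3 : (fun s => f^[n * k] (ch α β γ δ s)) ⁻¹' (ch α β γ δ '' ball (0 : ℂ) r) ∈ 𝓝 t :=
        ((hfc.iterate (n * k)).comp ho.continuous).continuousAt.preimage_mem_nhds
          (hopen.mem_nhds hk1)
      exact ⟨_, mem_nhdsWithin_of_mem_nhds h3, k, fun s hs => ⟨k, hk2, le_rfl, hs⟩⟩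
  obtain ⟨N, hN⟩ := hret
  set K : Set (OnePoint ℂ) := ⋃ j ∈ Finset.range (N + 1),
    f^[n * j] '' (ch α β γ δ '' closedBall (0 : ℂ) r) with hK
  have hKc : IsCompact K := by
    apply (Finset.range (N + 1)).isCompact_biUnion
    intro j _
    exact (hB.image ho.continuous).image (hfc.iterate _)
  have hKin : ∀ k : ℕ, ∀ t ∈ closedBall (0 : ℂ) r, f^[n * k] (ch α β γ δ t) ∈ K := by
    intro k
    induction k using Nat.strong_induction_on with
    | _ k ih =>
      intro t ht
      by_cases hk : k ≤ N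
      · rw [hK]
        simp only [Set.mem_iUnion]
        exact ⟨k, Finset.mem_range.2 (by omega), _, ⟨t, ht, rfl⟩, rfl⟩
      · obtain ⟨k', h1, h2, ⟨t', ht', h3⟩⟩ := hN t ht
        have h4 := ih (k - k') (by omega) t' (ball_subset_closedBall ht')
        rw [h3, ← Function.iterate_add_apply, ← mul_add] at h4
        have h5 : k - k' + k' = k := by omega
        rwa [h5] at h4
  have hatt : ∀ t ∈ closedBall (0 : ℂ) r, Att f (ch α β γ δ t) := by
    intro t ht
    exact ⟨z, n, ⟨hn, hfix, U, hU, hUt⟩, hUt _ (hrU ht)⟩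
  have hyK : y ∉ K := by
    intro h
    rw [hK] at h
    simp only [Set.mem_iUnion] at h
    obtain ⟨j, -, _, ⟨t, ht, rfl⟩, h3⟩ := h
    apply hy
    rw [← h3, att_iter hfc]
    exact hatt t ht
  have hKr : K ⊆ Set.range (ch α β γ δ) := by
    rw [hr]
    intro x hx hxy
    rw [Set.mem_singleton_iff] at hxy
    rw [hxy] at hx
    exact hyK hx
  have hKp : IsCompact (ch α β γ δ ⁻¹' K) := (ho.isInducing.isCompact_preimage_iff hKr).2 hKc
  obtain ⟨R, hR⟩ := hKp.isBounded.subset_closedBall 0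
  -- the iterates in the chart
  set F : ℕ → ℂ → ℂ := fun k => gn P Q α β γ δ (n * k) with hF
  have key : ∀ k : ℕ, ∀ t ∈ closedBall (0 : ℂ) r, f^[n * k] (ch α β γ δ t) = ch α β γ δ (F k t) ∧
      DifferentiableAt ℂ (F k) t ∧ ‖F k t‖ ≤ R := by
    intro k t ht
    have h1 := hKin k t ht
    obtain ⟨s, hs⟩ := hKr h1
    obtain ⟨h2, h3, -⟩ := gn_spec hc hd (n * k) hs.symm
    have h4 : F k t = s := h2
    refine ⟨?_, h3, ?_⟩
    · rw [h4]; exact hs.symm
    · have h5 : F k t ∈ closedBall (0 : ℂ) R := by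
        apply hR
        show ch α β γ δ (F k t) ∈ K
        rw [h4, hs]
        exact h1
      rwa [mem_closedBall_zero_iff] at h5
  have hR0 : 0 ≤ R := by
    have := (key 0 0 (mem_closedBall_self hr0.le)).2.2
    exact (norm_nonneg _).trans this
  -- uniform Lipschitz
  set ρ := r / 3 with hρ
  have hρ0 : 0 < ρ := by positivity
  have hρr : closedBall (0 : ℂ) ρ ⊆ closedBall (0 : ℂ) r :=
    closedBall_subset_closedBall (by rw [hρ]; linarith)
  have hlip : ∀ k : ℕ, ∀ s ∈ closedBall (0 : ℂ) ρ, ∀ t ∈ closedBall (0 : ℂ) ρ,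
      ‖F k s - F k t‖ ≤ R / ρ * ‖s - t‖ := by
    intro k
    have h3 : 3 * ρ = r := by rw [hρ]; ring
    apply lip_of_bound hρ0
    · rw [h3]
      intro t ht
      exact (key k t (ball_subset_closedBall ht)).2.1.differentiableWithinAt
    · rw [h3]
      intro t ht
      exact (key k t (ball_subset_closedBall ht)).2.2
  have hpt : ∀ t ∈ closedBall (0 : ℂ) r, Tendsto (fun k => F k t) atTop (𝓝 0) := by
    intro t ht
    rw [ho.isEmbedding.tendsto_nhds_iff, h0]
    refine (hUt _ (hrU ht)).congr (fun k => ?_)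
    exact (key k t ht).1
  -- uniform convergence
  have hunif : ∀ᶠ k : ℕ in atTop, ∀ t ∈ closedBall (0 : ℂ) ρ, t ∈ closedBall (0 : ℂ) ρ →
      F k t ∈ ball (0 : ℂ) (ρ / 4) := by
    apply (isCompact_closedBall (0 : ℂ) ρ).induction_on (p := fun S => ∀ᶠ k : ℕ in atTop,
      ∀ t ∈ S, t ∈ closedBall (0 : ℂ) ρ → F k t ∈ ball (0 : ℂ) (ρ / 4))
    · exact Eventually.of_forall (fun k t ht => absurd ht (Set.notMem_empty t))
    · intro s t hst h
      filter_upwards [h] with k hk x hx
      exact hk x (hst hx)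
    · intro s t h1 h2
      filter_upwards [h1, h2] with k hk1 hk2 x hx
      rcases hx with hx | hx
      · exact hk1 x hx
      · exact hk2 x hx
    · intro t ht
      have h1 := (hpt t (hρr ht)).eventually (ball_mem_nhds (0 : ℂ) (show 0 < ρ / 8 by positivity))
      set η := ρ / 8 / (R / ρ + 1) with hη
      have hη0 : 0 < η := by positivity
      refine ⟨ball t η, mem_nhdsWithin_of_mem_nhds (ball_mem_nhds t hη0), ?_⟩
      filter_upwards [h1] with k hk s hs hsρ
      have h2 := hlip k s hsρ t ht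
      rw [dist_zero_right] at hk
      rw [mem_ball_zero_iff]
      rw [mem_ball, dist_eq_norm] at hs
      have h3 : R / ρ * ‖s - t‖ ≤ (R / ρ + 1) * η := by
        have : 0 ≤ R / ρ := by positivity
        nlinarith [norm_nonneg (s - t)]
      have h4 : (R / ρ + 1) * η = ρ / 8 := by
        rw [hη]; field_simp
      calc ‖F k s‖ = ‖(F k s - F k t) + F k t‖ := by rw [sub_add_cancel]
        _ ≤ ‖F k s - F k t‖ + ‖F k t‖ := norm_add_le _ _
        _ < ρ / 4 := by linarith
  obtain ⟨k, hk1, hk2⟩ := (hunif.and (eventually_ge_atTop 1)).exists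
  obtain ⟨z', -, ha, hz'⟩ := trap_chart hd ho hc (N := n * k) hρ0 (by
    intro t ht
    exact ⟨F k t, hk1 t ht ht, (key k t (hρr ht)).1.symm⟩)
  have h1 := hz' 0 (mem_closedBall_self (by positivity))
  rw [h0] at h1
  have h2 : Tendsto (fun j : ℕ => (rat P Q)^[n * k * j] z) atTop (𝓝 z) := by
    have : ∀ j : ℕ, (rat P Q)^[n * k * j] z = z := by
      intro j
      rw [mul_assoc, Function.iterate_mul]
      exact Function.iterate_fixed hfix _
    simp only [this]
    exact tendsto_const_nhds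
  have h3 : z' = z := tendsto_nhds_unique h1 h2
  rw [h3] at ha
  exact ⟨k, hk2, ha⟩

theorem att_captured {P Q : Polynomial ℂ} (hc : IsCoprime P Q)
    (hy : ∃ y, ¬ Att (rat P Q) y) {x : OnePoint ℂ} (hx : Att (rat P Q) x) :
    Captured (rat P Q) x := by
  obtain ⟨y, hy⟩ := hy
  obtain ⟨z, n, hs, ht⟩ := hx
  obtain ⟨k, hk, ha⟩ := sink_attracting hc hy hs
  refine ⟨z, n * k, Nat.mul_pos hs.1 hk, ?_, ha, 0, ?_⟩
  · rw [Function.iterate_mul]
    exact Function.iterate_fixed hs.2.1 _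
  · have h4 : Tendsto (fun m : ℕ => k * m) atTop atTop :=
      tendsto_atTop_mono (fun m => Nat.le_mul_of_pos_left m hk) tendsto_id
    refine (ht.comp h4).congr (fun m => ?_)
    simp only [Function.comp_apply, add_zero, mul_assoc]

theorem isSink_of_attracting {f : OnePoint ℂ → OnePoint ℂ} {z : OnePoint ℂ} {n : ℕ} (hn : 0 < n)
    (hz : f^[n] z = z) (ha : Attracting f n z) : IsSink f z n := by
  have h := ha.tendsto
  exact ⟨hn, hz, _, h, fun w hw => hw⟩

theorem captured_att {f : OnePoint ℂ → OnePoint ℂ} (hf : Continuous f) {x : OnePoint ℂ}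
    (hx : Captured f x) : Att f x := by
  obtain ⟨z, n, hn, hz, ha, m, hm⟩ := hx
  have h1 : Att f (f^[m] x) := by
    refine ⟨z, n, isSink_of_attracting hn hz ha, ?_⟩
    refine hm.congr (fun k => ?_)
    rw [Function.iterate_add_apply]
  rwa [att_iter hf] at h1

theorem dense_att {P Q : Polynomial ℂ} (h : IsCoprime P Q)
    (hd : 2 ≤ max P.natDegree Q.natDegree) (hyp : HypMap (rat P Q)) :
    Dense {x | Att (rat P Q) x} := by
  by_cases hy : ∃ y, ¬ Att (rat P Q) y
  · have h1 := Pool.Agent.H91.Fatou.dense_captured h hd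
      (fun c hc => att_captured h hy (hyp c hc))
    refine h1.mono ?_
    intro x hx
    exact captured_att (rat_continuous h) hx
  · push Not at hy
    have : {x | Att (rat P Q) x} = Set.univ := by
      ext x; simp [hy x]
    rw [this]
    exact dense_univ

end Pool.Agent.H32.BT
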