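import Pool.Agent.H32.BT.Crit
import Pool.Agent.H44.Fatou.Gen
import Pool.Agent.H32.BT.Top

set_option autoImplicit false

open Filter Topology Polynomial OnePoint Metric Set

namespace Pool.Agent.H32.BT

open Pool.Agent.H44.Fatou

/-
The set {x | Att} is dense and open (att_open); first move h i to a point h1 i of this set (finite
points), choose a radius staying in the set, then apply generic_pts of H44/Fatou/Gen.lean with
B = {b | exists critical c, n with f^[n] c = b} union {b | exists n, f^[n+1] b = b} and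
R z w = (z = w or exists n, f^[n+1] z = w or exists n, f^[n+1] w = z). Countability: finitely many
critical points (crit_finite), fibres of f^[n+1] are finite (rat_fiber_finite and induction), so
{w | f^[n+1] w = z} is countable; {b | f^[n+1] b = b} is countable: e.g. if uncountable it would
have an accumulation point ... simplest: an attracted periodic point b is a sink point and has a
neighbourhood without other periodic points (all its points converge to b along multiples of n, a periodic point in it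
equals b), so the attracted periodic points form a discrete, hence countable set (second countable).
It is enough to treat attracted b: take B = ... union {b | Att f b and exists n, f^[n+1] b = b}.
-/

private theorem iter_fiber_finite {f : OnePoint ℂ → OnePoint ℂ}
    (hf : ∀ y, (f ⁻¹' {y}).Finite) : ∀ (n : ℕ) (y : OnePoint ℂ), (f^[n] ⁻¹' {y}).Finite := by
  intro n
  induction n with
  | zero => intro y; exact Set.finite_singleton y
  | succ n ih =>
    intro y
    have h1 : f^[n + 1] ⁻¹' {y} = f^[n] ⁻¹' (f ⁻¹' {y}) := by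
      rw [Function.iterate_succ']
      rfl
    rw [h1]
    exact (hf y).preimage' (fun b _ => ih b)

private theorem per_eq {f : OnePoint ℂ → OnePoint ℂ} {b z : OnePoint ℂ} {n m : ℕ}
    (hb : f^[m + 1] b = b) (ht : Tendsto (fun k : ℕ => f^[n * k] b) atTop (𝓝 z)) : b = z := by
  have h1 : Tendsto (fun k : ℕ => (m + 1) * k) atTop atTop :=
    tendsto_atTop_mono (fun k => Nat.le_mul_of_pos_left k (Nat.succ_pos m)) tendsto_id
  have h2 := ht.comp h1
  have h3 : ((fun k : ℕ => f^[n * k] b) ∘ fun k : ℕ => (m + 1) * k) = fun _ => b := by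
    funext k
    simp only [Function.comp_apply]
    have e : n * ((m + 1) * k) = (m + 1) * (n * k) := by ring
    rw [e, Function.iterate_mul]
    exact Function.iterate_fixed hb (n * k)
  rw [h3] at h2
  exact tendsto_nhds_unique tendsto_const_nhds h2

private theorem att_per_countable (f : OnePoint ℂ → OnePoint ℂ) :
    {b : ℂ | Att f b ∧ ∃ n : ℕ, f^[n + 1] (b : OnePoint ℂ) = b}.Countable := by
  set S : Set ℂ := {b : ℂ | Att f b ∧ ∃ n : ℕ, f^[n + 1] (b : OnePoint ℂ) = b} with hS
  have h1 : ∀ b ∈ S, ({b} : Set ℂ) ∈ 𝓝[S] b := by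
    rintro b ⟨⟨z, n, hz, ht⟩, m, hm⟩
    have hbz : (b : OnePoint ℂ) = z := per_eq hm ht
    obtain ⟨hn, hz2, U, hU, hUt⟩ := hz
    rw [← hbz] at hU hUt
    have hU2 : (fun w : ℂ => (w : OnePoint ℂ)) ⁻¹' U ∈ 𝓝 b :=
      OnePoint.continuous_coe.continuousAt.preimage_mem_nhds hU
    rw [mem_nhdsWithin_iff_exists_mem_nhds_inter]
    refine ⟨_, hU2, ?_⟩
    rintro w ⟨hw, _, m', hm'⟩
    have h2 : (w : OnePoint ℂ) = b := per_eq hm' (hUt _ hw)
    exact OnePoint.coe_injective h2
  obtain ⟨t, ht, htc, hst⟩ := TopologicalSpace.countable_cover_nhdsWithin h1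
  refine htc.mono (hst.trans ?_)
  intro x hx
  rw [Set.mem_iUnion₂] at hx
  obtain ⟨y, hy, hxy⟩ := hx
  rw [Set.mem_singleton_iff] at hxy
  rw [hxy]
  exact hy

private theorem coe_pre_countable {s : Set (OnePoint ℂ)} (hs : s.Countable) :
    {b : ℂ | (b : OnePoint ℂ) ∈ s}.Countable :=
  hs.preimage_of_injOn (f := fun w : ℂ => (w : OnePoint ℂ)) OnePoint.coe_injective.injOn

theorem generic_roots' {A B : Polynomial ℂ} (hcop : IsCoprime A B)
    (he : 2 ≤ max A.natDegree B.natDegree) (hdense : Dense {x | Att (rat A B) x}) {k : ℕ}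
    (h : Fin k → ℂ) {ε : ℝ} (hε : 0 < ε) :
    ∃ h' : Fin k → ℂ, (∀ i, ‖h' i - h i‖ < ε) ∧ (∀ i, Att (rat A B) (h' i)) ∧
      (∀ (c : OnePoint ℂ) (n : ℕ) (i : Fin k), IsCrit (rat A B) c →
        (rat A B)^[n] c ≠ (h' i : OnePoint ℂ)) ∧
      (∀ (i j : Fin k) (n : ℕ), (rat A B)^[n + 1] (h' i : OnePoint ℂ) ≠ (h' j : OnePoint ℂ)) ∧
      ∀ i j, i ≠ j → h' i ≠ h' j := by
  set f := rat A B with hf
  have hfc : Continuous f := rat_continuous hcop
  have h1d : 1 ≤ max A.natDegree B.natDegree := le_trans (by norm_num) he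
  have hfib : ∀ (n : ℕ) (y : OnePoint ℂ), (f^[n] ⁻¹' {y}).Finite :=
    iter_fiber_finite (fun y => rat_fiber_finite hcop h1d y)
  set S : Set ℂ := {z : ℂ | Att f z} with hS
  have hSo : IsOpen S := (att_open hfc).preimage OnePoint.continuous_coe
  have hSd : Dense S := hdense.preimage OnePoint.isOpenEmbedding_coe.isOpenMap
  have hε2 : 0 < ε / 2 := half_pos hε
  choose h1 hh1 hh1d using fun i : Fin k => hSd.exists_dist_lt (h i) hε2
  obtain ⟨δ, hδ0, hδε, hδS⟩ : ∃ δ : ℝ, 0 < δ ∧ δ ≤ ε / 2 ∧ ∀ i, ball (h1 i) δ ⊆ S := by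
    have h2 : ∀ i, ∀ᶠ δ : ℝ in 𝓝[>] 0, ball (h1 i) δ ⊆ S := by
      intro i
      obtain ⟨r, hr, hrs⟩ := Metric.isOpen_iff.1 hSo (h1 i) (hh1 i)
      filter_upwards [Ioo_mem_nhdsGT hr] with δ hδ
      exact (ball_subset_ball hδ.2.le).trans hrs
    have h3 := (eventually_all.2 h2).and (Ioo_mem_nhdsGT hε2)
    obtain ⟨δ, h4, h5⟩ := h3.exists
    exact ⟨δ, h5.1, h5.2.le, h4⟩
  set Bad : Set ℂ := {b : ℂ | (b : OnePoint ℂ) ∈ ⋃ n : ℕ, f^[n] '' {c | IsCrit f c}} ∪
    {b : ℂ | Att f b ∧ ∃ n : ℕ, f^[n + 1] (b : OnePoint ℂ) = b} with hBad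
  have hBadc : Bad.Countable := by
    refine (coe_pre_countable ?_).union (att_per_countable f)
    exact Set.countable_iUnion fun n => ((crit_finite hcop h1d).countable.image _)
  let Rel : ℂ → ℂ → Prop := fun z w => z = w ∨ (∃ n : ℕ, f^[n + 1] (z : OnePoint ℂ) = w) ∨
    ∃ n : ℕ, f^[n + 1] (w : OnePoint ℂ) = z
  have hRel : ∀ z, {w | Rel z w}.Countable := by
    intro z
    have h6 : {w | Rel z w} ⊆ {z} ∪ ({w : ℂ | (w : OnePoint ℂ) ∈
        Set.range fun n : ℕ => f^[n + 1] (z : OnePoint ℂ)} ∪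
        {w : ℂ | (w : OnePoint ℂ) ∈ ⋃ n : ℕ, f^[n + 1] ⁻¹' {(z : OnePoint ℂ)}}) := by
      rintro w (hw | ⟨n, hn⟩ | ⟨n, hn⟩)
      · left; exact hw.symm
      · right; left; exact ⟨n, hn⟩
      · right; right; exact Set.mem_iUnion.2 ⟨n, hn⟩
    refine Set.Countable.mono h6 ((Set.countable_singleton z).union
      ((coe_pre_countable (Set.countable_range _)).union (coe_pre_countable
        (Set.countable_iUnion fun n => (hfib (n + 1) _).countable))))
  have hsym : ∀ z w, Rel z w → Rel w z := by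
    rintro z w (hw | hw | hw)
    · exact Or.inl hw.symm
    · exact Or.inr (Or.inr hw)
    · exact Or.inr (Or.inl hw)
  obtain ⟨h', hd', hb', hr'⟩ := generic_pts Bad hBadc Rel hRel hsym k h1 δ hδ0
  have hatt : ∀ i, Att f (h' i) := by
    intro i
    apply hδS i
    rw [mem_ball, dist_eq_norm]
    exact hd' i
  refine ⟨h', ?_, hatt, ?_, ?_, ?_⟩
  · intro i
    have h7 : ‖h' i - h i‖ ≤ ‖h' i - h1 i‖ + ‖h1 i - h i‖ := by
      have : h' i - h i = (h' i - h1 i) + (h1 i - h i) := by ring
      rw [this]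
      exact norm_add_le _ _
    have h8 : ‖h1 i - h i‖ < ε / 2 := by
      rw [← dist_eq_norm, dist_comm]
      exact hh1d i
    have h9 := hd' i
    linarith
  · intro c n i hc hcon
    exact hb' i (Or.inl (Set.mem_iUnion.2 ⟨n, c, hc, hcon⟩))
  · intro i j n hcon
    by_cases hij : i = j
    · subst hij
      exact hb' i (Or.inr ⟨hatt i, n, hcon⟩)
    · exact hr' i j hij (Or.inr (Or.inl ⟨n, hcon⟩))
  · intro i j hij hcon
    exact hr' i j hij (Or.inl hcon)

end Pool.Agent.H32.BT
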