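import Pool.Agent.H32.BT.TrapSink
import Pool.Agent.H32.BT.Mult
import Pool.Agent.H32.BT.Crit

set_option autoImplicit false

open Filter Topology Polynomial OnePoint Metric Set

namespace Pool.Agent.H32.BT

open Pool.Agent.H44.Fatou

/-
Adapt mob_nhds and crit_reach in H44/Fatou/Mob3.lean. Put d = e + k,
v0 = (cf d (A * H), cf d (B * H)). Points attracted by f = rat A B never reach infinity
(att_iter, hinf). (1) Infinity is not critical for f (hyp, hinf), hence Wr of the reflected A, B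
does not vanish at 0 (crit_infty_of_wr), and since H.natDegree = k exactly also
wv (rv v0) 0 is not 0: no_crit_infty. (2) wv v0 z0 = Wr A B (z0) * H(z0)^2. Let z0 be a zero.
If H z0 = 0 use crit_near_hole (as in crit_reach) and the orbit of f z0, which is finite and avoids
the zeros of H (horb); if H z0 is not 0 then Wr A B z0 = 0, z0 is critical (crit_of_wr), attracted
(hyp) and its orbit avoids the zeros of H (hcrit). In both cases the orbit tends to a sink
(z1, n1) of f, z1 finite; sink_mult gives its finite orbit x and multiplier < 1 for A, B; the points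
x j are not zeros of H by horb with h = h' = x j (periodic), so the hypotheses of sink_of_mult hold
for v0 (factors H cancel). With the ball of sink_of_mult and track one gets: for (v, z) near
(v0, z0), if wv v z = 0 and v = (cf d P, cf d Q), P, Q coprime, then z is attracted for rat P Q.
(3) compactness of closedBall 0 R as in mob_nhds; and pass from the neighbourhood of v0 to
Near rho as in mob_main. crit_coe and crit_infty turn critical points of rat P Q into zeros.
-/

/-- attracted points have finite orbits if infinity is not attracted -/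
theorem rc_orbit {A B : Polynomial ℂ} (hcop : IsCoprime A B)
    (hinf : ¬ Att (rat A B) ∞) {z0 : ℂ} (hz : Att (rat A B) (z0 : OnePoint ℂ)) :
    ∃ x : ℕ → ℂ, x 0 = z0 ∧ (∀ j, (rat A B)^[j] (z0 : OnePoint ℂ) = (x j : OnePoint ℂ)) ∧
      (∀ j, B.eval (x j) ≠ 0) ∧ (∀ j, A.eval (x j) / B.eval (x j) = x (j + 1)) := by
  have hcont := rat_continuous hcop
  have h1 : ∀ j, ∃ y : ℂ, (rat A B)^[j] (z0 : OnePoint ℂ) = (y : OnePoint ℂ) := by
    intro j
    have h2 : (rat A B)^[j] (z0 : OnePoint ℂ) ≠ ∞ := by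
      intro h3
      apply hinf
      rw [← h3, att_iter hcont]
      exact hz
    obtain ⟨y, hy⟩ := OnePoint.ne_infty_iff_exists.1 h2
    exact ⟨y, hy.symm⟩
  choose x hx using h1
  have hx0 : x 0 = z0 := by
    have := hx 0
    simp only [Function.iterate_zero, id] at this
    exact (OnePoint.coe_injective this).symm
  have hB : ∀ j, B.eval (x j) ≠ 0 := by
    intro j h0
    have h2 := hx (j + 1)
    rw [Function.iterate_succ_apply', hx j, rat_coe] at h2
    unfold pt at h2
    rw [if_pos h0] at h2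
    exact infty_ne_coe _ h2
  refine ⟨x, hx0, hx, hB, ?_⟩
  intro j
  have h2 := hx (j + 1)
  rw [Function.iterate_succ_apply', hx j, rat_coe_of_ne (hB j)] at h2
  exact OnePoint.coe_injective h2

/-- the trap around the sink which attracts a point -/
theorem rc_trap {A B H : Polynomial ℂ} {d : ℕ} (hcop : IsCoprime A B)
    (hd1 : 1 ≤ max A.natDegree B.natDegree)
    (hAH : (A * H).natDegree ≤ d) (hBH : (B * H).natDegree ≤ d)
    (hinf : ¬ Att (rat A B) ∞)
    (horb : ∀ (h h' : ℂ) (n : ℕ), H.eval h = 0 → H.eval h' = 0 →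
      (rat A B)^[n + 1] (h : OnePoint ℂ) ≠ h')
    {z0 : ℂ} {x : ℕ → ℂ} (hz : Att (rat A B) (z0 : OnePoint ℂ))
    (hx : ∀ j, (rat A B)^[j] (z0 : OnePoint ℂ) = (x j : OnePoint ℂ)) :
    ∃ (N : Set ℂ) (m : ℕ), IsOpen N ∧ x (m + 1) ∈ N ∧
      ∀ᶠ v in 𝓝 ((cf d (A * H), cf d (B * H)) : (Fin (d + 1) → ℂ) × (Fin (d + 1) → ℂ)),
        ∀ P Q : Polynomial ℂ, IsCoprime P Q → P.natDegree ≤ d → Q.natDegree ≤ d →
          v = (cf d P, cf d Q) → ∀ w ∈ N, Att (rat P Q) (w : OnePoint ℂ) := by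
  obtain ⟨z1, n1, hs, ht⟩ := hz
  have hz1 : z1 ≠ ∞ := by
    intro h0
    apply hinf
    rw [← h0]
    exact att_sink hs
  obtain ⟨z, rfl⟩ := OnePoint.ne_infty_iff_exists.1 hz1
  obtain ⟨y, hy0, hy1, hy2, hy3, hy4, hy5⟩ := sink_mult hcop hd1 hinf hs
  have hn1 : 0 < n1 := hs.1
  have hper : (rat A B)^[n1] (z : OnePoint ℂ) = z := hs.2.1
  have hH : ∀ j, H.eval (y j) ≠ 0 := by
    intro j h0
    refine horb (y j) (y j) (n1 - 1) h0 h0 ?_
    rw [Nat.sub_add_cancel hn1, ← hy1 j, ← Function.iterate_add_apply, add_comm,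
      Function.iterate_add_apply, hper]
  set v0 : (Fin (d + 1) → ℂ) × (Fin (d + 1) → ℂ) := (cf d (A * H), cf d (B * H)) with hv0
  have e1 : ∀ z, ev v0.1 z = A.eval z * H.eval z := by
    intro z; rw [hv0]; simp only; rw [ev_cf hAH, eval_mul]
  have e2 : ∀ z, ev v0.2 z = B.eval z * H.eval z := by
    intro z; rw [hv0]; simp only; rw [ev_cf hBH, eval_mul]
  have e3 : ∀ z, wv v0 z = (Wr A B).eval z * H.eval z ^ 2 := by
    intro z; rw [hv0, wv_cf hAH hBH, Wr_mul, eval_mul, eval_pow]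
  obtain ⟨r, hr, _, hev⟩ := sink_of_mult v0 y n1 hn1 hy4
    (fun j _ => by rw [e2]; exact mul_ne_zero (hy2 j) (hH j))
    (fun j _ => by rw [e1, e2, mul_div_mul_right _ _ (hH j)]; exact hy3 j)
    (by
      have : ∀ j ∈ Finset.range n1, wv v0 (y j) / ev v0.2 (y j) ^ 2 =
          (Wr A B).eval (y j) / (B.eval (y j)) ^ 2 := by
        intro j _
        rw [e3, e2, mul_pow, mul_div_mul_right _ _ (pow_ne_zero 2 (hH j))]
      rw [Finset.prod_congr rfl this]
      exact hy5) Set.univ univ_mem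
  rw [hy0] at hev
  -- reach the ball
  have h1 : ((↑) : ℂ → OnePoint ℂ) '' ball z r ∈ 𝓝 (z : OnePoint ℂ) := by
    rw [nhds_coe_eq]; exact image_mem_map (ball_mem_nhds z hr)
  obtain ⟨k, hk1, hk2⟩ := ((ht.eventually h1).and (eventually_ge_atTop 1)).exists
  have hm : 1 ≤ n1 * k := Nat.mul_pos hn1 hk2
  obtain ⟨m, hm⟩ := Nat.exists_eq_add_of_le' hm
  refine ⟨ball z r, m, isOpen_ball, ?_, ?_⟩
  · obtain ⟨w, hw1, hw2⟩ := hk1
    rw [hm, hx] at hw2
    rw [← OnePoint.coe_injective hw2]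
    exact hw1
  · filter_upwards [hev] with v hv P Q hPQ hP hQ hvPQ w hw
    obtain ⟨z', _, hz's, hz't⟩ := hv P Q hPQ hP hQ hvPQ
    exact ⟨z', n1, hz's, (hz't w (ball_subset_closedBall hw)).1⟩

theorem rc_local {A B H : Polynomial ℂ} {d : ℕ} (hcop : IsCoprime A B)
    (hd1 : 1 ≤ max A.natDegree B.natDegree)
    (hAH : (A * H).natDegree ≤ d) (hBH : (B * H).natDegree ≤ d)
    (hsq : ∀ h, H.eval h = 0 → (derivative H).eval h ≠ 0)
    (hinf : ¬ Att (rat A B) ∞) (hyp : HypMap (rat A B))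
    (hroots : ∀ h : ℂ, H.eval h = 0 → Att (rat A B) h)
    (hcrit : ∀ (c : OnePoint ℂ) (n : ℕ) (h : ℂ), IsCrit (rat A B) c → H.eval h = 0 →
      (rat A B)^[n] c ≠ h)
    (horb : ∀ (h h' : ℂ) (n : ℕ), H.eval h = 0 → H.eval h' = 0 →
      (rat A B)^[n + 1] (h : OnePoint ℂ) ≠ h') (z0 : ℂ) :
    ∀ᶠ y : ((Fin (d + 1) → ℂ) × (Fin (d + 1) → ℂ)) × ℂ in 𝓝 ((cf d (A * H), cf d (B * H)), z0),
      wv y.1 y.2 = 0 → (ev y.1.1 y.2 ≠ 0 ∨ ev y.1.2 y.2 ≠ 0) →
        ∀ P Q : Polynomial ℂ, IsCoprime P Q → P.natDegree ≤ d → Q.natDegree ≤ d →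
          y.1 = (cf d P, cf d Q) → Att (rat P Q) (y.2 : OnePoint ℂ) := by
  set v0 : (Fin (d + 1) → ℂ) × (Fin (d + 1) → ℂ) := (cf d (A * H), cf d (B * H)) with hv0
  have e1 : ∀ z, ev v0.1 z = A.eval z * H.eval z := by
    intro z; rw [hv0]; simp only; rw [ev_cf hAH, eval_mul]
  have e2 : ∀ z, ev v0.2 z = B.eval z * H.eval z := by
    intro z; rw [hv0]; simp only; rw [ev_cf hBH, eval_mul]
  have e3 : ∀ z, wv v0 z = (Wr A B).eval z * H.eval z ^ 2 := by
    intro z; rw [hv0, wv_cf hAH hBH, Wr_mul, eval_mul, eval_pow]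
  have hfst : ∀ z : ℂ, Tendsto (fun y : ((Fin (d + 1) → ℂ) × (Fin (d + 1) → ℂ)) × ℂ => y.1)
      (𝓝 (v0, z)) (𝓝 v0) := fun z => continuous_fst.tendsto (v0, z)
  by_cases hz : H.eval z0 = 0
  · have hatt := hroots z0 hz
    obtain ⟨x, hx0, hx, hxB, hxs⟩ := rc_orbit hcop hinf hatt
    obtain ⟨N, m, hNo, hxN, hN⟩ := rc_trap hcop hd1 hAH hBH hinf horb hatt hx
    have hxH : ∀ i, H.eval (x (i + 1)) ≠ 0 := by
      intro i h0
      exact horb z0 _ i hz h0 (hx (i + 1))
    have htr := track v0 m (fun i => x (i + 1))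
      (by
        intro i _
        rw [e2]
        exact mul_ne_zero (hxB _) (hxH _))
      (by
        intro i _
        rw [e2, e1, mul_div_mul_right _ _ (hxH i)]
        exact hxs (i + 1)) N (hNo.mem_nhds hxN)
    rw [nhds_prod_eq, eventually_prod_iff] at htr
    obtain ⟨p, hp, q, hq, hpq⟩ := htr
    have hx1' : x (0 + 1) = A.eval z0 / B.eval z0 := by
      rw [← hx0]; exact (hxs 0).symm
    have hq' : ∀ᶠ y in 𝓝 (A.eval z0 / B.eval z0), q y := by
      rw [← hx1']; exact hq
    have hd1' : dev v0.1 z0 = A.eval z0 * (derivative H).eval z0 := by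
      rw [hv0]; simp only
      rw [dev_cf hAH, derivative_mul, eval_add, eval_mul, eval_mul, hz]
      simp
    have hd2' : dev v0.2 z0 = B.eval z0 * (derivative H).eval z0 := by
      rw [hv0]; simp only
      rw [dev_cf hBH, derivative_mul, eval_add, eval_mul, eval_mul, hz]
      simp
    have hch := crit_near_hole v0 (A := fun z => A.eval z) (B := fun z => B.eval z)
      (G := fun z => (derivative H).eval z) (h := z0) A.continuous B.continuous
      (derivative H).continuous (by have := hxB 0; rwa [hx0] at this) (hsq z0 hz)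
      hd1' hd2' (N := {w | q w}) hq'
    have hp' := (hfst z0).eventually hp
    have hN' := (hfst z0).eventually hN
    filter_upwards [hch, hp', hN'] with y hy1 hy2 hy3 hw hne P Q hPQ hP hQ hyPQ
    obtain ⟨h3, h4⟩ := hy1 hw hne
    obtain ⟨w, hw1, hw2⟩ := hpq hy2 h4
    have h5 := hy3 P Q hPQ hP hQ hyPQ w hw1
    have h6 : Reach y.1 (m + 1) y.2 w := ⟨h3, hw2⟩
    rw [hyPQ] at h6
    have h7 := reach_rat hP hQ (m + 1) y.2 w h6
    rw [← h7, att_iter (rat_continuous hPQ)] at h5
    exact h5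
  · by_cases hW : (Wr A B).eval z0 = 0
    · have hcr : IsCrit (rat A B) (z0 : OnePoint ℂ) := crit_of_wr hcop hd1 hW
      have hatt := hyp _ hcr
      obtain ⟨x, hx0, hx, hxB, hxs⟩ := rc_orbit hcop hinf hatt
      obtain ⟨N, m, hNo, hxN, hN⟩ := rc_trap hcop hd1 hAH hBH hinf horb hatt hx
      have hxH : ∀ i, H.eval (x i) ≠ 0 := by
        intro i h0
        exact hcrit _ i (x i) hcr h0 (hx i)
      have htr := track v0 (m + 1) x
        (by
          intro i _
          rw [e2]
          exact mul_ne_zero (hxB _) (hxH _))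
        (by
          intro i _
          rw [e2, e1, mul_div_mul_right _ _ (hxH i)]
          exact hxs i) N (hNo.mem_nhds hxN)
      rw [hx0] at htr
      have hN' := (hfst z0).eventually hN
      filter_upwards [htr, hN'] with y hy1 hy3 hw hne P Q hPQ hP hQ hyPQ
      obtain ⟨w, hw1, hw2⟩ := hy1
      have h5 := hy3 P Q hPQ hP hQ hyPQ w hw1
      rw [hyPQ] at hw2
      have h7 := reach_rat hP hQ (m + 1) y.2 w hw2
      rw [← h7, att_iter (rat_continuous hPQ)] at h5
      exact h5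
    · have h1 : wv v0 z0 ≠ 0 := by
        rw [e3]
        exact mul_ne_zero hW (pow_ne_zero 2 hz)
      have h2 := (wv_cont (d := d)).tendsto (v0, z0)
      have h3 := h2.eventually_ne h1
      filter_upwards [h3] with y hy hw
      exact absurd hw hy

theorem robust_chart {A B H : Polynomial ℂ} {e k : ℕ} (hcop : IsCoprime A B)
    (he : max A.natDegree B.natDegree = e) (he1 : 1 ≤ e) (hH0 : H ≠ 0) (hH : H.natDegree = k)
    (hsq : ∀ h, H.eval h = 0 → (derivative H).eval h ≠ 0)
    (hinf : ¬ Att (rat A B) ∞) (hyp : HypMap (rat A B))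
    (hroots : ∀ h : ℂ, H.eval h = 0 → Att (rat A B) h)
    (hcrit : ∀ (c : OnePoint ℂ) (n : ℕ) (h : ℂ), IsCrit (rat A B) c → H.eval h = 0 →
      (rat A B)^[n] c ≠ h)
    (horb : ∀ (h h' : ℂ) (n : ℕ), H.eval h = 0 → H.eval h' = 0 →
      (rat A B)^[n + 1] (h : OnePoint ℂ) ≠ h') :
    Robust (e + k) (A * H) (B * H) := by
  have hd1 : 1 ≤ max A.natDegree B.natDegree := by rw [he]; exact he1
  have hAe : A.natDegree ≤ e := by rw [← he]; exact le_max_left _ _
  have hBe : B.natDegree ≤ e := by rw [← he]; exact le_max_right _ _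
  have hAH : (A * H).natDegree ≤ e + k := natDegree_mul_le.trans (by omega)
  have hBH : (B * H).natDegree ≤ e + k := natDegree_mul_le.trans (by omega)
  set d := e + k with hd
  set v0 : (Fin (d + 1) → ℂ) × (Fin (d + 1) → ℂ) := (cf d (A * H), cf d (B * H)) with hv0
  -- infinity
  have hW : (Wr (reflect (dg A B) A) (reflect (dg A B) B)).eval 0 ≠ 0 := by
    intro h0
    exact hinf (hyp _ (crit_infty_of_wr hcop hd1 h0))
  have hdg : dg A B = e := he
  rw [hdg] at hW
  have hinf0 : wv (rv v0) 0 ≠ 0 := by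
    rw [hv0, rv_cf, wv_cf (natDegree_reflect_le' hAH) (natDegree_reflect_le' hBH), hd,
      reflect_mul A H hAe hH.le, reflect_mul B H hBe hH.le, Wr_mul, eval_mul, eval_pow,
      eval_reflect_zero]
    refine mul_ne_zero hW (pow_ne_zero 2 ?_)
    rw [← hH]
    exact leadingCoeff_ne_zero.2 hH0
  obtain ⟨R, hR, hnc⟩ := no_crit_infty v0 hinf0
  -- compact part
  have hcomp : ∀ᶠ v in 𝓝 v0, ∀ z ∈ closedBall (0 : ℂ) R,
      wv v z = 0 → (ev v.1 z ≠ 0 ∨ ev v.2 z ≠ 0) →
        ∀ P Q : Polynomial ℂ, IsCoprime P Q → P.natDegree ≤ d → Q.natDegree ≤ d →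
          v = (cf d P, cf d Q) → Att (rat P Q) (z : OnePoint ℂ) := by
    apply (isCompact_closedBall (0 : ℂ) R).eventually_forall_of_forall_eventually
    intro z0 _
    exact rc_local hcop hd1 hAH hBH hsq hinf hyp hroots hcrit horb z0
  obtain ⟨ρ, hρ, hball⟩ := Metric.eventually_nhds_iff_ball.1 (hnc.and hcomp)
  refine ⟨ρ, hρ, ?_⟩
  intro P Q hPQ hdeg hnear
  have hmem : ((cf d P, cf d Q) : (Fin (d + 1) → ℂ) × (Fin (d + 1) → ℂ)) ∈ ball v0 ρ := by
    rw [mem_ball, hv0, Prod.dist_eq, max_lt_iff]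
    constructor
    · rw [dist_pi_lt_iff hρ]
      intro i
      rw [dist_eq_norm]
      exact (hnear i).1
    · rw [dist_pi_lt_iff hρ]
      intro i
      rw [dist_eq_norm]
      exact (hnear i).2
  obtain ⟨h2, h3⟩ := hball _ hmem
  have hPd : P.natDegree ≤ d := by rw [← hdeg]; exact le_max_left _ _
  have hQd : Q.natDegree ≤ d := by rw [← hdeg]; exact le_max_right _ _
  intro c hc
  induction c using OnePoint.rec with
  | infty =>
    exfalso
    have h4 := crit_infty hc
    apply h2.2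
    rw [rv_cf, wv_cf (natDegree_reflect_le' hPd) (natDegree_reflect_le' hQd)]
    have : dg P Q = d := hdeg
    rw [← this]
    exact h4
  | coe c =>
    have h4 := crit_coe hc
    have h5 : ‖c‖ ≤ R := by
      by_contra h6
      push Not at h6
      apply h2.1 c h6
      rw [wv_cf hPd hQd]
      exact h4
    refine h3 c (by rw [mem_closedBall_zero_iff]; exact h5) (by rw [wv_cf hPd hQd]; exact h4) ?_
      P Q hPQ hPd hQd rfl
    simp only
    rw [ev_cf hPd, ev_cf hQd]
    exact coprime_eval hPQ c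

end Pool.Agent.H32.BT
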