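import Pool.Agent.H32.BT.Conv
import Pool.Agent.H32.BT.RobustChart
import Pool.Agent.H32.BT.NotAtt
import Pool.Agent.H32.BT.Dense
import Pool.Agent.H32.BT.Generic

set_option autoImplicit false

open Filter Topology Polynomial OnePoint Metric Set

namespace Pool.Agent.H32.BT

open Pool.Agent.H44.Fatou

theorem dense_att {A B : Polynomial ℂ} (hcop : IsCoprime A B)
    (hd : 2 ≤ max A.natDegree B.natDegree) (hyp : HypMap (rat A B)) :
    Dense {x | Att (rat A B) x} := by
  obtain ⟨c, hc⟩ := exists_crit hcop hd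
  have hatt := hyp c hc
  induction c using OnePoint.rec with
  | infty => exact dense_chart hcop hd hyp hatt
  | coe c =>
    obtain ⟨φ, -, hφs, hφi, hφ⟩ := exists_mob c
    obtain ⟨hcop', hdeg', hconj⟩ := hφ _ A B hcop rfl (by omega)
    have hatt' : Att (rat (cj1 c (max A.natDegree B.natDegree) A B)
        (cj2 c (max A.natDegree B.natDegree) A B)) ∞ := by
      rw [← hφs, att_conj φ hconj]
      exact hatt
    have hD := dense_chart hcop' (by omega) ((hypMap_conj φ hconj).2 hyp) hatt'
    have hpre := hD.preimage φ.isOpenMap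
    refine hpre.mono ?_
    intro x hx
    exact (att_conj φ hconj x).1 hx

/-- the transferred common factor -/
theorem reflect_root {H : Polynomial ℂ} {k : ℕ} {s : ℂ} (hH : H.natDegree = k) (hH0 : H ≠ 0)
    {y : ℂ} (hy : (reflect k (H.comp (X + C s))).eval y = 0) :
    y ≠ 0 ∧ H.eval (y⁻¹ + s) = 0 := by
  have hdeg : (H.comp (X + C s)).natDegree = k := by
    rw [natDegree_comp, natDegree_X_add_C, mul_one, hH]
  have hy0 : y ≠ 0 := by
    rintro rfl
    rw [eval_reflect_zero] at hy
    have h1 : (H.comp (X + C s)).leadingCoeff = 0 := by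
      rw [leadingCoeff, hdeg]; exact hy
    rw [leadingCoeff_eq_zero] at h1
    have h2 := congrArg (fun p => p.comp (X - C s)) h1
    simp only [comp_assoc, add_comp, X_comp, C_comp, sub_add_cancel, comp_X, zero_comp] at h2
    exact hH0 h2
  refine ⟨hy0, ?_⟩
  have h1 := eval_reflect (P := H.comp (X + C s)) (N := k) hdeg.le (inv_ne_zero hy0)
  rw [inv_inv, hy, zero_mul, eval_comp, eval_add, eval_X, eval_C] at h1
  exact h1

theorem reflect_simple {H : Polynomial ℂ} {k : ℕ} {s : ℂ} (hH : H.natDegree = k) (hH0 : H ≠ 0)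
    (hsq : ∀ h, H.eval h = 0 → (derivative H).eval h ≠ 0)
    {y : ℂ} (hy : (reflect k (H.comp (X + C s))).eval y = 0) :
    (derivative (reflect k (H.comp (X + C s)))).eval y ≠ 0 := by
  intro hder
  obtain ⟨hy0, hroot⟩ := reflect_root hH hH0 hy
  have hdeg : (H.comp (X + C s)).natDegree ≤ k := by
    rw [natDegree_comp, natDegree_X_add_C, mul_one, hH]
  apply hsq _ hroot
  set G := reflect k (H.comp (X + C s)) with hG
  set h := y⁻¹ + s with hh
  have hhs : h - s ≠ 0 := by rw [hh]; simpa using hy0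
  have hys : (h - s)⁻¹ = y := by rw [hh]; simp
  -- H z = G (1/(z-s)) (z-s)^k
  have h1 : ∀ᶠ z in 𝓝 h, H.eval z = G.eval ((z - s)⁻¹) * (z - s) ^ k := by
    have : ∀ᶠ z in 𝓝 h, z ≠ s := isOpen_ne.mem_nhds (by intro h'; exact hhs (by rw [h']; ring))
    filter_upwards [this] with z hz
    have h2 := eval_reflect (P := H.comp (X + C s)) (N := k) hdeg (sub_ne_zero.2 hz)
    rw [eval_comp, eval_add, eval_X, eval_C, sub_add_cancel] at h2
    exact h2
  have d1 : HasDerivAt (fun z => H.eval z) ((derivative H).eval h) h := H.hasDerivAt h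
  have d2 : HasDerivAt (fun z : ℂ => (z - s)⁻¹) (-1 / (h - s) ^ 2) h := by
    have := ((hasDerivAt_id h).sub_const s).inv hhs
    exact this
  have d3 : HasDerivAt (fun z => G.eval ((z - s)⁻¹)) ((derivative G).eval ((h - s)⁻¹) *
      (-1 / (h - s) ^ 2)) h := by
    have := (G.hasDerivAt ((h - s)⁻¹)).comp h d2
    exact this
  have d4 : HasDerivAt (fun z : ℂ => (z - s) ^ k) (k * (h - s) ^ (k - 1) * 1) h :=
    ((hasDerivAt_id h).sub_const s).pow k
  have d5 := d3.mul d4
  have d6 : HasDerivAt (fun z => H.eval z) _ h := d5.congr_of_eventuallyEq h1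
  have := d1.unique d6
  rw [this, hys, hder, hy]
  simp

theorem simple_roots {k : ℕ} {l : ℂ} (hl : l ≠ 0) (h : Fin k → ℂ)
    (hinj : ∀ i j, i ≠ j → h i ≠ h j) {y : ℂ} (hy : (C l * ∏ i, (X - C (h i))).eval y = 0) :
    (derivative (C l * ∏ i, (X - C (h i)))).eval y ≠ 0 := by
  have hsep : (∏ i, (X - C (h i))).Separable := by
    rw [separable_prod_X_sub_C_iff]
    intro i j hij
    by_contra hne
    exact hinj i j hne hij
  have hsep2 : (C l * ∏ i, (X - C (h i))).Separable := hsep.unit_mul (isUnit_C.2 hl.isUnit)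
  intro hd
  obtain ⟨a, b, hab⟩ := hsep2
  have h1 : a.eval y * (C l * ∏ i, (X - C (h i))).eval y +
      b.eval y * (derivative (C l * ∏ i, (X - C (h i)))).eval y = 1 := by
    rw [← eval_mul, ← eval_mul, ← eval_add, hab, eval_one]
  rw [hy, hd] at h1
  simp at h1

theorem root_of_prod {k : ℕ} {l : ℂ} (hl : l ≠ 0) (h : Fin k → ℂ) {y : ℂ}
    (hy : (C l * ∏ i, (X - C (h i))).eval y = 0) : ∃ i, y = h i := by
  rw [eval_mul, eval_C, eval_prod, mul_eq_zero, Finset.prod_eq_zero_iff] at hy
  rcases hy with hy | ⟨i, -, hi⟩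
  · exact absurd hy hl
  · exact ⟨i, by rwa [eval_sub, eval_X, eval_C, sub_eq_zero] at hi⟩

/-- **the forward direction**: robust common factors are dense -/
theorem robust_of_hyp {A B : Polynomial ℂ} {e k : ℕ} (hcop : IsCoprime A B)
    (he : max A.natDegree B.natDegree = e) (he2 : 2 ≤ e) (hyp : HypMap (rat A B))
    {H : Polynomial ℂ} (hH : H.natDegree ≤ k) {ε : ℝ} (hε : 0 < ε) :
    ∃ H' : Polynomial ℂ, H' ≠ 0 ∧ H'.natDegree = k ∧ (∀ i, ‖H'.coeff i - H.coeff i‖ < ε) ∧
      Robust (e + k) (A * H') (B * H') := by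
  have hd2 : 2 ≤ max A.natDegree B.natDegree := by omega
  have hA : A.natDegree ≤ e := by have := le_max_left A.natDegree B.natDegree; omega
  have hB : B.natDegree ≤ e := by have := le_max_right A.natDegree B.natDegree; omega
  obtain ⟨H1, hH10, hH1, hnear1⟩ := pert_full H hH (half_pos hε)
  obtain ⟨l, h, hl, rfl⟩ := exists_roots k H1 hH10 hH1
  -- continuity of the product
  have hcont : ContC (fun h : Fin k → ℂ => C l * ∏ i, (X - C (h i))) := by
    apply (ContC.const (C l)).mul
    apply ContC.prod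
    intro i
    exact (ContC.const X).sub (ContC.C (continuous_apply i))
  have hev := hcont.near (d := k) (fun h => (natDegree_roots hl h).le) h (half_pos hε)
  obtain ⟨η, hη, hball⟩ := Metric.eventually_nhds_iff_ball.1 hev
  obtain ⟨h', h1, h2, h3, h4, h5⟩ := generic_roots' hcop hd2 (dense_att hcop hd2 hyp) h
    (half_pos hη)
  have hin : h' ∈ ball h η := by
    rw [mem_ball, dist_pi_lt_iff hη]
    intro i
    rw [dist_eq_norm]
    exact (h1 i).trans (half_lt_self hη)
  set H' := C l * ∏ i, (X - C (h' i)) with hH'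
  have hdeg' : H'.natDegree = k := natDegree_roots hl h'
  have hH'0 : H' ≠ 0 := by
    intro h0
    have hm : (∏ i, (X - C (h' i))).Monic := monic_prod_of_monic _ _ (fun i _ => monic_X_sub_C _)
    rw [hH', mul_eq_zero, C_eq_zero] at h0
    exact h0.elim hl hm.ne_zero
  have hsq : ∀ y, H'.eval y = 0 → (derivative H').eval y ≠ 0 := fun y hy =>
    simple_roots hl h' h5 hy
  refine ⟨H', hH'0, hdeg', ?_, ?_⟩
  · intro i
    calc ‖H'.coeff i - H.coeff i‖ =
        ‖(H'.coeff i - (C l * ∏ i, (X - C (h i))).coeff i) +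
          ((C l * ∏ i, (X - C (h i))).coeff i - H.coeff i)‖ := by ring_nf
      _ ≤ ‖H'.coeff i - (C l * ∏ i, (X - C (h i))).coeff i‖ +
          ‖(C l * ∏ i, (X - C (h i))).coeff i - H.coeff i‖ := norm_add_le _ _
      _ < ε := by linarith [hball h' hin i, hnear1 i]
  · by_cases hinf : Att (rat A B) ∞
    · obtain ⟨x, hx⟩ := exists_not_att hcop hd2
      obtain ⟨s, rfl⟩ : ∃ s : ℂ, x = (s : OnePoint ℂ) := by
        have : x ≠ ∞ := fun h => hx (h ▸ hinf)
        obtain ⟨y, hy⟩ := OnePoint.ne_infty_iff_exists.1 this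
        exact ⟨y, hy.symm⟩
      obtain ⟨φ, hφ1, hφs, hφi, hφ⟩ := exists_mob s
      obtain ⟨hcop', hdeg2, hconj⟩ := hφ e A B hcop he (by omega)
      set G := reflect k (H'.comp (X + C s)) with hG
      have hrootG : ∀ y : ℂ, G.eval y = 0 → ∃ i, φ (h' i : OnePoint ℂ) = (y : OnePoint ℂ) := by
        intro y hy
        obtain ⟨hy0, hr⟩ := reflect_root hdeg' hH'0 hy
        obtain ⟨i, hi⟩ := root_of_prod hl h' hr
        refine ⟨i, ?_⟩
        rw [← hi, hφ1 _ (by simpa using hy0)]
        simp
      have hGk : G.coeff k ≠ 0 := by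
        rw [hG, coeff_reflect, revAt_le le_rfl, Nat.sub_self, coeff_zero_eq_eval_zero, eval_comp,
          eval_add, eval_X, eval_C, zero_add]
        intro h0
        obtain ⟨i, hi⟩ := root_of_prod hl h' h0
        exact hx (hi ▸ h2 i)
      have hGle : G.natDegree ≤ k := by
        apply natDegree_reflect_le'
        rw [natDegree_comp, natDegree_X_add_C, mul_one, hdeg']
      have hGdeg : G.natDegree = k := le_antisymm hGle (le_natDegree_of_ne_zero hGk)
      have hG0 : G ≠ 0 := by
        intro h0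
        rw [h0] at hGk
        simp at hGk
      obtain ⟨m1, m2⟩ := cj_mul s (k := k) hA hB hdeg'.le
      rw [← robust_cj s (d := e + k) (by omega)
        (natDegree_mul_le.trans (by omega)) (natDegree_mul_le.trans (by omega)), m1, m2]
      refine robust_chart hcop' hdeg2 (by omega) hG0 hGdeg ?_ ?_ ((hypMap_conj φ hconj).2 hyp)
        ?_ ?_ ?_
      · intro y hy
        exact reflect_simple hdeg' hH'0 hsq hy
      · rw [← hφs, att_conj φ hconj]
        exact hx
      · intro y hy
        obtain ⟨i, hi⟩ := hrootG y hy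
        rw [← hi, att_conj φ hconj]
        exact h2 i
      · intro c n y hc hy heq
        obtain ⟨i, hi⟩ := hrootG y hy
        obtain ⟨c0, rfl⟩ := φ.surjective c
        rw [isCrit_conj φ hconj] at hc
        rw [iter_conj φ hconj, ← hi] at heq
        exact h3 c0 n i hc (φ.injective heq)
      · intro y y' n hy hy' heq
        obtain ⟨i, hi⟩ := hrootG y hy
        obtain ⟨j, hj⟩ := hrootG y' hy'
        rw [← hi, ← hj, iter_conj φ hconj] at heq
        exact h4 i j n (φ.injective heq)
    · refine robust_chart hcop he (by omega) hH'0 hdeg' hsq hinf hyp ?_ ?_ ?_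
      · intro y hy
        obtain ⟨i, rfl⟩ := root_of_prod hl h' hy
        exact h2 i
      · intro c n y hc hy
        obtain ⟨i, rfl⟩ := root_of_prod hl h' hy
        exact h3 c n i hc
      · intro y y' n hy hy'
        obtain ⟨i, rfl⟩ := root_of_prod hl h' hy
        obtain ⟨j, rfl⟩ := root_of_prod hl h' hy'
        exact h4 i j n

end Pool.Agent.H32.BT
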