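import Pool.Agent.H32.BT.Bdry
import Pool.Agent.H32.BT.Bridge
import Pool.Agent.H91.Fatou.Main

set_option autoImplicit false

open Filter Topology Polynomial OnePoint Metric Set

namespace Pool.Agent.H32.BT

open Pool.Agent.H44.Fatou

/-- robustness with the frozen wording of hyperbolicity -/
def RobustH (d : ℕ) (P0 Q0 : Polynomial ℂ) : Prop :=
  ∃ ρ : ℝ, 0 < ρ ∧ ∀ P Q : Polynomial ℂ, IsCoprime P Q → max P.natDegree Q.natDegree = d →
    (∀ i : ℕ, ‖P.coeff i - P0.coeff i‖ < ρ ∧ ‖Q.coeff i - Q0.coeff i‖ < ρ) → Hyp P Q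

theorem robustH_iff {d : ℕ} (hd : 1 ≤ d) (P0 Q0 : Polynomial ℂ) :
    RobustH d P0 Q0 ↔ Robust d P0 Q0 := by
  constructor
  · rintro ⟨ρ, hρ, h⟩
    exact ⟨ρ, hρ, fun P Q hc hm hn => (hyp_iff hc (by omega)).1 (h P Q hc hm hn)⟩
  · rintro ⟨ρ, hρ, h⟩
    exact ⟨ρ, hρ, fun P Q hc hm hn => (hyp_iff hc (by omega)).2 (h P Q hc hm hn)⟩

theorem boundary_test {d e : ℕ} (he : 2 ≤ e) (hed : e < d) {A B : Polynomial ℂ}
    (hcop : IsCoprime A B) (hdeg : max A.natDegree B.natDegree = e) :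
    (Hyp A B ↔ ∃ H : Polynomial ℂ, H ≠ 0 ∧ H.natDegree ≤ d - e ∧ RobustH d (A * H) (B * H)) ∧
    (Hyp A B → ∀ H : Polynomial ℂ, H.natDegree ≤ d - e → ∀ ε : ℝ, 0 < ε →
      ∃ H' : Polynomial ℂ, H'.natDegree = d - e ∧ (∀ i : ℕ, ‖H'.coeff i - H.coeff i‖ < ε) ∧
        RobustH d (A * H') (B * H')) := by
  obtain ⟨k, rfl⟩ : ∃ k, d = e + k := ⟨d - e, by omega⟩
  rw [Nat.add_sub_cancel_left]
  have h1 : 1 ≤ max A.natDegree B.natDegree := by omega
  have key : Hyp A B → ∀ H : Polynomial ℂ, H.natDegree ≤ k → ∀ ε : ℝ, 0 < ε →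
      ∃ H' : Polynomial ℂ, H' ≠ 0 ∧ H'.natDegree = k ∧ (∀ i : ℕ, ‖H'.coeff i - H.coeff i‖ < ε) ∧
        RobustH (e + k) (A * H') (B * H') := by
    intro hyp H hH ε hε
    obtain ⟨H', h0, h2, h3, h4⟩ := robust_of_hyp hcop hdeg he ((hyp_iff hcop h1).1 hyp) hH hε
    exact ⟨H', h0, h2, h3, (robustH_iff (by omega) _ _).2 h4⟩
  refine ⟨⟨fun hyp => ?_, ?_⟩, fun hyp H hH ε hε => ?_⟩
  · obtain ⟨H', h0, h2, -, h4⟩ := key hyp 0 (by simp) 1 one_pos
    exact ⟨H', h0, h2.le, h4⟩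
  · rintro ⟨H, hH0, hH, hrob⟩
    exact (hyp_iff hcop h1).2 (hyp_of_robust k hcop hdeg he hH0 hH
      ((robustH_iff (by omega) _ _).1 hrob))
  · obtain ⟨H', -, h2, h3, h4⟩ := key hyp H hH ε hε
    exact ⟨H', h2, h3, h4⟩

/-- density of hyperbolicity in degree `d`, frozen wording -/
def FatouH (d : ℕ) : Prop :=
  ∀ P Q : Polynomial ℂ, IsCoprime P Q → max P.natDegree Q.natDegree = d → ∀ ε : ℝ, 0 < ε →
    ∃ P' Q' : Polynomial ℂ, IsCoprime P' Q' ∧ max P'.natDegree Q'.natDegree = d ∧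
      (∀ i : ℕ, ‖P'.coeff i - P.coeff i‖ < ε ∧ ‖Q'.coeff i - Q.coeff i‖ < ε) ∧ Hyp P' Q'

def BdryH (d : ℕ) : Prop :=
  ∀ P Q : Polynomial ℂ, IsBdry d P Q → ∀ ε : ℝ, 0 < ε →
    ∃ P' Q' : Polynomial ℂ, IsBdry d P' Q' ∧
      (∀ i : ℕ, ‖P'.coeff i - P.coeff i‖ < ε ∧ ‖Q'.coeff i - Q.coeff i‖ < ε) ∧ RobustH d P' Q'

theorem fatouH_iff {d : ℕ} (hd : 1 ≤ d) : FatouH d ↔ FatouD d := by
  constructor
  · intro h P Q hc hm ε hε
    obtain ⟨P', Q', h1, h2, h3, h4⟩ := h P Q hc hm ε hε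
    exact ⟨P', Q', h1, h2, h3, (hyp_iff h1 (by omega)).1 h4⟩
  · intro h P Q hc hm ε hε
    obtain ⟨P', Q', h1, h2, h3, h4⟩ := h P Q hc hm ε hε
    exact ⟨P', Q', h1, h2, h3, (hyp_iff h1 (by omega)).2 h4⟩

theorem bdryH_iff {d : ℕ} (hd : 1 ≤ d) : BdryH d ↔ BdryD d := by
  constructor
  · intro h P Q hb ε hε
    obtain ⟨P', Q', h1, h2, h3⟩ := h P Q hb ε hε
    exact ⟨P', Q', h1, h2, (robustH_iff hd _ _).1 h3⟩
  · intro h P Q hb ε hε
    obtain ⟨P', Q', h1, h2, h3⟩ := h P Q hb ε hε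
    exact ⟨P', Q', h1, h2, (robustH_iff hd _ _).2 h3⟩

theorem hyp_of_91 {P Q : Polynomial ℂ} (h : Pool.Agent.H91.Fatou.IsHyperbolic P Q) : Hyp P Q := by
  obtain ⟨f, hf, h1, h2⟩ := h
  refine ⟨f, hf, h1, fun c hc => ?_⟩
  obtain ⟨z, n, hs, ht⟩ := captured_att hf (h2 c hc)
  exact ⟨z, n, hs.1, hs.2.1, hs.2.2, ht⟩

/-- degree two, unconditional -/
theorem bdryH_two : BdryH 2 := by
  intro P Q hPQ ε hε
  obtain ⟨hP, hQ, -, hn⟩ := hPQ
  obtain ⟨A0, B0, H0, hA, hB, hH, rfl, rfl⟩ := stratum (e := 1) hP hQ hn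
  obtain ⟨r, hr, hmul⟩ := mul_near2 H0 (half_pos hε)
  -- closeness of the product for small perturbations
  set SA : ℝ := ∑ j ∈ Finset.range 2, (‖A0.coeff j‖ + 1) with hSA
  set SB : ℝ := ∑ j ∈ Finset.range 2, (‖B0.coeff j‖ + 1) with hSB
  have hSA0 : 0 < SA := by rw [hSA]; positivity
  have hSB0 : 0 < SB := by rw [hSB]; positivity
  set η : ℝ := min (min r 1) (min (ε / (2 * SA) / 2) (ε / (2 * SB) / 2)) with hη
  have hη0 : 0 < η := by positivity
  obtain ⟨A, B, H, hc, hm, hHk, hclose, ⟨ρ, hρ, hrob⟩, -⟩ := Pool.Agent.H91.Fatou.main 2 1 le_rfl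
    (by norm_num) A0 B0 H0 hA hB hH (fun h => absurd h (by norm_num)) η hη0
  have hHk' : H.natDegree = 1 := hHk
  have hH0 : H ≠ 0 := by
    rintro rfl
    simp at hHk'
  have hA1 : A.natDegree ≤ 1 := by have := le_max_left A.natDegree B.natDegree; omega
  have hB1 : B.natDegree ≤ 1 := by have := le_max_right A.natDegree B.natDegree; omega
  -- estimate of A * H - A * H0
  have est : ∀ (R R0 : Polynomial ℂ) (S : ℝ), R.natDegree ≤ 1 →
      S = ∑ j ∈ Finset.range 2, (‖R0.coeff j‖ + 1) → (∀ j, ‖R.coeff j - R0.coeff j‖ < 1) →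
      ∀ i, ‖(R * H).coeff i - (R * H0).coeff i‖ ≤ S * η := by
    intro R R0 S hR hS hRn i
    have e1 : (R * H).coeff i - (R * H0).coeff i =
        ∑ x ∈ Finset.HasAntidiagonal.antidiagonal i, R.coeff x.1 * (H.coeff x.2 - H0.coeff x.2) := by
      rw [coeff_mul, coeff_mul, ← Finset.sum_sub_distrib]
      exact Finset.sum_congr rfl (fun x _ => by ring)
    rw [e1]
    have e2 : ∑ x ∈ Finset.HasAntidiagonal.antidiagonal i, ‖R.coeff x.1‖ ≤ S := by
      rw [Finset.Nat.sum_antidiagonal_eq_sum_range_succ_mk]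
      have h3 : ∑ j ∈ Finset.range i.succ, ‖R.coeff j‖ ≤ ∑ j ∈ Finset.range 2, ‖R.coeff j‖ := by
        have h4 : ∑ j ∈ Finset.range i.succ, ‖R.coeff j‖ =
            ∑ j ∈ (Finset.range i.succ).filter (fun j => j < 2), ‖R.coeff j‖ := by
          rw [Finset.sum_filter]
          apply Finset.sum_congr rfl
          intro j _
          by_cases hj : j < 2
          · rw [if_pos hj]
          · rw [if_neg hj, coeff_eq_zero_of_natDegree_lt (by omega), norm_zero]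
        rw [h4]
        apply Finset.sum_le_sum_of_subset_of_nonneg
        · intro j hj
          exact Finset.mem_range.2 (Finset.mem_filter.1 hj).2
        · intro _ _ _
          exact norm_nonneg _
      refine h3.trans ?_
      rw [hS]
      apply Finset.sum_le_sum
      intro j _
      have h5 := norm_sub_norm_le (R.coeff j) (R0.coeff j)
      linarith [hRn j]
    calc ‖∑ x ∈ Finset.HasAntidiagonal.antidiagonal i, R.coeff x.1 * (H.coeff x.2 - H0.coeff x.2)‖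
        ≤ ∑ x ∈ Finset.HasAntidiagonal.antidiagonal i,
          ‖R.coeff x.1 * (H.coeff x.2 - H0.coeff x.2)‖ := norm_sum_le _ _
      _ ≤ ∑ x ∈ Finset.HasAntidiagonal.antidiagonal i, ‖R.coeff x.1‖ * η := by
          apply Finset.sum_le_sum
          intro x _
          rw [norm_mul]
          exact mul_le_mul_of_nonneg_left (hclose x.2).2.2.le (norm_nonneg _)
      _ = (∑ x ∈ Finset.HasAntidiagonal.antidiagonal i, ‖R.coeff x.1‖) * η := by
          rw [Finset.sum_mul]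
      _ ≤ S * η := mul_le_mul_of_nonneg_right e2 hη0.le
  have hη1 : η ≤ 1 := (min_le_left _ _).trans (min_le_right _ _)
  have hηr : η ≤ r := (min_le_left _ _).trans (min_le_left _ _)
  have n1 : Near (ε / 2) (A * H) (B * H) (A * H0) (B * H0) := by
    intro i
    constructor
    · refine (est A A0 SA hA1 hSA (fun j => ((hclose j).1).trans_le hη1) i).trans_lt ?_
      have : η ≤ ε / (2 * SA) / 2 := (min_le_right _ _).trans (min_le_left _ _)
      have h6 : SA * η ≤ SA * (ε / (2 * SA) / 2) := mul_le_mul_of_nonneg_left this hSA0.le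
      have h7 : SA * (ε / (2 * SA) / 2) = ε / 4 := by field_simp; ring
      linarith
    · refine (est B B0 SB hB1 hSB (fun j => ((hclose j).2.1).trans_le hη1) i).trans_lt ?_
      have : η ≤ ε / (2 * SB) / 2 := (min_le_right _ _).trans (min_le_right _ _)
      have h6 : SB * η ≤ SB * (ε / (2 * SB) / 2) := mul_le_mul_of_nonneg_left this hSB0.le
      have h7 : SB * (ε / (2 * SB) / 2) = ε / 4 := by field_simp; ring
      linarith
  have n2 : Near (ε / 2) (A * H0) (B * H0) (A0 * H0) (B0 * H0) :=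
    hmul _ _ _ _ (fun j => ⟨((hclose j).1).trans_le hηr, ((hclose j).2.1).trans_le hηr⟩)
  refine ⟨A * H, B * H, ⟨natDegree_mul_le.trans (by omega), natDegree_mul_le.trans (by omega),
    ?_, ?_⟩, (n1.trans n2).mono (by linarith), ⟨ρ, hρ, fun P Q h1 h2 h3 =>
      hyp_of_91 (hrob P Q h1 h2 h3)⟩⟩
  · by_contra hcon
    push Not at hcon
    have hA0 : A = 0 := (mul_eq_zero.1 hcon.1).resolve_right hH0
    have hB0 : B = 0 := (mul_eq_zero.1 hcon.2).resolve_right hH0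
    rw [hA0, hB0] at hm
    simp at hm
  · intro hcon
    exact not_coprime_mul (by omega) hcon.1

theorem fatou_boundary :
    (∀ e : ℕ, 2 ≤ e → (FatouH e ↔ BdryH (e + 1))) ∧ BdryH 2 ∧
      ((∀ d : ℕ, 2 ≤ d → FatouH d) ↔ ∀ d : ℕ, 2 ≤ d → BdryH d) := by
  have h1 : ∀ e : ℕ, 2 ≤ e → (FatouH e ↔ BdryH (e + 1)) := fun e he => by
    rw [fatouH_iff (by omega), bdryH_iff (by omega), fatou_iff_bdry he]
  refine ⟨h1, bdryH_two, fun h d hd => ?_, fun h d hd => (h1 d hd).2 (h (d + 1) (by omega))⟩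
  rcases Nat.lt_or_ge d 3 with h3 | h3
  · have : d = 2 := by omega
    rw [this]
    exact bdryH_two
  · obtain ⟨e, rfl⟩ : ∃ e, d = e + 1 := ⟨d - 1, by omega⟩
    exact (h1 e (by omega)).1 (h e (by omega))

end Pool.Agent.H32.BT
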